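import Mathlib

/-!
The algorithm, and its computability.
-/

set_option autoImplicit false
open Finset

namespace Pool.Agent.Helper981.KP

/-- the `S`-label of the code `z` of a list of naturals -/
def lab (n : ℕ) (S : Finset (Fin n)) (z : ℕ) : ℕ :=
  Encodable.encode (((List.finRange n).filter (fun i => decide (i ∈ S))).map
    (fun i : Fin n => (Denumerable.ofNat (List ℕ) z).getD i.val 0))

/-- a common exponent for a state -/
def Ex (s : List (ℕ × ℕ)) : ℕ := (s.map Prod.snd).sum

/-- integer mass of the class with label `u`, in units `2^{-Ex s}` -/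
def Wt (n : ℕ) (S : Finset (Fin n)) (s : List (ℕ × ℕ)) (u : ℕ) : ℕ :=
  (s.map fun q => if lab n S q.1 = u then 2^(Ex s - q.2) else 0).sum

def num (n : ℕ) (lp ln : Finset (Fin n) → ℕ) (s : List (ℕ × ℕ)) (z : ℕ) : ℕ :=
  (∏ S, (Wt n S s (lab n S z))^(lp S)) * 2^(Ex s * ∑ S, ln S)

def den (n : ℕ) (lp ln : Finset (Fin n) → ℕ) (s : List (ℕ × ℕ)) (z : ℕ) : ℕ :=
  (∏ S, (Wt n S s (lab n S z))^(ln S)) * 2^(Ex s * ∑ S, lp S)

def pick (n : ℕ) (lp ln : Finset (Fin n) → ℕ) (s : List (ℕ × ℕ)) : ℕ × ℕ :=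
  s.foldl (fun b q => if num n lp ln s b.1 * den n lp ln s q.1 <
    num n lp ln s q.1 * den n lp ln s b.1 then q else b) s.headI

def fmin (f : ℕ → ℕ → ℕ) (z : ℕ) (u : ℕ) : ℕ :=
  Nat.rec (f z 0) (fun k acc => min acc (f z (k+1))) u

def inp (f : ℕ → ℕ → ℕ) (j : ℕ) : List (ℕ × ℕ) :=
  if j.unpair.2 = 0 ∨ fmin f j.unpair.1 j.unpair.2 < fmin f j.unpair.1 (j.unpair.2 - 1) then
    [(j.unpair.1, fmin f j.unpair.1 j.unpair.2)] else []

def step (n : ℕ) (lp ln : Finset (Fin n) → ℕ) (μ : ℕ) (f : ℕ → ℕ → ℕ)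
    (σ : ℕ × List (ℕ × ℕ)) : ℕ × List (ℕ × ℕ) :=
  if 2^μ * den n lp ln σ.2 (pick n lp ln σ.2).1 < num n lp ln σ.2 (pick n lp ln σ.2).1 then
    (σ.1, pick n lp ln σ.2 :: σ.2) else (σ.1 + 1, inp f σ.1 ++ σ.2)

def run (n : ℕ) (lp ln : Finset (Fin n) → ℕ) (μ : ℕ) (f : ℕ → ℕ → ℕ) (t : ℕ) :
    ℕ × List (ℕ × ℕ) :=
  Nat.rec (0, [(0, 0)]) (fun _ σ => step n lp ln μ f σ) t

/-! ### computability -/

theorem primrec_pow : Primrec₂ ((· ^ ·) : ℕ → ℕ → ℕ) := Primrec₂.unpaired'.1 Nat.Primrec.pow

theorem primrec_list_sum : Primrec (List.sum : List ℕ → ℕ) := by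
  have h : Primrec (fun l : List ℕ => l.foldr (fun b s => b + s) 0) :=
    Primrec.list_foldr (f := fun l : List ℕ => l) (g := fun _ => 0)
      (h := fun _ p => p.1 + p.2) Primrec.id (Primrec.const 0)
      (Primrec.nat_add.comp (Primrec.fst.comp Primrec.snd) (Primrec.snd.comp Primrec.snd)).to₂
  refine h.of_eq fun l => ?_
  rw [List.sum_eq_foldr]

theorem primrec_finset_prod {α ι : Type*} [Primcodable α] (JJ : Finset ι) (F : ι → α → ℕ)
    (hF : ∀ i, Primrec (F i)) : Primrec (fun a => ∏ i ∈ JJ, F i a) := by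
  classical
  induction JJ using Finset.induction_on with
  | empty => simpa using Primrec.const 1
  | insert i JJ hi ih =>
    simp only [Finset.prod_insert hi]
    exact Primrec.nat_mul.comp (hF i) ih

theorem primrec_list_fix {α : Type*} [Primcodable α] {ι : Type*} (L : List ι) (F : ι → α → ℕ)
    (hF : ∀ i, Primrec (F i)) : Primrec (fun a => L.map (fun i => F i a)) := by
  induction L with
  | nil => simpa using Primrec.const []
  | cons i L ih =>
    simp only [List.map_cons]
    exact Primrec.list_cons.comp (hF i) ih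

theorem primrec_getD_code (k : ℕ) :
    Primrec (fun z : ℕ => (Denumerable.ofNat (List ℕ) z).getD k 0) :=
  (Primrec.list_getD 0).comp (Primrec.ofNat (List ℕ)) (Primrec.const k)

theorem primrec_lab (n : ℕ) (S : Finset (Fin n)) : Primrec (lab n S) := by
  unfold lab
  refine Primrec.encode.comp ?_
  exact primrec_list_fix _ (fun (i : Fin n) (z : ℕ) => (Denumerable.ofNat (List ℕ) z).getD i.val 0)
    (fun i => primrec_getD_code i)

theorem primrec_Ex : Primrec Ex := by
  unfold Ex
  exact primrec_list_sum.comp (Primrec.list_map Primrec.id (Primrec.snd.comp Primrec.snd).to₂)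

theorem primrec_Wt (n : ℕ) (S : Finset (Fin n)) :
    Primrec₂ (fun (s : List (ℕ × ℕ)) (u : ℕ) => Wt n S s u) := by
  unfold Wt
  refine primrec_list_sum.comp ?_
  refine Primrec.list_map (f := fun p : List (ℕ × ℕ) × ℕ => p.1)
    (g := fun p q => if lab n S q.1 = p.2 then 2^(Ex p.1 - q.2) else 0) Primrec.fst ?_
  refine Primrec.ite ?_ ?_ (Primrec.const 0)
  · exact Primrec.eq.comp ((primrec_lab n S).comp (Primrec.fst.comp Primrec.snd))
      (Primrec.snd.comp Primrec.fst)
  · exact primrec_pow.comp (Primrec.const 2)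
      (Primrec.nat_sub.comp (primrec_Ex.comp (Primrec.fst.comp Primrec.fst))
        (Primrec.snd.comp Primrec.snd))

theorem primrec_num (n : ℕ) (lp ln : Finset (Fin n) → ℕ) :
    Primrec₂ (fun (s : List (ℕ × ℕ)) (z : ℕ) => num n lp ln s z) := by
  unfold num
  refine Primrec.nat_mul.comp ?_ ?_
  · refine primrec_finset_prod Finset.univ
      (fun S (p : List (ℕ × ℕ) × ℕ) => (Wt n S p.1 (lab n S p.2))^(lp S)) fun S => ?_
    exact primrec_pow.comp ((primrec_Wt n S).comp Primrec.fst ((primrec_lab n S).comp Primrec.snd))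
      (Primrec.const _)
  · exact primrec_pow.comp (Primrec.const 2)
      (Primrec.nat_mul.comp (primrec_Ex.comp Primrec.fst) (Primrec.const _))

theorem primrec_den (n : ℕ) (lp ln : Finset (Fin n) → ℕ) :
    Primrec₂ (fun (s : List (ℕ × ℕ)) (z : ℕ) => den n lp ln s z) := by
  unfold den
  refine Primrec.nat_mul.comp ?_ ?_
  · refine primrec_finset_prod Finset.univ
      (fun S (p : List (ℕ × ℕ) × ℕ) => (Wt n S p.1 (lab n S p.2))^(ln S)) fun S => ?_
    exact primrec_pow.comp ((primrec_Wt n S).comp Primrec.fst ((primrec_lab n S).comp Primrec.snd))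
      (Primrec.const _)
  · exact primrec_pow.comp (Primrec.const 2)
      (Primrec.nat_mul.comp (primrec_Ex.comp Primrec.fst) (Primrec.const _))

theorem primrec_pick (n : ℕ) (lp ln : Finset (Fin n) → ℕ) : Primrec (pick n lp ln) := by
  unfold pick
  have hn := primrec_num n lp ln
  have hd := primrec_den n lp ln
  have ps : Primrec (fun x : List (ℕ × ℕ) × ((ℕ × ℕ) × (ℕ × ℕ)) => x.1) := Primrec.fst
  have pb : Primrec (fun x : List (ℕ × ℕ) × ((ℕ × ℕ) × (ℕ × ℕ)) => x.2.1.1) :=
    Primrec.fst.comp (Primrec.fst.comp Primrec.snd)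
  have pq : Primrec (fun x : List (ℕ × ℕ) × ((ℕ × ℕ) × (ℕ × ℕ)) => x.2.2.1) :=
    Primrec.fst.comp (Primrec.snd.comp Primrec.snd)
  refine Primrec.list_foldl (f := fun s : List (ℕ × ℕ) => s)
    (g := fun s : List (ℕ × ℕ) => s.headI)
    (h := fun s bq => if num n lp ln s bq.1.1 * den n lp ln s bq.2.1 <
      num n lp ln s bq.2.1 * den n lp ln s bq.1.1 then bq.2 else bq.1)
    Primrec.id Primrec.list_headI ?_
  refine Primrec.ite ?_ (Primrec.snd.comp Primrec.snd) (Primrec.fst.comp Primrec.snd)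
  exact Primrec.nat_lt.comp
    (Primrec.nat_mul.comp (hn.comp ps pb) (hd.comp ps pq))
    (Primrec.nat_mul.comp (hn.comp ps pq) (hd.comp ps pb))

theorem computable_fmin {f : ℕ → ℕ → ℕ} (hf : Computable₂ f) : Computable₂ (fmin f) := by
  unfold fmin
  refine (Computable.nat_rec (f := fun p : ℕ × ℕ => p.2) (g := fun p : ℕ × ℕ => f p.1 0)
    (h := fun p q => min q.2 (f p.1 (q.1+1))) Computable.snd ?_ ?_).to₂
  · exact hf.comp Computable.fst (Computable.const 0)
  · refine (Primrec.nat_min.to_comp).comp (Computable.snd.comp Computable.snd) ?_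
    exact hf.comp (Computable.fst.comp Computable.fst)
      (Computable.succ.comp (Computable.fst.comp Computable.snd))

theorem computable_inp {f : ℕ → ℕ → ℕ} (hf : Computable₂ f) : Computable (inp f) := by
  have hm := computable_fmin hf
  have p1 : Computable (fun j : ℕ => j.unpair.1) := Computable.fst.comp Computable.unpair
  have p2 : Computable (fun j : ℕ => j.unpair.2) := Computable.snd.comp Computable.unpair
  have hA : Computable (fun j : ℕ => fmin f j.unpair.1 j.unpair.2) := hm.comp p1 p2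
  have hB : Computable (fun j : ℕ => fmin f j.unpair.1 (j.unpair.2 - 1)) :=
    hm.comp p1 (Computable.pred.comp p2)
  have hcond : Computable (fun j : ℕ => decide (j.unpair.2 = 0) ||
      decide (fmin f j.unpair.1 j.unpair.2 < fmin f j.unpair.1 (j.unpair.2 - 1))) := by
    refine (Primrec.or.to_comp).comp ?_ ?_
    · exact (Primrec.eq.decide.to_comp).comp p2 (Computable.const 0)
    · exact (Primrec.nat_lt.decide.to_comp).comp hA hB
  have h := Computable.cond hcond
    ((Primrec.list_cons.to_comp).comp (Computable.pair p1 hA) (Computable.const []))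
    (Computable.const ([] : List (ℕ × ℕ)))
  refine h.of_eq fun j => ?_
  unfold inp
  by_cases h1 : j.unpair.2 = 0 ∨
      fmin f j.unpair.1 j.unpair.2 < fmin f j.unpair.1 (j.unpair.2 - 1)
  · rw [if_pos h1]
    have : (decide (j.unpair.2 = 0) ||
      decide (fmin f j.unpair.1 j.unpair.2 < fmin f j.unpair.1 (j.unpair.2 - 1))) = true := by
      simpa using h1
    rw [this]; rfl
  · rw [if_neg h1]
    have : (decide (j.unpair.2 = 0) ||
      decide (fmin f j.unpair.1 j.unpair.2 < fmin f j.unpair.1 (j.unpair.2 - 1))) = false := by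
      simpa using h1
    rw [this]; rfl

theorem computable_step (n : ℕ) (lp ln : Finset (Fin n) → ℕ) (μ : ℕ) {f : ℕ → ℕ → ℕ}
    (hf : Computable₂ f) : Computable (step n lp ln μ f) := by
  have hn := primrec_num n lp ln
  have hd := primrec_den n lp ln
  have hp := primrec_pick n lp ln
  have hcond : Primrec (fun σ : ℕ × List (ℕ × ℕ) =>
      decide (2^μ * den n lp ln σ.2 (pick n lp ln σ.2).1 < num n lp ln σ.2 (pick n lp ln σ.2).1)) := by
    refine Primrec.nat_lt.decide.comp ?_ ?_
    · exact Primrec.nat_mul.comp (Primrec.const _)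
        (hd.comp Primrec.snd (Primrec.fst.comp (hp.comp Primrec.snd)))
    · exact hn.comp Primrec.snd (Primrec.fst.comp (hp.comp Primrec.snd))
  have hA : Computable (fun σ : ℕ × List (ℕ × ℕ) => (σ.1, pick n lp ln σ.2 :: σ.2)) :=
    (Primrec.pair Primrec.fst (Primrec.list_cons.comp (hp.comp Primrec.snd) Primrec.snd)).to_comp
  have hB : Computable (fun σ : ℕ × List (ℕ × ℕ) => (σ.1 + 1, inp f σ.1 ++ σ.2)) :=
    Computable.pair (Computable.succ.comp Computable.fst)
      ((Primrec.list_append.to_comp).comp ((computable_inp hf).comp Computable.fst) Computable.snd)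
  have h := Computable.cond hcond.to_comp hA hB
  refine h.of_eq fun σ => ?_
  unfold step
  by_cases h1 : 2^μ * den n lp ln σ.2 (pick n lp ln σ.2).1 < num n lp ln σ.2 (pick n lp ln σ.2).1
  · rw [if_pos h1]
    simp [h1]
  · rw [if_neg h1]
    simp [h1]

theorem computable_run (n : ℕ) (lp ln : Finset (Fin n) → ℕ) (μ : ℕ) {f : ℕ → ℕ → ℕ}
    (hf : Computable₂ f) : Computable (run n lp ln μ f) := by
  unfold run
  exact Computable.nat_rec (f := fun t : ℕ => t) (g := fun _ => (0, [(0, 0)]))
    (h := fun _ p => step n lp ln μ f p.2) Computable.id (Computable.const _)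
    ((computable_step n lp ln μ hf).comp (Computable.snd.comp Computable.snd)).to₂

end Pool.Agent.Helper981.KP
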