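import Mathlib

/-!
Finite (unnormalised) entropies `Hf w f = ∑ w ω (-log w{f = f ω})`, submodularity,
data processing and the Gibbs-type bound.
-/

set_option autoImplicit false
open Finset

namespace Pool.Agent.Helper981.KP

section Ent
variable {Ω : Type*} [Fintype Ω]

/-- `mg w f ω` is the `w`-mass of the fibre of `f` through `ω`. -/
noncomputable def mg {α : Type*} [DecidableEq α] (w : Ω → ℝ) (f : Ω → α) (ω : Ω) : ℝ :=
  ∑ ω', if f ω' = f ω then w ω' else 0

/-- `Hf w f = ∑ w ω (-log (mg w f ω))`: the Shannon entropy (in nats) of `f` when `∑ w = 1`. -/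
noncomputable def Hf {α : Type*} [DecidableEq α] (w : Ω → ℝ) (f : Ω → α) : ℝ :=
  ∑ ω, w ω * (-Real.log (mg w f ω))

variable {α β γ δ : Type*} [DecidableEq α] [DecidableEq β] [DecidableEq γ] [DecidableEq δ]

lemma mg_congr_pt (w : Ω → ℝ) (f : Ω → α) {ω ω' : Ω} (h : f ω = f ω') :
    mg w f ω = mg w f ω' := by
  unfold mg; rw [h]

lemma mg_congr (w : Ω → ℝ) (f : Ω → α) (g : Ω → β) (h : ∀ ω ω', f ω = f ω' ↔ g ω = g ω')
    (ω : Ω) : mg w f ω = mg w g ω := by
  unfold mg
  refine Finset.sum_congr rfl fun ω' _ => ?_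
  simp only [h ω' ω]

lemma Hf_congr (w : Ω → ℝ) (f : Ω → α) (g : Ω → β) (h : ∀ ω ω', f ω = f ω' ↔ g ω = g ω') :
    Hf w f = Hf w g := by
  unfold Hf
  refine Finset.sum_congr rfl fun ω' _ => ?_
  rw [mg_congr w f g h]

lemma mg_nonneg (w : Ω → ℝ) (hw : ∀ ω, 0 ≤ w ω) (f : Ω → α) (ω : Ω) : 0 ≤ mg w f ω :=
  Finset.sum_nonneg fun ω' _ => by split_ifs <;> simp [hw]

lemma le_mg (w : Ω → ℝ) (hw : ∀ ω, 0 ≤ w ω) (f : Ω → α) (ω : Ω) : w ω ≤ mg w f ω := by
  unfold mg
  refine le_trans ?_ (Finset.single_le_sum (f := fun ω' => if f ω' = f ω then w ω' else 0)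
    (fun ω' _ => by split_ifs <;> simp [hw]) (Finset.mem_univ ω))
  simp

lemma mg_le_sum (w : Ω → ℝ) (hw : ∀ ω, 0 ≤ w ω) (f : Ω → α) (ω : Ω) :
    mg w f ω ≤ ∑ ω', w ω' :=
  Finset.sum_le_sum fun ω' _ => by split_ifs <;> simp [hw]

lemma sum_div_mg_le_one (w : Ω → ℝ) (_hw : ∀ ω, 0 ≤ w ω) (f : Ω → α) (c : α) :
    ∑ ω, (if f ω = c then w ω / mg w f ω else 0) ≤ 1 := by
  by_cases hc : ∃ ω0, f ω0 = c
  · obtain ⟨ω0, h0⟩ := hc
    have h1 : ∑ ω, (if f ω = c then w ω / mg w f ω else 0)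
        = (∑ ω, if f ω = f ω0 then w ω else 0) / mg w f ω0 := by
      rw [Finset.sum_div]
      refine Finset.sum_congr rfl fun ω _ => ?_
      rw [h0]
      split_ifs with h
      · rw [mg_congr_pt w f (h.trans h0.symm)]
      · simp
    rw [h1]
    exact div_self_le_one _
  · push Not at hc
    rw [Finset.sum_eq_zero]
    · exact zero_le_one
    · intro ω _
      simp [hc ω]

lemma swap_le (a b : Ω → ℝ) (ha : ∀ ω, 0 ≤ a ω) (hb : ∀ ω, 0 ≤ b ω) (f : Ω → α) :
    ∑ ω, a ω * mg b f ω / mg a f ω ≤ ∑ ω, b ω := by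
  have h1 : ∑ ω, a ω * mg b f ω / mg a f ω
      = ∑ ω', b ω' * ∑ ω, (if f ω = f ω' then a ω / mg a f ω else 0) := by
    calc ∑ ω, a ω * mg b f ω / mg a f ω
        = ∑ ω, ∑ ω', (if f ω' = f ω then b ω' * (a ω / mg a f ω) else 0) := by
          refine Finset.sum_congr rfl fun ω _ => ?_
          rw [mg, Finset.mul_sum, Finset.sum_div]
          refine Finset.sum_congr rfl fun ω' _ => ?_
          split_ifs <;> ring
      _ = ∑ ω', ∑ ω, (if f ω' = f ω then b ω' * (a ω / mg a f ω) else 0) :=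
          Finset.sum_comm
      _ = _ := by
          refine Finset.sum_congr rfl fun ω' _ => ?_
          rw [Finset.mul_sum]
          refine Finset.sum_congr rfl fun ω _ => ?_
          by_cases h : f ω = f ω'
          · rw [if_pos h, if_pos h.symm]
          · rw [if_neg h, if_neg (fun h' => h h'.symm)]; simp
  rw [h1]
  refine Finset.sum_le_sum fun ω' _ => ?_
  exact mul_le_of_le_one_right (hb ω') (sum_div_mg_le_one a ha f (f ω'))

/-- key sum for submodularity -/
lemma submod_sum (w : Ω → ℝ) (hw : ∀ ω, 0 ≤ w ω) (f : Ω → α) (g : Ω → β) (h : Ω → γ) :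
    ∑ ω, w ω * (mg w (fun ω => (f ω, h ω)) ω * mg w (fun ω => (g ω, h ω)) ω /
      (mg w (fun ω => (f ω, g ω, h ω)) ω * mg w h ω)) ≤ ∑ ω, w ω := by
  set F := fun ω => (f ω, h ω) with hF
  set G := fun ω => (g ω, h ω) with hG
  set T := fun ω => (f ω, g ω, h ω) with hT
  have step1 : ∀ ω2, ∑ ω, (if G ω2 = G ω then w ω * (mg w F ω / mg w T ω) else 0) ≤ mg w h ω2 := by
    intro ω2
    calc ∑ ω, (if G ω2 = G ω then w ω * (mg w F ω / mg w T ω) else 0)
        = ∑ ω, ∑ ω1, (if G ω2 = G ω ∧ F ω1 = F ω then w ω1 * (w ω / mg w T ω) else 0) := by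
          refine Finset.sum_congr rfl fun ω _ => ?_
          by_cases hh : G ω2 = G ω
          · rw [if_pos hh, mg.eq_1 w F, Finset.sum_div, Finset.mul_sum]
            refine Finset.sum_congr rfl fun ω1 _ => ?_
            by_cases h2 : F ω1 = F ω
            · rw [if_pos h2, if_pos ⟨hh, h2⟩]; ring
            · rw [if_neg h2, if_neg (fun h3 => h2 h3.2)]; ring
          · rw [if_neg hh]
            symm
            refine Finset.sum_eq_zero fun ω1 _ => ?_
            rw [if_neg (fun h3 => hh h3.1)]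
      _ = ∑ ω1, ∑ ω, (if G ω2 = G ω ∧ F ω1 = F ω then w ω1 * (w ω / mg w T ω) else 0) :=
          Finset.sum_comm
      _ ≤ ∑ ω1, (if h ω1 = h ω2 then w ω1 else 0) := by
          refine Finset.sum_le_sum fun ω1 _ => ?_
          by_cases hh : h ω1 = h ω2
          · rw [if_pos hh]
            calc ∑ ω, (if G ω2 = G ω ∧ F ω1 = F ω then w ω1 * (w ω / mg w T ω) else 0)
                = w ω1 * ∑ ω, (if T ω = (f ω1, g ω2, h ω2) then w ω / mg w T ω else 0) := by
                  rw [Finset.mul_sum]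
                  refine Finset.sum_congr rfl fun ω _ => ?_
                  have : (G ω2 = G ω ∧ F ω1 = F ω) ↔ T ω = (f ω1, g ω2, h ω2) := by
                    simp only [hF, hG, hT, Prod.mk.injEq]
                    constructor
                    · rintro ⟨⟨h1, h2⟩, h3, h4⟩
                      exact ⟨h3.symm, h1.symm, h2.symm⟩
                    · rintro ⟨h1, h2, h3⟩
                      exact ⟨⟨h2.symm, h3.symm⟩, h1.symm, by rw [hh, h3]⟩
                  simp only [this]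
                  split_ifs <;> simp
              _ ≤ w ω1 := mul_le_of_le_one_right (hw ω1) (sum_div_mg_le_one w hw T _)
          · rw [if_neg hh]
            refine le_of_eq (Finset.sum_eq_zero fun ω _ => ?_)
            rw [if_neg]
            rintro ⟨h3, h4⟩
            simp only [hF, hG, Prod.mk.injEq] at h3 h4
            exact hh (h4.2.trans h3.2.symm)
      _ = mg w h ω2 := rfl
  calc ∑ ω, w ω * (mg w F ω * mg w G ω / (mg w T ω * mg w h ω))
      = ∑ ω, ∑ ω2, (if G ω2 = G ω then w ω2 / mg w h ω2 * (w ω * (mg w F ω / mg w T ω)) else 0) := by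
        refine Finset.sum_congr rfl fun ω _ => ?_
        rw [mg.eq_1 w G, Finset.mul_sum, Finset.sum_div, Finset.mul_sum]
        refine Finset.sum_congr rfl fun ω2 _ => ?_
        by_cases hh : G ω2 = G ω
        · rw [if_pos hh, if_pos hh]
          have : h ω2 = h ω := (Prod.mk.inj hh).2
          rw [mg_congr_pt w h this]
          ring
        · rw [if_neg hh, if_neg hh]; simp
    _ = ∑ ω2, ∑ ω, (if G ω2 = G ω then w ω2 / mg w h ω2 * (w ω * (mg w F ω / mg w T ω)) else 0) :=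
        Finset.sum_comm
    _ = ∑ ω2, w ω2 / mg w h ω2 * ∑ ω, (if G ω2 = G ω then w ω * (mg w F ω / mg w T ω) else 0) := by
        refine Finset.sum_congr rfl fun ω2 _ => ?_
        rw [Finset.mul_sum]
        refine Finset.sum_congr rfl fun ω _ => ?_
        split_ifs <;> simp
    _ ≤ ∑ ω2, w ω2 / mg w h ω2 * mg w h ω2 := by
        refine Finset.sum_le_sum fun ω2 _ => ?_
        exact mul_le_mul_of_nonneg_left (step1 ω2) (div_nonneg (hw _) (mg_nonneg w hw h ω2))
    _ ≤ ∑ ω2, w ω2 := by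
        refine Finset.sum_le_sum fun ω2 _ => ?_
        by_cases h0 : mg w h ω2 = 0
        · rw [h0]; simp [hw]
        · rw [div_mul_cancel₀ _ h0]

theorem submod (w : Ω → ℝ) (hw : ∀ ω, 0 ≤ w ω) (f : Ω → α) (g : Ω → β) (h : Ω → γ) :
    Hf w (fun ω => (f ω, g ω, h ω)) + Hf w h ≤
      Hf w (fun ω => (f ω, h ω)) + Hf w (fun ω => (g ω, h ω)) := by
  have hs := submod_sum w hw f g h
  set F := fun ω => (f ω, h ω) with hF
  set G := fun ω => (g ω, h ω) with hG
  set T := fun ω => (f ω, g ω, h ω) with hT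
  have key : ∀ ω, w ω * (1 - mg w F ω * mg w G ω / (mg w T ω * mg w h ω)) ≤
      w ω * (-Real.log (mg w F ω)) + w ω * (-Real.log (mg w G ω))
        - w ω * (-Real.log (mg w T ω)) - w ω * (-Real.log (mg w h ω)) := by
    intro ω
    rcases (hw ω).eq_or_lt with h0 | hpos
    · rw [← h0]; simp
    · have p1 : 0 < mg w F ω := lt_of_lt_of_le hpos (le_mg w hw F ω)
      have p2 : 0 < mg w G ω := lt_of_lt_of_le hpos (le_mg w hw G ω)
      have p3 : 0 < mg w T ω := lt_of_lt_of_le hpos (le_mg w hw T ω)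
      have p4 : 0 < mg w h ω := lt_of_lt_of_le hpos (le_mg w hw h ω)
      have hx : 0 < mg w F ω * mg w G ω / (mg w T ω * mg w h ω) := by positivity
      have hl := Real.log_le_sub_one_of_pos hx
      rw [Real.log_div (by positivity) (by positivity), Real.log_mul p1.ne' p2.ne',
        Real.log_mul p3.ne' p4.ne'] at hl
      have : w ω * (1 - mg w F ω * mg w G ω / (mg w T ω * mg w h ω)) ≤
        w ω * (-(Real.log (mg w F ω) + Real.log (mg w G ω)
          - (Real.log (mg w T ω) + Real.log (mg w h ω)))) :=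
        mul_le_mul_of_nonneg_left (by linarith) hpos.le
      linarith
  have hsum := Finset.sum_le_sum (s := Finset.univ) fun ω _ => key ω
  simp only [Finset.sum_add_distrib, Finset.sum_sub_distrib, mul_sub, mul_one] at hsum
  unfold Hf
  linarith

/-- data processing: the divergence of a coarse-graining is at most the divergence -/
lemma data_proc (Q w : Ω → ℝ) (hQ : ∀ ω, 0 < Q ω) (hw : ∀ ω, 0 < w ω) (f : Ω → α) :
    ∑ ω, Q ω * (Real.log (mg Q f ω) - Real.log (mg w f ω)) ≤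
      ∑ ω, Q ω * (Real.log (Q ω) - Real.log (w ω)) := by
  have hs := swap_le w Q (fun ω => (hw ω).le) (fun ω => (hQ ω).le) f
  have key : ∀ ω, Q ω * (Real.log (mg Q f ω) - Real.log (mg w f ω))
      - Q ω * (Real.log (Q ω) - Real.log (w ω)) ≤ w ω * mg Q f ω / mg w f ω - Q ω := by
    intro ω
    have p1 : 0 < mg Q f ω := lt_of_lt_of_le (hQ ω) (le_mg Q (fun ω => (hQ ω).le) f ω)
    have p2 : 0 < mg w f ω := lt_of_lt_of_le (hw ω) (le_mg w (fun ω => (hw ω).le) f ω)
    have q := hQ ω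
    have q2 := hw ω
    have hx : 0 < w ω * mg Q f ω / (mg w f ω * Q ω) := by positivity
    have hl := Real.log_le_sub_one_of_pos hx
    rw [Real.log_div (by positivity) (by positivity), Real.log_mul q2.ne' p1.ne',
      Real.log_mul p2.ne' q.ne'] at hl
    have h3 := mul_le_mul_of_nonneg_left hl q.le
    have h4 : Q ω * (w ω * mg Q f ω / (mg w f ω * Q ω) - 1) = w ω * mg Q f ω / mg w f ω - Q ω := by
      field_simp
    rw [h4] at h3
    linarith
  have hsum := Finset.sum_le_sum (s := Finset.univ) fun ω _ => key ω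
  simp only [Finset.sum_sub_distrib] at hsum
  linarith

/-- lower bound for the divergence of a marginal against an unnormalised measure -/
lemma div_lower (Q w : Ω → ℝ) (hQ : ∀ ω, 0 < Q ω) (hw : ∀ ω, 0 < w ω) (hQ1 : ∑ ω, Q ω = 1)
    (hT : 0 < ∑ ω, w ω) (f : Ω → α) :
    -Real.log (∑ ω, w ω) ≤ ∑ ω, Q ω * (Real.log (mg Q f ω) - Real.log (mg w f ω)) := by
  have hs := swap_le Q w (fun ω => (hQ ω).le) (fun ω => (hw ω).le) f
  set T := ∑ ω, w ω with hTdef
  have key : ∀ ω, Q ω * (-Real.log T) - Q ω * (Real.log (mg Q f ω) - Real.log (mg w f ω))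
      ≤ (Q ω * mg w f ω / mg Q f ω) / T - Q ω := by
    intro ω
    have p1 : 0 < mg Q f ω := lt_of_lt_of_le (hQ ω) (le_mg Q (fun ω => (hQ ω).le) f ω)
    have p2 : 0 < mg w f ω := lt_of_lt_of_le (hw ω) (le_mg w (fun ω => (hw ω).le) f ω)
    have q := hQ ω
    have hx : 0 < mg w f ω / (mg Q f ω * T) := by positivity
    have hl := Real.log_le_sub_one_of_pos hx
    rw [Real.log_div (by positivity) (by positivity), Real.log_mul p1.ne' hT.ne'] at hl
    have h3 := mul_le_mul_of_nonneg_left hl q.le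
    have h4 : Q ω * (mg w f ω / (mg Q f ω * T) - 1) = (Q ω * mg w f ω / mg Q f ω) / T - Q ω := by
      field_simp
    rw [h4] at h3
    linarith
  have hsum := Finset.sum_le_sum (s := Finset.univ) fun ω _ => key ω
  simp only [Finset.sum_sub_distrib, ← Finset.sum_div, ← Finset.sum_mul, hQ1] at hsum
  have h5 : (∑ ω, Q ω * mg w f ω / mg Q f ω) / T ≤ 1 := by
    rw [div_le_one hT]; exact hs
  linarith

/-- the static (Gibbs) lemma -/
theorem gibbs {J : Type*} (JJ : Finset J) {κ : Type*} [DecidableEq κ]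
    (f : J → Ω → κ) (a : J → ℝ) (w : Ω → ℝ) (hw : ∀ ω, 0 < w ω) [Nonempty Ω]
    (hvalid : ∀ Q : Ω → ℝ, (∀ ω, 0 < Q ω) → ∑ ω, Q ω = 1 → 0 ≤ ∑ S ∈ JJ, a S * Hf Q (f S))
    (hneg : ∑ S ∈ JJ, max (-a S) 0 ≤ 1) :
    ∑ ω, w ω * Real.exp (∑ S ∈ JJ, a S * Real.log (mg w (f S) ω)) ≤
      Real.exp ((1 + ∑ S ∈ JJ, max (a S) 0) * Real.log (max (∑ ω, w ω) 1)) := by
  classical
  set ψ : Ω → ℝ := fun ω => Real.exp (∑ S ∈ JJ, a S * Real.log (mg w (f S) ω)) with hψ
  set Z := ∑ ω, w ω * ψ ω with hZ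
  have hψpos : ∀ ω, 0 < ψ ω := fun ω => Real.exp_pos _
  have hZpos : 0 < Z := Finset.sum_pos (fun ω _ => mul_pos (hw ω) (hψpos ω)) Finset.univ_nonempty
  have hTpos : 0 < ∑ ω, w ω := Finset.sum_pos (fun ω _ => hw ω) Finset.univ_nonempty
  set Q : Ω → ℝ := fun ω => w ω * ψ ω / Z with hQdef
  have hQ : ∀ ω, 0 < Q ω := fun ω => div_pos (mul_pos (hw ω) (hψpos ω)) hZpos
  have hQ1 : ∑ ω, Q ω = 1 := by
    simp only [hQdef]
    rw [← Finset.sum_div, div_self hZpos.ne']
  have hlogQ : ∀ ω, Real.log (Q ω) = Real.log (w ω) + (∑ S ∈ JJ, a S * Real.log (mg w (f S) ω))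
      - Real.log Z := by
    intro ω
    simp only [hQdef]
    rw [Real.log_div (mul_pos (hw ω) (hψpos ω)).ne' hZpos.ne',
      Real.log_mul (hw ω).ne' (hψpos ω).ne', hψ, Real.log_exp]
  have hv := hvalid Q hQ hQ1
  -- log Z = -D - Σ a_S H_S - Σ a_S D_S
  set D := ∑ ω, Q ω * (Real.log (Q ω) - Real.log (w ω)) with hD
  set DS : J → ℝ := fun S => ∑ ω, Q ω * (Real.log (mg Q (f S) ω) - Real.log (mg w (f S) ω)) with hDS
  have hDid : -Real.log (∑ ω, w ω) ≤ D := by
    have := div_lower Q w hQ hw hQ1 hTpos (fun ω : Ω => ω)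
    have e1 : ∀ (v : Ω → ℝ) (ω : Ω), mg v (fun ω : Ω => ω) ω = v ω := by
      intro v ω; simp [mg]
    simp only [e1] at this
    exact this
  have hDSle : ∀ S, DS S ≤ D := fun S => data_proc Q w hQ hw (f S)
  have hDSge : ∀ S, -Real.log (∑ ω, w ω) ≤ DS S := fun S => div_lower Q w hQ hw hQ1 hTpos (f S)
  have hlogZ : Real.log Z = -D - (∑ S ∈ JJ, a S * Hf Q (f S)) - ∑ S ∈ JJ, a S * DS S := by
    have h1 : D = (∑ ω, Q ω * ∑ S ∈ JJ, a S * Real.log (mg w (f S) ω)) - Real.log Z := by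
      rw [hD]
      have : ∀ ω, Q ω * (Real.log (Q ω) - Real.log (w ω)) =
        Q ω * (∑ S ∈ JJ, a S * Real.log (mg w (f S) ω)) - Q ω * Real.log Z := by
        intro ω; rw [hlogQ]; ring
      rw [Finset.sum_congr rfl fun ω _ => this ω, Finset.sum_sub_distrib, ← Finset.sum_mul, hQ1,
        one_mul]
    have h2 : (∑ ω, Q ω * ∑ S ∈ JJ, a S * Real.log (mg w (f S) ω))
        = -(∑ S ∈ JJ, a S * Hf Q (f S)) - ∑ S ∈ JJ, a S * DS S := by
      have e1 : (∑ ω, Q ω * ∑ S ∈ JJ, a S * Real.log (mg w (f S) ω))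
          = ∑ S ∈ JJ, a S * ∑ ω, Q ω * Real.log (mg w (f S) ω) := by
        simp only [Finset.mul_sum]
        rw [Finset.sum_comm]
        refine Finset.sum_congr rfl fun S _ => Finset.sum_congr rfl fun ω _ => ?_
        ring
      rw [e1, ← Finset.sum_neg_distrib, ← Finset.sum_sub_distrib]
      refine Finset.sum_congr rfl fun S _ => ?_
      have e2 : ∑ ω, Q ω * Real.log (mg w (f S) ω) = -Hf Q (f S) - DS S := by
        simp only [Hf, hDS]
        rw [← Finset.sum_neg_distrib, ← Finset.sum_sub_distrib]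
        refine Finset.sum_congr rfl fun ω _ => ?_
        ring
      rw [e2]; ring
    linarith
  have hterm : ∀ S ∈ JJ, -(a S * DS S) ≤ max (a S) 0 * Real.log (∑ ω, w ω) + max (-a S) 0 * D := by
    intro S _
    rcases le_total 0 (a S) with h | h
    · rw [max_eq_left h, max_eq_right (by linarith)]
      nlinarith [hDSge S, mul_le_mul_of_nonneg_left (hDSge S) h]
    · rw [max_eq_right h, max_eq_left (by linarith)]
      nlinarith [mul_le_mul_of_nonneg_left (hDSle S) (neg_nonneg.2 h)]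
  have hsum : -(∑ S ∈ JJ, a S * DS S) ≤ (∑ S ∈ JJ, max (a S) 0) * Real.log (∑ ω, w ω)
      + (∑ S ∈ JJ, max (-a S) 0) * D := by
    rw [← Finset.sum_neg_distrib, Finset.sum_mul, Finset.sum_mul, ← Finset.sum_add_distrib]
    exact Finset.sum_le_sum hterm
  set Ap := ∑ S ∈ JJ, max (a S) 0 with hAp
  set Am := ∑ S ∈ JJ, max (-a S) 0 with hAm
  have hAp0 : 0 ≤ Ap := Finset.sum_nonneg fun S _ => le_max_right _ _
  have hAm0 : 0 ≤ Am := Finset.sum_nonneg fun S _ => le_max_right _ _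
  have hlogT : Real.log (∑ ω, w ω) ≤ Real.log (max (∑ ω, w ω) 1) :=
    Real.log_le_log hTpos (le_max_left _ _)
  have hlogT0 : 0 ≤ Real.log (max (∑ ω, w ω) 1) := Real.log_nonneg (le_max_right _ _)
  have hfin : Real.log Z ≤ (1 + Ap) * Real.log (max (∑ ω, w ω) 1) := by
    set LT := Real.log (∑ ω, w ω)
    set LM := Real.log (max (∑ ω, w ω) 1)
    have h1 : Real.log Z ≤ -(1 - Am) * D + Ap * LT := by linarith
    have h2 : -(1 - Am) * D ≤ (1 - Am) * LM := by
      nlinarith [mul_nonneg (sub_nonneg.2 hneg) (by linarith : 0 ≤ D + LM)]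
    have h3 : Ap * LT ≤ Ap * LM := mul_le_mul_of_nonneg_left hlogT hAp0
    nlinarith [mul_nonneg hAm0 hlogT0]
  rw [← Real.exp_log hZpos]
  exact Real.exp_le_exp.2 hfin

end Ent

end Pool.Agent.Helper981.KP
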