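import Mathlib
import Pool.Agent.Helper981.KP.Ent

/-!
States are finite lists of quanta `(z, e)`, the quantum carrying mass `2^{-e}` at `z`.
`mS r s S u` is the mass of the quanta whose `S`-label is `u`.
-/

set_option autoImplicit false
open Finset

namespace Pool.Agent.Helper981.KP

variable {J : Type*}

/-- mass of the quanta of `s` with `S`-label `u` -/
noncomputable def mS (r : J → ℕ → ℕ) (s : List (ℕ × ℕ)) (S : J) (u : ℕ) : ℝ :=
  (s.map fun q => if r S q.1 = u then (1/2 : ℝ)^q.2 else 0).sum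

/-- total mass -/
noncomputable def tot (s : List (ℕ × ℕ)) : ℝ := (s.map fun q => (1/2 : ℝ)^q.2).sum

/-- `psi s z = ∏_S (mass of the S-class of z)^{a_S}` -/
noncomputable def psi (r : J → ℕ → ℕ) (JJ : Finset J) (a : J → ℝ) (s : List (ℕ × ℕ)) (z : ℕ) : ℝ :=
  Real.exp (∑ S ∈ JJ, a S * Real.log (mS r s S (r S z)))

/-- the potential -/
noncomputable def Psi (r : J → ℕ → ℕ) (JJ : Finset J) (a : J → ℝ) (s : List (ℕ × ℕ)) : ℝ :=
  (s.map fun q => (1/2 : ℝ)^q.2 * psi r JJ a s q.1).sum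

lemma half_pow_pos (e : ℕ) : (0:ℝ) < (1/2 : ℝ)^e := by positivity

lemma half_pow_le_one (e : ℕ) : (1/2 : ℝ)^e ≤ 1 := pow_le_one₀ (by norm_num) (by norm_num)

lemma mS_cons (r : J → ℕ → ℕ) (q : ℕ × ℕ) (s : List (ℕ × ℕ)) (S : J) (u : ℕ) :
    mS r (q :: s) S u = (if r S q.1 = u then (1/2 : ℝ)^q.2 else 0) + mS r s S u := by
  simp [mS]

lemma tot_cons (q : ℕ × ℕ) (s : List (ℕ × ℕ)) : tot (q :: s) = (1/2 : ℝ)^q.2 + tot s := by
  simp [tot]

lemma mS_nonneg (r : J → ℕ → ℕ) (s : List (ℕ × ℕ)) (S : J) (u : ℕ) : 0 ≤ mS r s S u := by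
  unfold mS
  apply List.sum_nonneg
  intro x hx
  simp only [List.mem_map] at hx
  obtain ⟨q, _, rfl⟩ := hx
  split_ifs <;> positivity

lemma tot_nonneg (s : List (ℕ × ℕ)) : 0 ≤ tot s := by
  unfold tot
  apply List.sum_nonneg
  intro x hx
  simp only [List.mem_map] at hx
  obtain ⟨q, _, rfl⟩ := hx
  positivity

lemma mS_le_tot (r : J → ℕ → ℕ) (s : List (ℕ × ℕ)) (S : J) (u : ℕ) : mS r s S u ≤ tot s := by
  unfold mS tot
  apply List.sum_le_sum
  intro q _
  split_ifs
  · exact le_rfl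
  · positivity

lemma le_mS_of_mem (r : J → ℕ → ℕ) (s : List (ℕ × ℕ)) (S : J) (q : ℕ × ℕ) (hq : q ∈ s) :
    (1/2 : ℝ)^q.2 ≤ mS r s S (r S q.1) := by
  unfold mS
  have h : (if r S q.1 = r S q.1 then (1/2 : ℝ)^q.2 else 0) ∈
      (s.map fun q' => if r S q'.1 = r S q.1 then (1/2 : ℝ)^q'.2 else 0) :=
    List.mem_map.2 ⟨q, hq, rfl⟩
  have h2 := List.single_le_sum (l := (s.map fun q' => if r S q'.1 = r S q.1 then (1/2 : ℝ)^q'.2 else 0))
    (by
      intro x hx
      simp only [List.mem_map] at hx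
      obtain ⟨q, _, rfl⟩ := hx
      split_ifs <;> positivity) _ h
  simpa using h2

lemma mS_pos_of_mem (r : J → ℕ → ℕ) (s : List (ℕ × ℕ)) (S : J) (q : ℕ × ℕ) (hq : q ∈ s) :
    0 < mS r s S (r S q.1) := lt_of_lt_of_le (half_pow_pos q.2) (le_mS_of_mem r s S q hq)

lemma list_sum_finset_sum {α : Type*} (l : List α) (JJ : Finset J) (F : J → α → ℝ) :
    (l.map fun q => ∑ S ∈ JJ, F S q).sum = ∑ S ∈ JJ, (l.map (F S)).sum := by
  induction l with
  | nil => simp
  | cons x l ih => simp [ih, Finset.sum_add_distrib]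

lemma list_sum_mul_left {α : Type*} (l : List α) (c : ℝ) (F : α → ℝ) :
    (l.map fun q => c * F q).sum = c * (l.map F).sum := by
  induction l with
  | nil => simp
  | cons x l ih => simp [ih, mul_add]

lemma list_sum_sub {α : Type*} (l : List α) (F G : α → ℝ) :
    (l.map fun q => F q - G q).sum = (l.map F).sum - (l.map G).sum := by
  induction l with
  | nil => simp
  | cons x l ih => simp [ih]; ring

/-- change of `psi` at an old point when a quantum is added -/
lemma psi_cons_ge (r : J → ℕ → ℕ) (JJ : Finset J) (a : J → ℝ) (s : List (ℕ × ℕ)) (q q' : ℕ × ℕ)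
    (hq' : q' ∈ s) :
    psi r JJ a s q'.1 * (1 - ∑ S ∈ JJ, max (-a S) 0 *
      (if r S q'.1 = r S q.1 then (1/2 : ℝ)^q.2 / mS r s S (r S q.1) else 0)) ≤
    psi r JJ a (q :: s) q'.1 := by
  unfold psi
  set δ := ∑ S ∈ JJ, max (-a S) 0 *
      (if r S q'.1 = r S q.1 then (1/2 : ℝ)^q.2 / mS r s S (r S q.1) else 0) with hδ
  have hexp : (∑ S ∈ JJ, a S * Real.log (mS r s S (r S q'.1))) - δ ≤
      ∑ S ∈ JJ, a S * Real.log (mS r (q :: s) S (r S q'.1)) := by
    rw [hδ, ← Finset.sum_sub_distrib]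
    refine Finset.sum_le_sum fun S _ => ?_
    rw [mS_cons]
    by_cases h : r S q.1 = r S q'.1
    · rw [if_pos h, if_pos h.symm]
      have hM : 0 < mS r s S (r S q'.1) := mS_pos_of_mem r s S q' hq'
      rw [h]
      set M := mS r s S (r S q'.1)
      set p := (1/2 : ℝ)^q.2
      have hp : 0 < p := half_pow_pos _
      have h1 : Real.log M ≤ Real.log (p + M) := Real.log_le_log hM (by linarith)
      have h2 : Real.log (p + M) - Real.log M ≤ p / M := by
        rw [← Real.log_div (by positivity) hM.ne']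
        have := Real.log_le_sub_one_of_pos (show 0 < (p + M) / M by positivity)
        have e : (p + M) / M - 1 = p / M := by field_simp; ring
        linarith
      rcases le_total 0 (a S) with ha | ha
      · have h3 := mul_le_mul_of_nonneg_left h1 ha
        have h4 : 0 ≤ max (-a S) 0 * (p / M) := mul_nonneg (le_max_right _ _) (by positivity)
        linarith
      · rw [max_eq_left (by linarith)]
        nlinarith [mul_le_mul_of_nonneg_left h2 (neg_nonneg.2 ha)]
    · rw [if_neg h, if_neg (fun h' => h h'.symm)]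
      simp
  calc Real.exp (∑ S ∈ JJ, a S * Real.log (mS r s S (r S q'.1))) * (1 - δ)
      ≤ Real.exp (∑ S ∈ JJ, a S * Real.log (mS r s S (r S q'.1))) * Real.exp (-δ) := by
        refine mul_le_mul_of_nonneg_left ?_ (Real.exp_pos _).le
        have := Real.add_one_le_exp (-δ)
        linarith
    _ = Real.exp ((∑ S ∈ JJ, a S * Real.log (mS r s S (r S q'.1))) - δ) := by
        rw [← Real.exp_add]; ring_nf
    _ ≤ _ := Real.exp_le_exp.2 hexp

/-- increment inequality for the potential -/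
lemma Psi_cons_ge (r : J → ℕ → ℕ) (JJ : Finset J) (a : J → ℝ) (s : List (ℕ × ℕ)) (q : ℕ × ℕ)
    (B : ℝ) (hB : 0 ≤ B) (hψ : ∀ q' ∈ s, psi r JJ a s q'.1 ≤ B) :
    Psi r JJ a s - (∑ S ∈ JJ, max (-a S) 0) * (1/2 : ℝ)^q.2 * B
      + (1/2 : ℝ)^q.2 * psi r JJ a (q :: s) q.1 ≤ Psi r JJ a (q :: s) := by
  have h1 : Psi r JJ a (q :: s) = (1/2 : ℝ)^q.2 * psi r JJ a (q :: s) q.1 +
      (s.map fun q' => (1/2 : ℝ)^q'.2 * psi r JJ a (q :: s) q'.1).sum := by
    simp [Psi]
  set p := (1/2 : ℝ)^q.2 with hp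
  have hp0 : 0 < p := half_pow_pos _
  have h2 : (s.map fun q' => (1/2 : ℝ)^q'.2 * (psi r JJ a s q'.1 * (1 - ∑ S ∈ JJ, max (-a S) 0 *
      (if r S q'.1 = r S q.1 then p / mS r s S (r S q.1) else 0)))).sum ≤
      (s.map fun q' => (1/2 : ℝ)^q'.2 * psi r JJ a (q :: s) q'.1).sum := by
    apply List.sum_le_sum
    intro q' hq'
    exact mul_le_mul_of_nonneg_left (psi_cons_ge r JJ a s q q' hq') (half_pow_pos _).le
  have h3 : (s.map fun q' => (1/2 : ℝ)^q'.2 * (psi r JJ a s q'.1 * (1 - ∑ S ∈ JJ, max (-a S) 0 *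
      (if r S q'.1 = r S q.1 then p / mS r s S (r S q.1) else 0)))).sum =
      Psi r JJ a s - ∑ S ∈ JJ, max (-a S) 0 * (s.map fun q' => (1/2 : ℝ)^q'.2 * (psi r JJ a s q'.1 *
      (if r S q'.1 = r S q.1 then p / mS r s S (r S q.1) else 0))).sum := by
    have e1 : ∀ q' : ℕ × ℕ, (1/2 : ℝ)^q'.2 * (psi r JJ a s q'.1 * (1 - ∑ S ∈ JJ, max (-a S) 0 *
      (if r S q'.1 = r S q.1 then p / mS r s S (r S q.1) else 0))) =
      (1/2 : ℝ)^q'.2 * psi r JJ a s q'.1 - ∑ S ∈ JJ, max (-a S) 0 * ((1/2 : ℝ)^q'.2 * (psi r JJ a s q'.1 *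
      (if r S q'.1 = r S q.1 then p / mS r s S (r S q.1) else 0))) := by
      intro q'
      rw [mul_sub, mul_one, mul_sub, Finset.mul_sum, Finset.mul_sum]
      congr 1
      refine Finset.sum_congr rfl fun S _ => ?_
      ring
    simp only [e1]
    rw [list_sum_sub, list_sum_finset_sum]
    unfold Psi
    congr 1
    refine Finset.sum_congr rfl fun S _ => ?_
    rw [list_sum_mul_left]
  have h4 : ∀ S, (s.map fun q' => (1/2 : ℝ)^q'.2 * (psi r JJ a s q'.1 *
      (if r S q'.1 = r S q.1 then p / mS r s S (r S q.1) else 0))).sum ≤ p * B := by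
    intro S
    have e2 : (s.map fun q' => (1/2 : ℝ)^q'.2 * (psi r JJ a s q'.1 *
      (if r S q'.1 = r S q.1 then p / mS r s S (r S q.1) else 0))).sum ≤
      (s.map fun q' => (B * (p / mS r s S (r S q.1))) *
        (if r S q'.1 = r S q.1 then (1/2 : ℝ)^q'.2 else 0)).sum := by
      apply List.sum_le_sum
      intro q' hq'
      by_cases h : r S q'.1 = r S q.1
      · rw [if_pos h, if_pos h]
        have h5 : 0 ≤ p / mS r s S (r S q.1) := div_nonneg hp0.le (mS_nonneg _ _ _ _)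
        have h6 := mul_le_mul_of_nonneg_right (hψ q' hq') h5
        have h7 := mul_le_mul_of_nonneg_left h6 (half_pow_pos q'.2).le
        linarith
      · rw [if_neg h, if_neg h]; simp
    rw [list_sum_mul_left] at e2
    have e3 : (s.map fun q' => (if r S q'.1 = r S q.1 then (1/2 : ℝ)^q'.2 else 0)).sum
      = mS r s S (r S q.1) := rfl
    rw [e3] at e2
    refine e2.trans ?_
    by_cases h0 : mS r s S (r S q.1) = 0
    · rw [h0]; simp; positivity
    · rw [mul_assoc, div_mul_cancel₀ _ h0]; linarith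
  have h5 : ∑ S ∈ JJ, max (-a S) 0 * (s.map fun q' => (1/2 : ℝ)^q'.2 * (psi r JJ a s q'.1 *
      (if r S q'.1 = r S q.1 then p / mS r s S (r S q.1) else 0))).sum ≤
      (∑ S ∈ JJ, max (-a S) 0) * (p * B) := by
    rw [Finset.sum_mul]
    exact Finset.sum_le_sum fun S _ => mul_le_mul_of_nonneg_left (h4 S) (le_max_right _ _)
  rw [h1]
  linarith

/-- correction: repeating a quantum at a maximal point raises the potential -/
lemma Psi_correct (r : J → ℕ → ℕ) (JJ : Finset J) (a : J → ℝ) (s : List (ℕ × ℕ)) (q : ℕ × ℕ)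
    (hq : q ∈ s) (hmax : ∀ q' ∈ s, psi r JJ a s q'.1 ≤ psi r JJ a s q.1)
    (hA : ∑ S ∈ JJ, max (-a S) 0 ≤ 1/4) :
    Psi r JJ a s + (1/2 : ℝ)^q.2 * psi r JJ a s q.1 / 2 ≤ Psi r JJ a (q :: s) := by
  have h := Psi_cons_ge r JJ a s q (psi r JJ a s q.1) (Real.exp_pos _).le hmax
  set B := psi r JJ a s q.1 with hB
  have hBpos : 0 < B := Real.exp_pos _
  set p := (1/2 : ℝ)^q.2 with hp
  have hp0 : 0 < p := half_pow_pos _
  have h2 := psi_cons_ge r JJ a s q q hq
  have h3 : ∑ S ∈ JJ, max (-a S) 0 *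
      (if r S q.1 = r S q.1 then p / mS r s S (r S q.1) else 0) ≤ 1/4 := by
    refine le_trans (Finset.sum_le_sum fun S _ => ?_) hA
    rw [if_pos rfl]
    refine mul_le_of_le_one_right (le_max_right _ _) ?_
    rw [div_le_one (mS_pos_of_mem r s S q hq)]
    exact le_mS_of_mem r s S q hq
  have h4 : B * (3/4) ≤ psi r JJ a (q :: s) q.1 := by
    refine le_trans ?_ h2
    refine mul_le_mul_of_nonneg_left ?_ hBpos.le
    linarith
  have h5 : (∑ S ∈ JJ, max (-a S) 0) * p * B ≤ 1/4 * p * B := by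
    have := mul_le_mul_of_nonneg_right hA (mul_pos hp0 hBpos).le
    linarith
  have h6 : p * (B * (3/4)) ≤ p * psi r JJ a (q :: s) q.1 := mul_le_mul_of_nonneg_left h4 hp0.le
  nlinarith

/-- bridge: list state to finite index set -/
lemma list_sum_eq_fin {α : Type*} (l : List α) (F : α → ℝ) :
    (l.map F).sum = ∑ i : Fin l.length, F (l.get i) := by
  rw [← List.sum_ofFn]
  congr 1
  apply List.ext_getElem
  · simp
  · intro i h1 h2
    simp

/-- the static bound for lists -/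
theorem Psi_le (r : J → ℕ → ℕ) (JJ : Finset J) (a : J → ℝ) (s : List (ℕ × ℕ)) (hs : s ≠ [])
    (hvalid : ∀ (N : ℕ) (z : Fin N → ℕ) (Q : Fin N → ℝ), (∀ i, 0 < Q i) → ∑ i, Q i = 1 →
      0 ≤ ∑ S ∈ JJ, a S * Hf Q (fun i => r S (z i)))
    (hneg : ∑ S ∈ JJ, max (-a S) 0 ≤ 1) :
    Psi r JJ a s ≤ Real.exp ((1 + ∑ S ∈ JJ, max (a S) 0) * Real.log (max (tot s) 1)) := by
  have hlen : 0 < s.length := List.length_pos_iff.2 hs
  haveI : Nonempty (Fin s.length) := ⟨⟨0, hlen⟩⟩
  have hg := gibbs JJ (fun S (i : Fin s.length) => r S (s.get i).1) a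
    (fun i : Fin s.length => (1/2 : ℝ)^(s.get i).2) (fun i => half_pow_pos _)
    (fun Q hQ hQ1 => hvalid s.length (fun i => (s.get i).1) Q hQ hQ1) hneg
  have e1 : tot s = ∑ i : Fin s.length, (1/2 : ℝ)^(s.get i).2 := by
    unfold tot; rw [list_sum_eq_fin]
  have e2 : ∀ (i : Fin s.length) (S : J),
      mg (fun i : Fin s.length => (1/2 : ℝ)^(s.get i).2) (fun i => r S (s.get i).1) i
        = mS r s S (r S (s.get i).1) := by
    intro i S
    unfold mS mg
    rw [list_sum_eq_fin]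
  have e3 : Psi r JJ a s = ∑ i : Fin s.length, (1/2 : ℝ)^(s.get i).2 *
      Real.exp (∑ S ∈ JJ, a S * Real.log (mg (fun i : Fin s.length => (1/2 : ℝ)^(s.get i).2)
        (fun i => r S (s.get i).1) i)) := by
    unfold Psi
    rw [list_sum_eq_fin]
    refine Finset.sum_congr rfl fun i _ => ?_
    simp only [e2]
    rfl
  rw [e3, e1]
  exact hg

end Pool.Agent.Helper981.KP
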