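import Mathlib
import Pool.Agent.Helper981.KP.Dyn
import Pool.Agent.Helper981.KP.Comp

/-!
Analysis of the run.
-/

set_option autoImplicit false
open Finset

namespace Pool.Agent.Helper981.KP

variable (n : ℕ) (lp ln : Finset (Fin n) → ℕ)

lemma le_Ex {s : List (ℕ × ℕ)} {q : ℕ × ℕ} (hq : q ∈ s) : q.2 ≤ Ex s := by
  unfold Ex
  exact List.single_le_sum (by simp) _ (List.mem_map.2 ⟨q, hq, rfl⟩)

lemma Wt_cast (S : Finset (Fin n)) (s : List (ℕ × ℕ)) (u : ℕ) :
    (Wt n S s u : ℝ) = mS (lab n) s S u * 2^(Ex s) := by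
  have key : ∀ (E : ℕ) (l : List (ℕ × ℕ)), (∀ q ∈ l, q.2 ≤ E) →
      (((l.map fun q => if lab n S q.1 = u then 2^(E - q.2) else 0).sum : ℕ) : ℝ) =
      (l.map fun q => if lab n S q.1 = u then (1/2 : ℝ)^q.2 else 0).sum * 2^E := by
    intro E l
    induction l with
    | nil => intro _; simp
    | cons q l ih =>
      intro h
      have ih' := ih fun q' hq' => h q' (List.mem_cons_of_mem _ hq')
      have hq := h q List.mem_cons_self
      simp only [List.map_cons, List.sum_cons, Nat.cast_add, ih', add_mul]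
      congr 1
      split_ifs with hl
      · push_cast
        have : (2:ℝ)^E = 2^(E - q.2) * 2^q.2 := by rw [← pow_add, Nat.sub_add_cancel hq]
        rw [this, mul_comm ((2:ℝ)^(E - q.2)), ← mul_assoc, ← mul_pow]
        norm_num
      · simp
  unfold Wt mS
  exact key (Ex s) s fun q hq => le_Ex hq

/-- the log-ratio at `z` -/
noncomputable def kap (s : List (ℕ × ℕ)) (z : ℕ) : ℝ :=
  ∑ S : Finset (Fin n), ((lp S : ℝ) - ln S) * Real.log (mS (lab n) s S (lab n S z))

lemma Wt_pos {s : List (ℕ × ℕ)} {q : ℕ × ℕ} (hq : q ∈ s) (S : Finset (Fin n)) :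
    0 < Wt n S s (lab n S q.1) := by
  have h1 : (0:ℝ) < Wt n S s (lab n S q.1) := by
    rw [Wt_cast]
    exact mul_pos (mS_pos_of_mem (lab n) s S q hq) (by positivity)
  exact_mod_cast h1

lemma num_pos {s : List (ℕ × ℕ)} {q : ℕ × ℕ} (hq : q ∈ s) : 0 < num n lp ln s q.1 := by
  unfold num
  refine Nat.mul_pos (Finset.prod_pos fun S _ => pow_pos (Wt_pos n hq S) _) (by positivity)

lemma den_pos {s : List (ℕ × ℕ)} {q : ℕ × ℕ} (hq : q ∈ s) : 0 < den n lp ln s q.1 := by
  unfold den
  refine Nat.mul_pos (Finset.prod_pos fun S _ => pow_pos (Wt_pos n hq S) _) (by positivity)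

lemma log_num {s : List (ℕ × ℕ)} {q : ℕ × ℕ} (hq : q ∈ s) :
    Real.log (num n lp ln s q.1) = (∑ S, (lp S : ℝ) * Real.log (mS (lab n) s S (lab n S q.1)))
      + Ex s * Real.log 2 * ((∑ S, (lp S : ℝ)) + ∑ S, (ln S : ℝ)) := by
  have hW : ∀ S, (Wt n S s (lab n S q.1) : ℝ) ≠ 0 := fun S => by
    exact_mod_cast (Wt_pos n hq S).ne'
  unfold num
  push_cast
  rw [Real.log_mul (Finset.prod_ne_zero_iff.2 fun S _ => pow_ne_zero _ (hW S)) (by positivity),
    Real.log_prod (fun S _ => pow_ne_zero _ (hW S)), Real.log_pow]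
  have h1 : ∀ S : Finset (Fin n), Real.log ((Wt n S s (lab n S q.1) : ℝ)^(lp S)) =
      (lp S : ℝ) * Real.log (mS (lab n) s S (lab n S q.1)) + (lp S : ℝ) * (Ex s * Real.log 2) := by
    intro S
    rw [Real.log_pow, Wt_cast, Real.log_mul (mS_pos_of_mem (lab n) s S q hq).ne' (by positivity),
      Real.log_pow]
    ring
  rw [Finset.sum_congr rfl fun S _ => h1 S, Finset.sum_add_distrib, ← Finset.sum_mul]
  push_cast
  ring

lemma log_den {s : List (ℕ × ℕ)} {q : ℕ × ℕ} (hq : q ∈ s) :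
    Real.log (den n lp ln s q.1) = (∑ S, (ln S : ℝ) * Real.log (mS (lab n) s S (lab n S q.1)))
      + Ex s * Real.log 2 * ((∑ S, (lp S : ℝ)) + ∑ S, (ln S : ℝ)) := by
  have : den n lp ln s q.1 = num n ln lp s q.1 := rfl
  rw [this, log_num n ln lp hq]
  ring

lemma kap_eq {s : List (ℕ × ℕ)} {q : ℕ × ℕ} (hq : q ∈ s) :
    kap n lp ln s q.1 = Real.log (num n lp ln s q.1) - Real.log (den n lp ln s q.1) := by
  rw [log_num n lp ln hq, log_den n lp ln hq]
  unfold kap
  simp only [sub_mul, Finset.sum_sub_distrib]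
  ring

lemma cmp_iff {s : List (ℕ × ℕ)} {b q : ℕ × ℕ} (hb : b ∈ s) (hq : q ∈ s) :
    num n lp ln s b.1 * den n lp ln s q.1 < num n lp ln s q.1 * den n lp ln s b.1 ↔
      kap n lp ln s b.1 < kap n lp ln s q.1 := by
  have h1 : (0:ℝ) < num n lp ln s b.1 := by exact_mod_cast num_pos n lp ln hb
  have h2 : (0:ℝ) < den n lp ln s b.1 := by exact_mod_cast den_pos n lp ln hb
  have h3 : (0:ℝ) < num n lp ln s q.1 := by exact_mod_cast num_pos n lp ln hq
  have h4 : (0:ℝ) < den n lp ln s q.1 := by exact_mod_cast den_pos n lp ln hq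
  rw [kap_eq n lp ln hb, kap_eq n lp ln hq, sub_lt_sub_iff, ← Real.log_mul h1.ne' h4.ne',
    ← Real.log_mul h3.ne' h2.ne', Real.log_lt_log_iff (by positivity) (by positivity)]
  constructor
  · intro h; exact_mod_cast h
  · intro h; exact_mod_cast h

lemma viol_iff {s : List (ℕ × ℕ)} {q : ℕ × ℕ} (hq : q ∈ s) (μ : ℕ) :
    2^μ * den n lp ln s q.1 < num n lp ln s q.1 ↔ μ * Real.log 2 < kap n lp ln s q.1 := by
  have h3 : (0:ℝ) < num n lp ln s q.1 := by exact_mod_cast num_pos n lp ln hq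
  have h4 : (0:ℝ) < den n lp ln s q.1 := by exact_mod_cast den_pos n lp ln hq
  rw [kap_eq n lp ln hq, lt_sub_iff_add_lt, ← Real.log_pow, ← Real.log_mul (by positivity) h4.ne',
    Real.log_lt_log_iff (by positivity) h3]
  constructor
  · intro h; exact_mod_cast h
  · intro h; exact_mod_cast h

lemma foldl_max (s : List (ℕ × ℕ)) : ∀ (l : List (ℕ × ℕ)) (b : ℕ × ℕ), b ∈ s → (∀ q ∈ l, q ∈ s) →
    (l.foldl (fun b q => if num n lp ln s b.1 * den n lp ln s q.1 <
      num n lp ln s q.1 * den n lp ln s b.1 then q else b) b) ∈ s ∧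
    kap n lp ln s b.1 ≤ kap n lp ln s (l.foldl (fun b q => if num n lp ln s b.1 * den n lp ln s q.1 <
      num n lp ln s q.1 * den n lp ln s b.1 then q else b) b).1 ∧
    ∀ q ∈ l, kap n lp ln s q.1 ≤ kap n lp ln s (l.foldl (fun b q => if num n lp ln s b.1 *
      den n lp ln s q.1 < num n lp ln s q.1 * den n lp ln s b.1 then q else b) b).1 := by
  intro l
  induction l with
  | nil => intro b hb _; simpa using hb
  | cons x l ih =>
    intro b hb hl
    have hx : x ∈ s := hl x List.mem_cons_self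
    have hl' : ∀ q ∈ l, q ∈ s := fun q hq => hl q (List.mem_cons_of_mem _ hq)
    simp only [List.foldl_cons]
    by_cases hc : num n lp ln s b.1 * den n lp ln s x.1 < num n lp ln s x.1 * den n lp ln s b.1
    · rw [if_pos hc]
      obtain ⟨h1, h2, h3⟩ := ih x hx hl'
      have hlt := (cmp_iff n lp ln hb hx).1 hc
      refine ⟨h1, hlt.le.trans h2, ?_⟩
      intro q hq
      rcases List.mem_cons.1 hq with rfl | hq
      · exact h2
      · exact h3 q hq
    · rw [if_neg hc]
      obtain ⟨h1, h2, h3⟩ := ih b hb hl'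
      have hlt := not_lt.1 (fun h => hc ((cmp_iff n lp ln hb hx).2 h))
      refine ⟨h1, h2, ?_⟩
      intro q hq
      rcases List.mem_cons.1 hq with rfl | hq
      · exact hlt.trans h2
      · exact h3 q hq

lemma pick_spec {s : List (ℕ × ℕ)} (hs : s ≠ []) :
    pick n lp ln s ∈ s ∧ ∀ q ∈ s, kap n lp ln s q.1 ≤ kap n lp ln s (pick n lp ln s).1 := by
  have hh : s.headI ∈ s := by
    cases s with
    | nil => exact absurd rfl hs
    | cons x l => simp
  obtain ⟨h1, _, h3⟩ := foldl_max n lp ln s s s.headI hh (fun q hq => hq)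
  exact ⟨h1, h3⟩

/-! ### the inputs -/

section inputs
variable {f : ℕ → ℕ → ℕ} {K : ℕ → ℕ}

lemma fmin_zero (f : ℕ → ℕ → ℕ) (z : ℕ) : fmin f z 0 = f z 0 := rfl

lemma fmin_succ (f : ℕ → ℕ → ℕ) (z u : ℕ) : fmin f z (u+1) = min (fmin f z u) (f z (u+1)) := rfl

lemma fmin_le (f : ℕ → ℕ → ℕ) (z u : ℕ) : fmin f z u ≤ f z u := by
  cases u with
  | zero => exact le_rfl
  | succ u => rw [fmin_succ]; exact min_le_right _ _

lemma le_fmin (hK : ∀ x t, K x ≤ f x t) (z u : ℕ) : K z ≤ fmin f z u := by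
  induction u with
  | zero => exact hK z 0
  | succ u ih => rw [fmin_succ]; exact le_min ih (hK z _)

/-- the mass of the input `(z,u)` -/
noncomputable def rmass (f : ℕ → ℕ → ℕ) (z u : ℕ) : ℝ :=
  if u = 0 ∨ fmin f z u < fmin f z (u - 1) then (1/2 : ℝ)^(fmin f z u) else 0

lemma rmass_nonneg (f : ℕ → ℕ → ℕ) (z u : ℕ) : 0 ≤ rmass f z u := by
  unfold rmass; split_ifs <;> positivity

lemma tot_inp (f : ℕ → ℕ → ℕ) (j : ℕ) : tot (inp f j) = rmass f j.unpair.1 j.unpair.2 := by
  unfold inp rmass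
  split_ifs <;> simp [tot]

lemma sum_rmass (f : ℕ → ℕ → ℕ) (z N : ℕ) :
    ∑ u ∈ Finset.range (N+1), rmass f z u ≤ 2 * (1/2 : ℝ)^(fmin f z N) := by
  induction N with
  | zero =>
    have hp : (0:ℝ) < (1/2 : ℝ)^(fmin f z 0) := half_pow_pos _
    have : rmass f z 0 = (1/2 : ℝ)^(fmin f z 0) := by simp [rmass]
    simp only [zero_add, Finset.sum_range_one]
    linarith
  | succ N ih =>
    rw [Finset.sum_range_succ]
    by_cases h : fmin f z (N+1) < fmin f z N
    · have e : rmass f z (N+1) = (1/2 : ℝ)^(fmin f z (N+1)) := by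
        unfold rmass; rw [if_pos (Or.inr (by simpa using h))]
      rw [e]
      have h2 : (1/2 : ℝ)^(fmin f z N) ≤ (1/2 : ℝ)^(fmin f z (N+1) + 1) :=
        pow_le_pow_of_le_one (by norm_num) (by norm_num) h
      rw [pow_succ] at h2
      linarith
    · have e : rmass f z (N+1) = 0 := by
        unfold rmass
        rw [if_neg]
        rintro (h1 | h1)
        · omega
        · exact h (by simpa using h1)
      have e2 : fmin f z (N+1) = fmin f z N := by
        apply le_antisymm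
        · rw [fmin_succ]; exact min_le_left _ _
        · exact not_lt.1 h
      rw [e, e2]
      linarith

lemma sum_inp_le (hK : ∀ x t, K x ≤ f x t) (hsum : ∀ N, ∑ z ∈ Finset.range N, (1/2 : ℝ)^(K z) ≤ 1)
    (j : ℕ) : ∑ i ∈ Finset.range j, tot (inp f i) ≤ 2 := by
  have h1 : ∑ i ∈ Finset.range j, tot (inp f i) ≤
      ∑ p ∈ Finset.range j ×ˢ Finset.range j, rmass f p.1 p.2 := by
    simp only [tot_inp]
    have hinj : Set.InjOn (fun i : ℕ => i.unpair) (Finset.range j : Set ℕ) := by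
      intro a _ b _ h
      have := congrArg (fun p : ℕ × ℕ => Nat.pair p.1 p.2) h
      simpa using this
    have e := Finset.sum_image (s := Finset.range j) (g := fun i : ℕ => i.unpair)
      (f := fun p : ℕ × ℕ => rmass f p.1 p.2) hinj
    rw [← e]
    refine Finset.sum_le_sum_of_subset_of_nonneg ?_ fun p _ _ => rmass_nonneg f _ _
    intro p hp
    rw [Finset.mem_image] at hp
    obtain ⟨i, hi, rfl⟩ := hp
    rw [Finset.mem_range] at hi
    rw [Finset.mem_product, Finset.mem_range, Finset.mem_range]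
    exact ⟨lt_of_le_of_lt (Nat.unpair_left_le i) hi, lt_of_le_of_lt (Nat.unpair_right_le i) hi⟩
  refine h1.trans ?_
  rw [Finset.sum_product]
  have h2 : ∀ z, ∑ u ∈ Finset.range j, rmass f z u ≤ 2 * (1/2 : ℝ)^(K z) := by
    intro z
    cases j with
    | zero => simp
    | succ N =>
      refine (sum_rmass f z N).trans ?_
      have := pow_le_pow_of_le_one (by norm_num : (0:ℝ) ≤ 1/2) (by norm_num) (le_fmin hK z N)
      linarith
  calc ∑ z ∈ Finset.range j, ∑ u ∈ Finset.range j, rmass f z u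
      ≤ ∑ z ∈ Finset.range j, 2 * (1/2 : ℝ)^(K z) := Finset.sum_le_sum fun z _ => h2 z
    _ = 2 * ∑ z ∈ Finset.range j, (1/2 : ℝ)^(K z) := by rw [Finset.mul_sum]
    _ ≤ 2 := by linarith [hsum j]

lemma exists_input (hK : ∀ x t, K x ≤ f x t) (hK2 : ∀ x, ∃ t, f x t = K x) (z : ℕ) :
    ∃ i, (z, K z) ∈ inp f i := by
  have hex : ∃ u, fmin f z u = K z := by
    obtain ⟨u, hu⟩ := hK2 z
    refine ⟨u, le_antisymm ?_ (le_fmin hK z u)⟩
    rw [← hu]; exact fmin_le f z u
  classical
  set u := Nat.find hex with hu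
  have h1 : fmin f z u = K z := Nat.find_spec hex
  refine ⟨Nat.pair z u, ?_⟩
  unfold inp
  simp only [Nat.unpair_pair]
  rw [if_pos]
  · rw [h1]; simp
  · rcases Nat.eq_zero_or_pos u with h0 | h0
    · exact Or.inl h0
    · right
      rw [h1]
      refine lt_of_le_of_ne (le_fmin hK z _) fun h => ?_
      exact Nat.find_min hex (m := u - 1) (by omega) h.symm

end inputs

/-! ### the run -/

section runs
variable (f : ℕ → ℕ → ℕ) (μ : ℕ)

lemma run_zero : run n lp ln μ f 0 = (0, [(0,0)]) := rfl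
lemma run_succ (t : ℕ) : run n lp ln μ f (t+1) = step n lp ln μ f (run n lp ln μ f t) := rfl

/-- the total input mass up to input number `j` -/
noncomputable def Tp (j : ℕ) : ℝ := 1 + ∑ i ∈ Finset.range j, tot (inp f i)

/-- the exponents -/
noncomputable def cc : ℝ := 1 / (4 * ((∑ S, (ln S : ℝ)) + 1))

noncomputable def aa (S : Finset (Fin n)) : ℝ := cc n ln * ((lp S : ℝ) - ln S)

lemma cc_pos : 0 < cc n ln := by
  unfold cc
  have : (0:ℝ) ≤ ∑ S, (ln S : ℝ) := Finset.sum_nonneg fun S _ => Nat.cast_nonneg _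
  positivity

lemma aa_neg : ∑ S, max (-aa n lp ln S) 0 ≤ 1/4 := by
  have hc := cc_pos n ln
  have h0 : (0:ℝ) ≤ ∑ S, (ln S : ℝ) := Finset.sum_nonneg fun S _ => Nat.cast_nonneg _
  calc ∑ S, max (-aa n lp ln S) 0 ≤ ∑ S, cc n ln * (ln S : ℝ) := by
        refine Finset.sum_le_sum fun S _ => ?_
        refine max_le ?_ (mul_nonneg hc.le (Nat.cast_nonneg _))
        unfold aa
        have : (0:ℝ) ≤ cc n ln * (lp S : ℝ) := mul_nonneg hc.le (Nat.cast_nonneg _)
        linarith
    _ = cc n ln * ∑ S, (ln S : ℝ) := by rw [Finset.mul_sum]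
    _ ≤ 1/4 := by
        unfold cc
        rw [div_mul_eq_mul_div, one_mul, div_le_div_iff₀ (by positivity) (by norm_num)]
        linarith

lemma psi_eq (s : List (ℕ × ℕ)) (z : ℕ) :
    psi (lab n) Finset.univ (aa n lp ln) s z = Real.exp (cc n ln * kap n lp ln s z) := by
  unfold psi kap aa
  rw [Finset.mul_sum]
  congr 1
  refine Finset.sum_congr rfl fun S _ => ?_
  ring

/-- threshold for `psi` -/
noncomputable def Th : ℝ := Real.exp (cc n ln * (μ * Real.log 2))

/-- bound for the potential when the mass is at most 6 -/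
noncomputable def BB : ℝ := Real.exp ((1 + ∑ S, max (aa n lp ln S) 0) * Real.log 6)

/-- validity in index form -/
def Valid : Prop := ∀ (N : ℕ) (z : Fin N → ℕ) (Q : Fin N → ℝ), (∀ i, 0 < Q i) → ∑ i, Q i = 1 →
      0 ≤ ∑ S, ((lp S : ℝ) - ln S) * Hf Q (fun i => lab n S (z i))

lemma Psi_bound (hv : Valid n lp ln) (s : List (ℕ × ℕ)) (hs : s ≠ []) (ht : tot s ≤ 6) :
    Psi (lab n) Finset.univ (aa n lp ln) s ≤ BB n lp ln := by
  have h := Psi_le (lab n) Finset.univ (aa n lp ln) s hs
    (by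
      intro N z Q hQ hQ1
      have := hv N z Q hQ hQ1
      have e : ∑ S, aa n lp ln S * Hf Q (fun i => lab n S (z i)) =
        cc n ln * ∑ S, ((lp S : ℝ) - ln S) * Hf Q (fun i => lab n S (z i)) := by
        rw [Finset.mul_sum]
        refine Finset.sum_congr rfl fun S _ => ?_
        unfold aa; ring
      rw [e]
      exact mul_nonneg (cc_pos n ln).le this)
    (by linarith [aa_neg n lp ln])
  refine h.trans ?_
  unfold BB
  apply Real.exp_le_exp.2
  apply mul_le_mul_of_nonneg_left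
  · exact Real.log_le_log (by positivity) (max_le ht (by norm_num))
  · have : 0 ≤ ∑ S, max (aa n lp ln S) 0 := Finset.sum_nonneg fun S _ => le_max_right _ _
    linarith

/-- the invariant -/
structure Inv (σ : ℕ × List (ℕ × ℕ)) : Prop where
  ne : σ.2 ≠ []
  lo : Tp f σ.1 ≤ tot σ.2
  hi : tot σ.2 ≤ Tp f σ.1 + 2
  pot : Th n ln μ * ((tot σ.2 - Tp f σ.1) / 2 - Tp f σ.1 / 4) ≤
    Psi (lab n) Finset.univ (aa n lp ln) σ.2

lemma tot_append (l s : List (ℕ × ℕ)) : tot (l ++ s) = tot l + tot s := by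
  simp [tot]

lemma Tp_succ (j : ℕ) : Tp f (j+1) = Tp f j + tot (inp f j) := by
  unfold Tp; rw [Finset.sum_range_succ]; ring

lemma inp_cases (j : ℕ) : inp f j = [] ∨ ∃ q, inp f j = [q] := by
  unfold inp
  split_ifs
  · exact Or.inr ⟨_, rfl⟩
  · exact Or.inl rfl

lemma Psi_nonneg {J : Type*} (r : J → ℕ → ℕ) (JJ : Finset J) (a : J → ℝ) (s : List (ℕ × ℕ)) :
    0 ≤ Psi r JJ a s := by
  unfold Psi
  apply List.sum_nonneg
  intro x hx
  simp only [List.mem_map] at hx
  obtain ⟨q, _, rfl⟩ := hx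
  exact mul_nonneg (half_pow_pos _).le (Real.exp_pos _).le

variable {K : ℕ → ℕ}

lemma inv_run (hv : Valid n lp ln) (hTp : ∀ j, Tp f j ≤ 3) (hTh : 4 * BB n lp ln < Th n ln μ)
    (t : ℕ) : Inv n lp ln f μ (run n lp ln μ f t) := by
  have hThpos : 0 < Th n ln μ := Real.exp_pos _
  have hTp1 : ∀ j, 1 ≤ Tp f j := by
    intro j
    unfold Tp
    have : 0 ≤ ∑ i ∈ Finset.range j, tot (inp f i) := Finset.sum_nonneg fun i _ => tot_nonneg _
    linarith
  induction t with
  | zero =>
    rw [run_zero]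
    refine ⟨by simp, by simp [Tp, tot], by simp [Tp, tot], ?_⟩
    have h1 : tot [((0:ℕ),(0:ℕ))] = 1 := by simp [tot]
    have h2 : Tp f 0 = 1 := by simp [Tp]
    simp only [h1, h2]
    have := Psi_nonneg (lab n) Finset.univ (aa n lp ln) [((0:ℕ),(0:ℕ))]
    nlinarith
  | succ t ih =>
    rw [run_succ]
    set σ := run n lp ln μ f t with hσ
    obtain ⟨hne, hlo, hhi, hpot⟩ := ih
    obtain ⟨hmem, hmax⟩ := pick_spec n lp ln hne
    set q := pick n lp ln σ.2 with hq
    have hpsimax : ∀ q' ∈ σ.2, psi (lab n) Finset.univ (aa n lp ln) σ.2 q'.1 ≤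
        psi (lab n) Finset.univ (aa n lp ln) σ.2 q.1 := by
      intro q' hq'
      rw [psi_eq, psi_eq]
      exact Real.exp_le_exp.2 (mul_le_mul_of_nonneg_left (hmax q' hq') (cc_pos n ln).le)
    unfold step
    by_cases hviol : 2^μ * den n lp ln σ.2 q.1 < num n lp ln σ.2 q.1
    · rw [if_pos hviol]
      have hk := (viol_iff n lp ln hmem μ).1 hviol
      have hpsi : Th n ln μ ≤ psi (lab n) Finset.univ (aa n lp ln) σ.2 q.1 := by
        rw [psi_eq]
        exact Real.exp_le_exp.2 (mul_le_mul_of_nonneg_left hk.le (cc_pos n ln).le)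
      have hcor := Psi_correct (lab n) Finset.univ (aa n lp ln) σ.2 q hmem hpsimax (aa_neg n lp ln)
      set p := (1/2 : ℝ)^q.2 with hp
      have hp0 : 0 < p := half_pow_pos _
      have hp1 : p ≤ 1 := half_pow_le_one _
      have hpot' : Th n ln μ * ((tot (q :: σ.2) - Tp f σ.1) / 2 - Tp f σ.1 / 4) ≤
          Psi (lab n) Finset.univ (aa n lp ln) (q :: σ.2) := by
        rw [tot_cons]
        have := mul_le_mul_of_nonneg_left hpsi hp0.le
        nlinarith
      refine ⟨by simp, ?_, ?_, hpot'⟩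
      · simp only [tot_cons]; linarith
      · -- contradiction argument
        by_contra hcon
        push Not at hcon
        simp only at hcon
        have htot : tot (q :: σ.2) ≤ 6 := by
          rw [tot_cons]; linarith [hTp σ.1]
        have hB := Psi_bound n lp ln hv (q :: σ.2) (by simp) htot
        have h3 := hTp σ.1
        nlinarith
    · rw [if_neg hviol]
      have hk : kap n lp ln σ.2 q.1 ≤ μ * Real.log 2 :=
        not_lt.1 (fun h => hviol ((viol_iff n lp ln hmem μ).2 h))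
      have hpsi : ∀ q' ∈ σ.2, psi (lab n) Finset.univ (aa n lp ln) σ.2 q'.1 ≤ Th n ln μ := by
        intro q' hq'
        refine (hpsimax q' hq').trans ?_
        rw [psi_eq]
        exact Real.exp_le_exp.2 (mul_le_mul_of_nonneg_left hk (cc_pos n ln).le)
      rcases inp_cases f σ.1 with h0 | ⟨x, hx⟩
      · have e : Tp f (σ.1 + 1) = Tp f σ.1 := by rw [Tp_succ, h0]; simp [tot]
        refine ⟨?_, ?_, ?_, ?_⟩
        · simpa [h0] using hne
        · simpa [h0, e] using hlo
        · simpa [h0, e] using hhi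
        · simpa [h0, e] using hpot
      · have e : Tp f (σ.1 + 1) = Tp f σ.1 + (1/2 : ℝ)^x.2 := by rw [Tp_succ, hx]; simp [tot]
        set p := (1/2 : ℝ)^x.2 with hp
        have hp0 : 0 < p := half_pow_pos _
        have hinc := Psi_cons_ge (lab n) Finset.univ (aa n lp ln) σ.2 x (Th n ln μ) hThpos.le hpsi
        rw [← hp] at hinc
        have hA := aa_neg n lp ln
        have h1 : (∑ S, max (-aa n lp ln S) 0) * p * Th n ln μ ≤ 1/4 * p * Th n ln μ := by
          have := mul_le_mul_of_nonneg_right hA (mul_pos hp0 hThpos).le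
          linarith
        have h2 : 0 ≤ p * psi (lab n) Finset.univ (aa n lp ln) (x :: σ.2) x.1 :=
          mul_nonneg hp0.le (Real.exp_pos _).le
        refine ⟨by simp [hx], ?_, ?_, ?_⟩
        · simp only [hx, List.cons_append, List.nil_append, tot_cons, e]
          linarith
        · simp only [hx, List.cons_append, List.nil_append, tot_cons, e]
          linarith
        · simp only [hx, List.cons_append, List.nil_append, tot_cons, e]
          rw [← hp]
          nlinarith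

end runs

end Pool.Agent.Helper981.KP
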