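import Mathlib
import Pool.Agent.Helper981.KP.Proc

/-!
Progress of the run, stable times.
-/

set_option autoImplicit false
open Finset

namespace Pool.Agent.Helper981.KP

variable (n : ℕ) (lp ln : Finset (Fin n) → ℕ) (f : ℕ → ℕ → ℕ) (μ : ℕ)

lemma step_cases (σ : ℕ × List (ℕ × ℕ)) :
    (2^μ * den n lp ln σ.2 (pick n lp ln σ.2).1 < num n lp ln σ.2 (pick n lp ln σ.2).1 ∧
      step n lp ln μ f σ = (σ.1, pick n lp ln σ.2 :: σ.2)) ∨
    (¬ (2^μ * den n lp ln σ.2 (pick n lp ln σ.2).1 < num n lp ln σ.2 (pick n lp ln σ.2).1) ∧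
      step n lp ln μ f σ = (σ.1 + 1, inp f σ.1 ++ σ.2)) := by
  unfold step
  by_cases h : 2^μ * den n lp ln σ.2 (pick n lp ln σ.2).1 < num n lp ln σ.2 (pick n lp ln σ.2).1
  · left; exact ⟨h, by rw [if_pos h]⟩
  · right; exact ⟨h, by rw [if_neg h]⟩

lemma suffix_step (σ : ℕ × List (ℕ × ℕ)) : σ.2 <:+ (step n lp ln μ f σ).2 := by
  rcases step_cases n lp ln f μ σ with ⟨_, h⟩ | ⟨_, h⟩
  · rw [h]; exact List.suffix_cons _ _
  · rw [h]; exact List.suffix_append _ _

lemma suffix_run {t t' : ℕ} (h : t ≤ t') :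
    (run n lp ln μ f t).2 <:+ (run n lp ln μ f t').2 := by
  induction h with
  | refl => exact List.suffix_rfl
  | step _ ih => exact ih.trans (suffix_step n lp ln f μ _)

lemma mem_run_mono {t t' : ℕ} (h : t ≤ t') {q : ℕ × ℕ} (hq : q ∈ (run n lp ln μ f t).2) :
    q ∈ (run n lp ln μ f t').2 := (suffix_run n lp ln f μ h).subset hq

lemma mS_append {J : Type*} (r : J → ℕ → ℕ) (l s : List (ℕ × ℕ)) (S : J) (u : ℕ) :
    mS r (l ++ s) S u = mS r l S u + mS r s S u := by
  simp [mS]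

lemma mS_run_mono {J : Type*} (r : J → ℕ → ℕ) {t t' : ℕ} (h : t ≤ t') (S : J) (u : ℕ) :
    mS r (run n lp ln μ f t).2 S u ≤ mS r (run n lp ln μ f t').2 S u := by
  obtain ⟨l, hl⟩ := suffix_run n lp ln f μ h
  rw [← hl, mS_append]
  linarith [mS_nonneg r l S u]

lemma fst_mono {t t' : ℕ} (h : t ≤ t') : (run n lp ln μ f t).1 ≤ (run n lp ln μ f t').1 := by
  induction h with
  | refl => exact le_rfl
  | @step m _ ih =>
    refine ih.trans ?_
    rw [run_succ]
    rcases step_cases n lp ln f μ (run n lp ln μ f m) with ⟨_, h⟩ | ⟨_, h⟩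
    · rw [h]
    · rw [h]; exact Nat.le_succ _

lemma inp_mem_run (t : ℕ) : ∀ i < (run n lp ln μ f t).1, ∀ q ∈ inp f i, q ∈ (run n lp ln μ f t).2 := by
  induction t with
  | zero => intro i hi; rw [run_zero] at hi; simp at hi
  | succ t ih =>
    intro i hi q hq
    rw [run_succ] at hi ⊢
    rcases step_cases n lp ln f μ (run n lp ln μ f t) with ⟨_, h⟩ | ⟨_, h⟩
    · rw [h] at hi ⊢
      exact List.mem_cons_of_mem _ (ih i hi q hq)
    · rw [h] at hi ⊢
      simp only at hi ⊢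
      rcases Nat.lt_succ_iff_lt_or_eq.1 hi with h1 | h1
      · exact List.mem_append_right _ (ih i h1 q hq)
      · rw [← h1]; exact List.mem_append_left _ hq

/-- a time at which `j` is the current input number, and the input is processed -/
def Stable (t : ℕ) : Prop :=
  ¬ (2^μ * den n lp ln (run n lp ln μ f t).2 (pick n lp ln (run n lp ln μ f t).2).1 <
    num n lp ln (run n lp ln μ f t).2 (pick n lp ln (run n lp ln μ f t).2).1)

theorem exists_stable_of (hv : Valid n lp ln) (hTp : ∀ j, Tp f j ≤ 3)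
    (hTh : 4 * BB n lp ln < Th n ln μ) (t0 : ℕ) : ∃ t ≥ t0, Stable n lp ln f μ t := by
  by_contra hcon
  push Not at hcon
  have hns : ∀ t ≥ t0, 2^μ * den n lp ln (run n lp ln μ f t).2 (pick n lp ln (run n lp ln μ f t).2).1 <
    num n lp ln (run n lp ln μ f t).2 (pick n lp ln (run n lp ln μ f t).2).1 := by
    intro t ht
    have := hcon t ht
    unfold Stable at this
    exact not_not.1 this
  have hinv := inv_run n lp ln f μ hv hTp hTh
  set E0 := Ex (run n lp ln μ f t0).2 with hE0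
  have hall : ∀ m, (∀ q ∈ (run n lp ln μ f (t0+m)).2, q.2 ≤ E0) ∧
      (m : ℝ) * (1/2 : ℝ)^E0 ≤ tot (run n lp ln μ f (t0+m)).2 := by
    intro m
    induction m with
    | zero =>
      refine ⟨fun q hq => le_Ex hq, ?_⟩
      simp [tot_nonneg]
    | succ m ih =>
      have e : t0 + (m+1) = (t0 + m) + 1 := by ring
      rw [e, run_succ]
      rcases step_cases n lp ln f μ (run n lp ln μ f (t0+m)) with ⟨_, h⟩ | ⟨h1, _⟩
      · rw [h]
        have hmem := (pick_spec n lp ln (hinv (t0+m)).ne).1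
        refine ⟨?_, ?_⟩
        · intro q hq
          rcases List.mem_cons.1 hq with rfl | hq
          · exact ih.1 _ hmem
          · exact ih.1 _ hq
        · simp only [tot_cons]
          have h2 := pow_le_pow_of_le_one (by norm_num : (0:ℝ) ≤ 1/2) (by norm_num) (ih.1 _ hmem)
          push_cast
          linarith [ih.2]
      · exact absurd (hns (t0+m) (by omega)) h1
  obtain ⟨m, hm⟩ := exists_nat_gt (5 * 2^E0 : ℝ)
  have h1 := (hall m).2
  have h2 := (hinv (t0+m)).hi
  have h3 := hTp (run n lp ln μ f (t0+m)).1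
  have h4 : (5:ℝ) < m * (1/2)^E0 := by
    have h5 : (5 * 2^E0 : ℝ) * (1/2)^E0 < m * (1/2)^E0 := mul_lt_mul_of_pos_right hm (by positivity)
    have h6 : (5 * 2^E0 : ℝ) * (1/2)^E0 = 5 := by
      rw [mul_assoc, ← mul_pow]; norm_num
    linarith
  linarith

theorem exists_fst_ge (hv : Valid n lp ln) (hTp : ∀ j, Tp f j ≤ 3)
    (hTh : 4 * BB n lp ln < Th n ln μ) (j : ℕ) : ∃ t, j ≤ (run n lp ln μ f t).1 := by
  induction j with
  | zero => exact ⟨0, Nat.zero_le _⟩
  | succ j ih =>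
    obtain ⟨t, ht⟩ := ih
    obtain ⟨t', ht', hst⟩ := exists_stable_of n lp ln f μ hv hTp hTh t
    refine ⟨t'+1, ?_⟩
    rw [run_succ]
    rcases step_cases n lp ln f μ (run n lp ln μ f t') with ⟨h1, _⟩ | ⟨_, h⟩
    · exact absurd h1 hst
    · rw [h]
      have := fst_mono n lp ln f μ ht'
      simp only
      omega

/-- at stable times, every point of the state satisfies the inequality -/
lemma kap_le_of_stable {t : ℕ} (hst : Stable n lp ln f μ t)
    (hne : (run n lp ln μ f t).2 ≠ []) {q : ℕ × ℕ} (hq : q ∈ (run n lp ln μ f t).2) :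
    kap n lp ln (run n lp ln μ f t).2 q.1 ≤ μ * Real.log 2 := by
  obtain ⟨hmem, hmax⟩ := pick_spec n lp ln hne
  refine (hmax q hq).trans ?_
  exact not_lt.1 (fun h => hst ((viol_iff n lp ln hmem μ).2 h))

lemma tot_run_le (hv : Valid n lp ln) (hTp : ∀ j, Tp f j ≤ 3)
    (hTh : 4 * BB n lp ln < Th n ln μ) (t : ℕ) : tot (run n lp ln μ f t).2 ≤ 5 := by
  have h2 := (inv_run n lp ln f μ hv hTp hTh t).hi
  have h3 := hTp (run n lp ln μ f t).1
  linarith

lemma exists_mu : ∃ μ : ℕ, 4 * BB n lp ln < Th n ln μ := by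
  have hc := cc_pos n ln
  have hl : 0 < Real.log 2 := Real.log_pos (by norm_num)
  obtain ⟨μ, hμ⟩ := exists_nat_gt (4 * BB n lp ln / (cc n ln * Real.log 2))
  refine ⟨μ, ?_⟩
  rw [div_lt_iff₀ (by positivity)] at hμ
  unfold Th
  have := Real.add_one_le_exp (cc n ln * (μ * Real.log 2))
  nlinarith

end Pool.Agent.Helper981.KP
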