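import Mathlib
import Pool.Agent.Helper981.KP.Proc2

/-!
Integer linear information inequalities hold for prefix complexity up to `O(1)`.
-/

set_option autoImplicit false
open Finset

namespace Pool.Agent.Helper981.KP

/-- `K` is upper semicomputable: there is a computable `f` with `K x = min_t f x t`. -/
def USC (K : ℕ → ℕ) : Prop :=
  ∃ f : ℕ → ℕ → ℕ, Computable₂ f ∧ ∀ x, (∀ t, K x ≤ f x t) ∧ ∃ t, f x t = K x

/-- Kraft's inequality. -/
def Kraft (K : ℕ → ℕ) : Prop :=
  Summable (fun x : ℕ => ((1:ℝ)/2) ^ K x) ∧ (∑' x : ℕ, ((1:ℝ)/2) ^ K x) ≤ 1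

/-- `K` is prefix complexity: an upper semicomputable function satisfying Kraft's inequality,
minimal up to an additive constant among all such functions. -/
def IsKP (K : ℕ → ℕ) : Prop :=
  USC K ∧ Kraft K ∧ ∀ K' : ℕ → ℕ, USC K' → Kraft K' → ∃ c : ℕ, ∀ x, K x ≤ K' x + c

lemma kraft_of_finite (K' : ℕ → ℕ) (h : ∀ U : Finset ℕ, ∑ u ∈ U, ((1:ℝ)/2)^(K' u) ≤ 1) :
    Kraft K' := by
  have hs : Summable (fun x : ℕ => ((1:ℝ)/2) ^ K' x) :=
    summable_of_sum_le (fun x => by positivity) h
  exact ⟨hs, hs.tsum_le_of_sum_le h⟩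

lemma finite_of_kraft {K' : ℕ → ℕ} (h : Kraft K') (U : Finset ℕ) :
    ∑ u ∈ U, ((1:ℝ)/2)^(K' u) ≤ 1 :=
  (h.1.sum_le_tsum U (fun x _ => by positivity)).trans h.2

lemma approx_le {K : ℕ → ℕ} (hK : IsKP K) (g : ℕ → ℕ → ℕ) (hg : Computable₂ g)
    (hkr : ∀ (U : Finset ℕ) (τ : ℕ → ℕ), ∑ u ∈ U, ((1:ℝ)/2)^(g u (τ u)) ≤ 1) :
    ∃ c : ℕ, ∀ u t, K u ≤ g u t + c := by
  classical
  have hne : ∀ u, (Set.range (g u)).Nonempty := fun u => ⟨g u 0, 0, rfl⟩
  have hmem : ∀ u, ∃ t, g u t = sInf (Set.range (g u)) := fun u => Nat.sInf_mem (hne u)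
  choose τ hτ using hmem
  have husc : USC (fun u => sInf (Set.range (g u))) :=
    ⟨g, hg, fun x => ⟨fun t => Nat.sInf_le (Set.mem_range_self t), ⟨τ x, hτ x⟩⟩⟩
  obtain ⟨c, hc⟩ := hK.2.2 (fun u => sInf (Set.range (g u))) husc
    (kraft_of_finite _ fun U => by
      have := hkr U τ
      simpa only [hτ] using this)
  refine ⟨c, fun u t => (hc u).trans ?_⟩
  exact Nat.add_le_add_right (Nat.sInf_le (Set.mem_range_self t)) c

lemma half_pow_le {a b : ℕ} (h : a ≤ b) : ((1:ℝ)/2)^b ≤ (1/2)^a :=
  pow_le_pow_of_le_one (by norm_num) (by norm_num) h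

lemma comp_le {K : ℕ → ℕ} (hK : IsKP K) (h : ℕ → ℕ) (hh : Computable h) :
    ∃ c : ℕ, ∀ u, K (h u) ≤ K u + c := by
  classical
  obtain ⟨f, hf, hfK⟩ := hK.1
  set g : ℕ → ℕ → ℕ := fun z t => if h t.unpair.1 = z then f t.unpair.1 t.unpair.2 + 1
    else f z t.unpair.2 + 1 with hg
  have hgc : Computable₂ g := by
    have p1 : Computable (fun p : ℕ × ℕ => p.2.unpair.1) :=
      Computable.fst.comp (Computable.unpair.comp Computable.snd)
    have p2 : Computable (fun p : ℕ × ℕ => p.2.unpair.2) :=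
      Computable.snd.comp (Computable.unpair.comp Computable.snd)
    have hc : Computable (fun p : ℕ × ℕ => decide (h p.2.unpair.1 = p.1)) :=
      (Primrec.eq.decide.to_comp).comp (hh.comp p1) Computable.fst
    have := Computable.cond hc (Computable.succ.comp (hf.comp p1 p2))
      (Computable.succ.comp (hf.comp Computable.fst p2))
    refine this.of_eq fun p => ?_
    simp only [hg]
    by_cases hp : h p.2.unpair.1 = p.1
    · simp [hp]
    · simp [hp]
  obtain ⟨c, hc⟩ := approx_le hK g hgc (by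
    intro U τ
    have h1 : ∀ z, ((1:ℝ)/2)^(g z (τ z)) ≤ (1/2) * (1/2)^(K z) +
        (if h (τ z).unpair.1 = z then (1/2) * ((1:ℝ)/2)^(K (τ z).unpair.1) else 0) := by
      intro z
      simp only [hg]
      split_ifs with h2
      · have := half_pow_le ((hfK (τ z).unpair.1).1 (τ z).unpair.2)
        rw [pow_succ]
        have h3 : (0:ℝ) ≤ (1/2) * (1/2)^(K z) := by positivity
        linarith
      · have := half_pow_le ((hfK z).1 (τ z).unpair.2)
        rw [pow_succ]
        linarith
    refine (Finset.sum_le_sum fun z _ => h1 z).trans ?_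
    rw [Finset.sum_add_distrib, ← Finset.mul_sum]
    have h4 := finite_of_kraft hK.2.1 U
    have h5 : ∑ z ∈ U, (if h (τ z).unpair.1 = z then (1/2) * ((1:ℝ)/2)^(K (τ z).unpair.1) else 0)
        ≤ 1/2 := by
      rw [← Finset.sum_filter, ← Finset.mul_sum]
      have hinj : Set.InjOn (fun z => (τ z).unpair.1)
          ((U.filter fun z => h (τ z).unpair.1 = z : Finset ℕ) : Set ℕ) := by
        intro a ha b hb hab
        simp only [Finset.coe_filter, Set.mem_ofPred_eq] at ha hb
        rw [← ha.2, ← hb.2]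
        exact congrArg h hab
      have e := Finset.sum_image (g := fun z => (τ z).unpair.1)
        (f := fun u => ((1:ℝ)/2)^(K u)) hinj
      rw [← e]
      have := finite_of_kraft hK.2.1
        ((U.filter fun z => h (τ z).unpair.1 = z).image fun z => (τ z).unpair.1)
      linarith
    linarith)
  refine ⟨c + 1, fun u => ?_⟩
  obtain ⟨v, hv⟩ := (hfK u).2
  have := hc (h u) (Nat.pair u v)
  simp only [hg, Nat.unpair_pair, if_true] at this
  rw [hv] at this
  omega

section main
variable {K : ℕ → ℕ} (n : ℕ) (lp ln : Finset (Fin n) → ℕ)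

/-- the marginals of the constructed measure are at most `2^{-K}` up to a constant -/
lemma marg_upper (hK : IsKP K) {f : ℕ → ℕ → ℕ} (hf : Computable₂ f)
    (hfK : ∀ x, (∀ t, K x ≤ f x t) ∧ ∃ t, f x t = K x) (μ : ℕ)
    (htot : ∀ t, tot (run n lp ln μ f t).2 ≤ 5) (S : Finset (Fin n)) :
    ∃ c : ℝ, 0 ≤ c ∧ ∀ t u, 0 < mS (lab n) (run n lp ln μ f t).2 S u →
      Real.log (mS (lab n) (run n lp ln μ f t).2 S u) ≤ -((K u : ℝ) - c) * Real.log 2 := by
  classical
  set g : ℕ → ℕ → ℕ := fun u t =>
    if 16 * 2^(Ex (run n lp ln μ f t.unpair.1).2) ≤ Wt n S (run n lp ln μ f t.unpair.1).2 u * 2^(t.unpair.2)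
    then t.unpair.2 else f u t.unpair.1 + 1 with hg
  have hgc : Computable₂ g := by
    have p1 : Computable (fun p : ℕ × ℕ => p.2.unpair.1) :=
      Computable.fst.comp (Computable.unpair.comp Computable.snd)
    have p2 : Computable (fun p : ℕ × ℕ => p.2.unpair.2) :=
      Computable.snd.comp (Computable.unpair.comp Computable.snd)
    have hr : Computable (fun p : ℕ × ℕ => (run n lp ln μ f p.2.unpair.1).2) :=
      Computable.snd.comp ((computable_run n lp ln μ hf).comp p1)
    have hA : Computable (fun p : ℕ × ℕ => 16 * 2^(Ex (run n lp ln μ f p.2.unpair.1).2)) :=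
      (Primrec.nat_mul.to_comp).comp (Computable.const 16)
        ((primrec_pow.to_comp).comp (Computable.const 2) (primrec_Ex.to_comp.comp hr))
    have hB : Computable (fun p : ℕ × ℕ => Wt n S (run n lp ln μ f p.2.unpair.1).2 p.1 *
        2^(p.2.unpair.2)) :=
      (Primrec.nat_mul.to_comp).comp ((primrec_Wt n S).to_comp.comp hr Computable.fst)
        ((primrec_pow.to_comp).comp (Computable.const 2) p2)
    have hc : Computable (fun p : ℕ × ℕ => decide (16 * 2^(Ex (run n lp ln μ f p.2.unpair.1).2) ≤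
        Wt n S (run n lp ln μ f p.2.unpair.1).2 p.1 * 2^(p.2.unpair.2))) :=
      (Primrec.nat_le.decide.to_comp).comp hA hB
    have := Computable.cond hc p2 (Computable.succ.comp (hf.comp Computable.fst p1))
    refine this.of_eq fun p => ?_
    simp only [hg]
    by_cases hp : 16 * 2^(Ex (run n lp ln μ f p.2.unpair.1).2) ≤
        Wt n S (run n lp ln μ f p.2.unpair.1).2 p.1 * 2^(p.2.unpair.2)
    · simp [hp]
    · simp [hp]
  have hcond : ∀ t k u, 16 * 2^(Ex (run n lp ln μ f t).2) ≤ Wt n S (run n lp ln μ f t).2 u * 2^k ↔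
      16 * ((1:ℝ)/2)^k ≤ mS (lab n) (run n lp ln μ f t).2 S u := by
    intro t k u
    have e : (16 * 2^(Ex (run n lp ln μ f t).2) ≤ Wt n S (run n lp ln μ f t).2 u * 2^k) ↔
        (16 * (2:ℝ)^(Ex (run n lp ln μ f t).2) ≤ Wt n S (run n lp ln μ f t).2 u * 2^k) := by
      constructor
      · intro h; exact_mod_cast h
      · intro h; exact_mod_cast h
    rw [e, Wt_cast]
    have hp : (0:ℝ) < 2^(Ex (run n lp ln μ f t).2) := by positivity
    have hk : (0:ℝ) < 2^k := by positivity
    have e2 : ((1:ℝ)/2)^k = 1 / 2^k := by rw [div_pow, one_pow]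
    rw [e2, mul_one_div, div_le_iff₀ hk]
    constructor
    · intro h
      have : 16 * (2:ℝ)^(Ex (run n lp ln μ f t).2) ≤
        (mS (lab n) (run n lp ln μ f t).2 S u * 2^k) * 2^(Ex (run n lp ln μ f t).2) := by linarith
      exact le_of_mul_le_mul_right this hp
    · intro h
      have := mul_le_mul_of_nonneg_right h hp.le
      linarith
  obtain ⟨c, hc⟩ := approx_le hK g hgc (by
    intro U τ
    set T := U.sup (fun u => (τ u).unpair.1) with hT
    have h1 : ∀ u ∈ U, ((1:ℝ)/2)^(g u (τ u)) ≤ (1/2) * (1/2)^(K u) +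
        (1/16) * mS (lab n) (run n lp ln μ f T).2 S u := by
      intro u hu
      have hle : (τ u).unpair.1 ≤ T := Finset.le_sup (f := fun u => (τ u).unpair.1) hu
      have hmono := mS_run_mono n lp ln f μ (lab n) hle S u
      simp only [hg]
      split_ifs with h2
      · rw [hcond] at h2
        have h3 : (0:ℝ) ≤ (1/2) * (1/2)^(K u) := by positivity
        linarith
      · have := half_pow_le ((hfK u).1 (τ u).unpair.1)
        have h3 := mS_nonneg (lab n) (run n lp ln μ f T).2 S u
        rw [pow_succ]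
        linarith
    refine (Finset.sum_le_sum h1).trans ?_
    rw [Finset.sum_add_distrib, ← Finset.mul_sum, ← Finset.mul_sum]
    have h4 := finite_of_kraft hK.2.1 U
    have h5 : ∑ u ∈ U, mS (lab n) (run n lp ln μ f T).2 S u ≤ 5 := by
      refine le_trans ?_ (htot T)
      unfold mS tot
      rw [← list_sum_finset_sum]
      apply List.sum_le_sum
      intro q _
      rw [Finset.sum_ite_eq]
      split_ifs
      · exact le_rfl
      · positivity
    linarith)
  have hl2 : 0 < Real.log 2 := Real.log_pos (by norm_num)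
  refine ⟨c + 5, by positivity, ?_⟩
  intro t u hpos
  set M := mS (lab n) (run n lp ln μ f t).2 S u with hM
  have hM5 : M ≤ 5 := (mS_le_tot _ _ _ _).trans (htot t)
  have hx : 1 ≤ 16 / M := by rw [le_div_iff₀ hpos]; linarith
  obtain ⟨k, hk1, hk2⟩ := exists_nat_pow_near hx (by norm_num : (1:ℝ) < 2)
  have h6 : 16 * ((1:ℝ)/2)^(k+1) ≤ M := by
    rw [div_lt_iff₀ hpos] at hk2
    have e2 : ((1:ℝ)/2)^(k+1) = 1 / 2^(k+1) := by rw [div_pow, one_pow]
    rw [e2, mul_one_div, div_le_iff₀ (by positivity)]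
    linarith
  have h7 := hc u (Nat.pair t (k+1))
  have h8 : g u (Nat.pair t (k+1)) = k + 1 := by
    simp only [hg, Nat.unpair_pair]
    rw [if_pos ((hcond t (k+1) u).2 h6)]
  rw [h8] at h7
  have h9 : (k:ℝ) * Real.log 2 ≤ Real.log 16 - Real.log M := by
    rw [← Real.log_pow, ← Real.log_div (by norm_num) hpos.ne']
    exact Real.log_le_log (by positivity) hk1
  have h10 : Real.log 16 = 4 * Real.log 2 := by
    rw [show (16:ℝ) = 2^4 by norm_num, Real.log_pow]; norm_num
  have h11 : (K u : ℝ) ≤ k + 1 + c := by exact_mod_cast h7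
  nlinarith

/-- the canonical extension of an `S`-label to a full tuple -/
def ext (S : Finset (Fin n)) (u : ℕ) : ℕ :=
  Encodable.encode ((List.finRange n).map (fun i : Fin n => if i ∈ S then
    (Denumerable.ofNat (List ℕ) u).getD
      (((List.finRange n).filter (fun i => decide (i ∈ S))).idxOf i) 0 else 0))

lemma primrec_ext (S : Finset (Fin n)) : Primrec (ext n S) := by
  unfold ext
  refine Primrec.encode.comp ?_
  refine primrec_list_fix (List.finRange n) (fun (i : Fin n) (u : ℕ) => if i ∈ S then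
    (Denumerable.ofNat (List ℕ) u).getD
      (((List.finRange n).filter (fun i => decide (i ∈ S))).idxOf i) 0 else 0) fun i => ?_
  by_cases h : i ∈ S
  · simp only [h, if_true]
    exact primrec_getD_code _
  · simp only [h, if_false]
    exact Primrec.const 0

/-- the code of the full tuple -/
def full (x : Fin n → ℕ) : ℕ := Encodable.encode ((List.finRange n).map x)

/-- the code of the sub-tuple -/
def sub (S : Finset (Fin n)) (x : Fin n → ℕ) : ℕ :=
  Encodable.encode (((List.finRange n).filter (fun i => decide (i ∈ S))).map x)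

lemma getD_map_finRange (G : Fin n → ℕ) (i : Fin n) :
    (Denumerable.ofNat (List ℕ) (Encodable.encode ((List.finRange n).map G))).getD i.val 0 = G i := by
  rw [Denumerable.ofNat_encode]
  simp [List.getD]

lemma lab_full (S : Finset (Fin n)) (x : Fin n → ℕ) : lab n S (full n x) = sub n S x := by
  unfold lab full sub
  congr 1
  apply List.map_congr_left
  intro i _
  exact getD_map_finRange n x i

lemma lab_ext (S : Finset (Fin n)) (x : Fin n → ℕ) : lab n S (ext n S (sub n S x)) = sub n S x := by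
  unfold lab ext
  conv_rhs => unfold sub
  congr 1
  apply List.map_congr_left
  intro i hi
  have hiS : i ∈ S := by simpa using (List.mem_filter.1 hi).2
  rw [getD_map_finRange, if_pos hiS]
  unfold sub
  rw [Denumerable.ofNat_encode]
  have hlt := List.idxOf_lt_length_of_mem hi
  rw [List.getD_eq_getElem _ _ (by simpa using hlt), List.getElem_map, List.getElem_idxOf]

theorem main_int (hK : IsKP K) (hv : Valid n lp ln) : ∃ c : ℝ, ∀ x : Fin n → ℕ,
    -c ≤ ∑ S, ((lp S : ℝ) - ln S) * (K (sub n S x) : ℝ) := by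
  classical
  obtain ⟨f, hf, hfK⟩ := hK.1
  obtain ⟨μ, hμ⟩ := exists_mu n lp ln
  have hTp : ∀ j, Tp f j ≤ 3 := by
    intro j
    have := sum_inp_le (f := f) (K := K) (fun x t => (hfK x).1 t)
      (fun N => finite_of_kraft hK.2.1 _) j
    unfold Tp
    linarith
  have htot := tot_run_le n lp ln f μ hv hTp hμ
  have hup := fun S => marg_upper n lp ln hK hf hfK μ htot S
  choose c1 hc10 hc1 using hup
  have hext := fun S : Finset (Fin n) => comp_le hK (ext n S) (primrec_ext n S).to_comp
  choose c2 hc2 using hext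
  refine ⟨μ + ∑ S, ((lp S : ℝ) * c2 S + (ln S : ℝ) * c1 S), fun x => ?_⟩
  -- the quanta needed
  obtain ⟨i0, hi0⟩ := exists_input (f := f) (K := K) (fun x t => (hfK x).1 t)
    (fun x => (hfK x).2) (full n x)
  have hin := fun S : Finset (Fin n) => exists_input (f := f) (K := K) (fun x t => (hfK x).1 t)
    (fun x => (hfK x).2) (ext n S (sub n S x))
  choose iS hiS using hin
  obtain ⟨t0, ht0⟩ := exists_fst_ge n lp ln f μ hv hTp hμ (i0 + (∑ S, iS S) + 1)
  obtain ⟨t, ht, hst⟩ := exists_stable_of n lp ln f μ hv hTp hμ t0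
  have hfst := ht0.trans (fst_mono n lp ln f μ ht)
  have hmem0 : (full n x, K (full n x)) ∈ (run n lp ln μ f t).2 :=
    inp_mem_run n lp ln f μ t i0 (by omega) _ hi0
  have hmemS : ∀ S, (ext n S (sub n S x), K (ext n S (sub n S x))) ∈ (run n lp ln μ f t).2 := by
    intro S
    refine inp_mem_run n lp ln f μ t (iS S) ?_ _ (hiS S)
    have := Finset.single_le_sum (f := iS) (fun i _ => Nat.zero_le _) (Finset.mem_univ S)
    omega
  have hkap := kap_le_of_stable n lp ln f μ hst (List.ne_nil_of_mem hmem0) hmem0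
  unfold kap at hkap
  simp only [lab_full] at hkap
  have hl2 : 0 < Real.log 2 := Real.log_pos (by norm_num)
  have hlow : ∀ S, -((K (sub n S x) : ℝ) + c2 S) * Real.log 2 ≤
      Real.log (mS (lab n) (run n lp ln μ f t).2 S (sub n S x)) := by
    intro S
    have h1 := le_mS_of_mem (lab n) (run n lp ln μ f t).2 S _ (hmemS S)
    simp only [lab_ext] at h1
    have h2 := half_pow_le (hc2 S (sub n S x))
    have h3 := Real.log_le_log (by positivity) (h2.trans h1)
    rw [Real.log_pow, one_div, Real.log_inv] at h3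
    push_cast at h3
    linarith
  have hhigh : ∀ S, Real.log (mS (lab n) (run n lp ln μ f t).2 S (sub n S x)) ≤
      -((K (sub n S x) : ℝ) - c1 S) * Real.log 2 := by
    intro S
    refine hc1 S t _ ?_
    have := mS_pos_of_mem (lab n) (run n lp ln μ f t).2 S _ hmem0
    simpa only [lab_full] using this
  have hterm : ∀ S, -(((lp S : ℝ) - ln S) * (K (sub n S x) : ℝ) + ((lp S : ℝ) * c2 S +
      (ln S : ℝ) * c1 S)) * Real.log 2 ≤
      ((lp S : ℝ) - ln S) * Real.log (mS (lab n) (run n lp ln μ f t).2 S (sub n S x)) := by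
    intro S
    have h1 := mul_le_mul_of_nonneg_left (hlow S) (Nat.cast_nonneg (α := ℝ) (lp S))
    have h2 := mul_le_mul_of_nonneg_left (hhigh S) (Nat.cast_nonneg (α := ℝ) (ln S))
    linarith
  have hsum := Finset.sum_le_sum (s := Finset.univ) fun S _ => hterm S
  rw [← Finset.sum_mul, Finset.sum_neg_distrib, Finset.sum_add_distrib] at hsum
  have hfin := hsum.trans hkap
  have := le_of_mul_le_mul_right hfin hl2
  linarith

end main

end Pool.Agent.Helper981.KP
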