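import Mathlib
import Pool.Agent.Helper981.KP.Ent

/-!
The Zhang–Yeung inequality for Shannon entropies (copy lemma proof).
-/

set_option autoImplicit false
set_option linter.unusedSectionVars false
set_option linter.unusedSimpArgs false
open Finset

namespace Pool.Agent.Helper981.KP

section HV
variable {Ω : Type*} [Fintype Ω] {k : ℕ}

/-- the tuple of the variables with index in `T` -/
def tup (V : Fin k → Ω → ℕ) (T : Finset (Fin k)) (ω : Ω) : Fin k → ℕ :=
  fun i => if i ∈ T then V i ω else 0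

lemma tup_eq_iff (V : Fin k → Ω → ℕ) (T : Finset (Fin k)) (ω ω' : Ω) :
    tup V T ω = tup V T ω' ↔ ∀ i ∈ T, V i ω = V i ω' := by
  constructor
  · intro h i hi
    have := congrFun h i
    simpa [tup, hi] using this
  · intro h
    funext i
    by_cases hi : i ∈ T
    · simp [tup, hi, h i hi]
    · simp [tup, hi]

/-- joint entropy of the variables with index in `T` -/
noncomputable def HV (w : Ω → ℝ) (V : Fin k → Ω → ℕ) (T : Finset (Fin k)) : ℝ := Hf w (tup V T)

lemma HV_eq {α : Type*} [DecidableEq α] (w : Ω → ℝ) (V : Fin k → Ω → ℕ) (T : Finset (Fin k))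
    (g : Ω → α) (h : ∀ ω ω', g ω = g ω' ↔ ∀ i ∈ T, V i ω = V i ω') : HV w V T = Hf w g := by
  unfold HV
  apply Hf_congr
  intro ω ω'
  rw [tup_eq_iff, h]

lemma HV_submod (w : Ω → ℝ) (hw : ∀ ω, 0 ≤ w ω) (V : Fin k → Ω → ℕ)
    (X Y Z P R S : Finset (Fin k)) (hP : P = X ∪ Y ∪ Z) (hR : R = X ∪ Z) (hS : S = Y ∪ Z) :
    HV w V P + HV w V Z ≤ HV w V R + HV w V S := by
  subst hP hR hS
  have h := submod w hw (tup V X) (tup V Y) (tup V Z)
  rw [HV_eq w V (X ∪ Y ∪ Z) (fun ω => (tup V X ω, tup V Y ω, tup V Z ω)) (by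
      intro ω ω'
      simp only [Prod.mk.injEq, tup_eq_iff, Finset.mem_union]
      constructor
      · rintro ⟨h1, h2, h3⟩ i ((hi | hi) | hi)
        · exact h1 i hi
        · exact h2 i hi
        · exact h3 i hi
      · intro h1
        exact ⟨fun i hi => h1 i (Or.inl (Or.inl hi)), fun i hi => h1 i (Or.inl (Or.inr hi)),
          fun i hi => h1 i (Or.inr hi)⟩),
    HV_eq w V (X ∪ Z) (fun ω => (tup V X ω, tup V Z ω)) (by
      intro ω ω'
      simp only [Prod.mk.injEq, tup_eq_iff, Finset.mem_union]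
      constructor
      · rintro ⟨h1, h3⟩ i (hi | hi)
        · exact h1 i hi
        · exact h3 i hi
      · intro h1
        exact ⟨fun i hi => h1 i (Or.inl hi), fun i hi => h1 i (Or.inr hi)⟩),
    HV_eq w V (Y ∪ Z) (fun ω => (tup V Y ω, tup V Z ω)) (by
      intro ω ω'
      simp only [Prod.mk.injEq, tup_eq_iff, Finset.mem_union]
      constructor
      · rintro ⟨h1, h3⟩ i (hi | hi)
        · exact h1 i hi
        · exact h3 i hi
      · intro h1
        exact ⟨fun i hi => h1 i (Or.inl hi), fun i hi => h1 i (Or.inr hi)⟩)]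
  exact h

lemma Hf_congr_ae {α : Type*} [DecidableEq α] (w : Ω → ℝ) (f g : Ω → α)
    (h : ∀ ω, w ω ≠ 0 → f ω = g ω) : Hf w f = Hf w g := by
  unfold Hf
  refine Finset.sum_congr rfl fun ω _ => ?_
  by_cases h0 : w ω = 0
  · simp [h0]
  · congr 3
    unfold mg
    refine Finset.sum_congr rfl fun ω' _ => ?_
    by_cases h1 : w ω' = 0
    · simp [h1]
    · rw [h ω' h1, h ω h0]

end HV

section copy
variable {Ω : Type*} [Fintype Ω] {β : Type*} [DecidableEq β]

/-- the conditionally independent self-coupling of `w` over `g` -/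
noncomputable def cp (w : Ω → ℝ) (g : Ω → β) (ω : Ω × Ω) : ℝ :=
  if g ω.1 = g ω.2 then w ω.1 * w ω.2 / mg w g ω.1 else 0

variable (w : Ω → ℝ) (hw : ∀ ω, 0 ≤ w ω) (g : Ω → β)
include hw

lemma cp_nonneg (ω : Ω × Ω) : 0 ≤ cp w g ω := by
  unfold cp
  split_ifs
  · exact div_nonneg (mul_nonneg (hw _) (hw _)) (mg_nonneg w hw g _)
  · exact le_rfl

lemma mul_mg_div (ω : Ω) : w ω * mg w g ω / mg w g ω = w ω := by
  by_cases h : mg w g ω = 0
  · have h1 := le_mg w hw g ω
    have h2 := hw ω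
    have : w ω = 0 := le_antisymm (by linarith) h2
    rw [this]; simp
  · rw [mul_div_assoc, div_self h, mul_one]

lemma sum_cp_snd (a : Ω) : ∑ b, cp w g (a, b) = w a := by
  have : ∑ b, cp w g (a, b) = w a * mg w g a / mg w g a := by
    unfold cp
    simp only
    rw [mg.eq_1, Finset.mul_sum, Finset.sum_div]
    refine Finset.sum_congr rfl fun b _ => ?_
    by_cases h : g a = g b
    · rw [if_pos h, if_pos h.symm]
    · rw [if_neg h, if_neg (fun h' => h h'.symm)]; simp
  rw [this, mul_mg_div w hw]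

lemma cp_swap (a b : Ω) : cp w g (a, b) = cp w g (b, a) := by
  unfold cp
  by_cases h : g a = g b
  · simp only [h, if_true]
    rw [mg_congr_pt w g h, mul_comm]
  · simp only [if_neg h, if_neg (fun h' => h (Eq.symm h'))]

lemma sum_cp_fst (b : Ω) : ∑ a, cp w g (a, b) = w b := by
  rw [← sum_cp_snd w hw g b]
  exact Finset.sum_congr rfl fun a _ => cp_swap w hw g a b

lemma mg_cp_fst {α : Type*} [DecidableEq α] (f : Ω → α) (p : Ω × Ω) :
    mg (cp w g) (fun q => f q.1) p = mg w f p.1 := by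
  unfold mg
  rw [Fintype.sum_prod_type]
  refine Finset.sum_congr rfl fun a _ => ?_
  by_cases h : f a = f p.1
  · simp only [h, if_true]; exact sum_cp_snd w hw g a
  · simp [h]

lemma mg_cp_snd {α : Type*} [DecidableEq α] (f : Ω → α) (p : Ω × Ω) :
    mg (cp w g) (fun q => f q.2) p = mg w f p.2 := by
  unfold mg
  rw [Fintype.sum_prod_type_right]
  refine Finset.sum_congr rfl fun b _ => ?_
  by_cases h : f b = f p.2
  · simp only [h, if_true]; exact sum_cp_fst w hw g b
  · simp [h]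

lemma sum_cp_mul_fst (F : Ω → ℝ) : ∑ p, cp w g p * F p.1 = ∑ a, w a * F a := by
  rw [Fintype.sum_prod_type]
  refine Finset.sum_congr rfl fun a _ => ?_
  simp only
  rw [← Finset.sum_mul, sum_cp_snd w hw]

lemma sum_cp_mul_snd (F : Ω → ℝ) : ∑ p, cp w g p * F p.2 = ∑ a, w a * F a := by
  rw [Fintype.sum_prod_type_right]
  refine Finset.sum_congr rfl fun a _ => ?_
  simp only
  rw [← Finset.sum_mul, sum_cp_fst w hw]

lemma Hf_cp_fst {α : Type*} [DecidableEq α] (f : Ω → α) :
    Hf (cp w g) (fun q => f q.1) = Hf w f := by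
  unfold Hf
  simp only [mg_cp_fst w hw g]
  exact sum_cp_mul_fst w hw g (fun a => -Real.log (mg w f a))

lemma Hf_cp_snd {α : Type*} [DecidableEq α] (f : Ω → α) :
    Hf (cp w g) (fun q => f q.2) = Hf w f := by
  unfold Hf
  simp only [mg_cp_snd w hw g]
  exact sum_cp_mul_snd w hw g (fun a => -Real.log (mg w f a))

/-- conditional independence of the copy: `f` refines `g`, `f'` arbitrary -/
lemma Hf_cp_joint {α γ : Type*} [DecidableEq α] [DecidableEq γ] (f : Ω → α) (f' : Ω → γ)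
    (hf : ∀ a b, f a = f b → g a = g b) :
    Hf (cp w g) (fun q => (f q.1, f' q.2)) = Hf w f + Hf w (fun a => (f' a, g a)) - Hf w g := by
  have key : ∀ p : Ω × Ω, cp w g p ≠ 0 →
      mg (cp w g) (fun q => (f q.1, f' q.2)) p =
        mg w f p.1 * mg w (fun a => (f' a, g a)) p.2 / mg w g p.1 := by
    intro p hp
    have hg : g p.1 = g p.2 := by
      by_contra h
      exact hp (by unfold cp; rw [if_neg h])
    have e1 : mg (cp w g) (fun q => (f q.1, f' q.2)) p =
        ∑ a, ∑ b, (if f a = f p.1 ∧ f' b = f' p.2 then cp w g (a, b) else 0) := by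
      unfold mg
      rw [Fintype.sum_prod_type]
      refine Finset.sum_congr rfl fun a _ => Finset.sum_congr rfl fun b _ => ?_
      simp only [Prod.mk.injEq]
    have e2 : ∀ a, ∑ b, (if f a = f p.1 ∧ f' b = f' p.2 then cp w g (a, b) else 0) =
        (if f a = f p.1 then w a else 0) * (mg w (fun a => (f' a, g a)) p.2 / mg w g p.1) := by
      intro a
      by_cases h : f a = f p.1
      · rw [if_pos h]
        have hga : g a = g p.1 := hf _ _ h
        rw [mg.eq_1 w (fun a => (f' a, g a)), Finset.sum_div, Finset.mul_sum]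
        refine Finset.sum_congr rfl fun b _ => ?_
        simp only [h, true_and, Prod.mk.injEq]
        by_cases h2 : f' b = f' p.2
        · by_cases h3 : g b = g p.2
          · simp only [h2, h3, and_self, if_true]
            unfold cp
            simp only
            rw [if_pos (by rw [hga, hg, h3]), mg_congr_pt w g hga]
            ring
          · simp only [h2, h3, and_false, if_true, if_false]
            unfold cp
            simp only
            rw [if_neg (by rw [hga, hg]; exact fun h' => h3 h'.symm)]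
            simp
        · simp [h2]
      · rw [if_neg h]
        simp [h]
    rw [e1, Finset.sum_congr rfl fun a _ => e2 a, ← Finset.sum_mul]
    unfold mg
    ring
  have hne : ∀ p : Ω × Ω, cp w g p ≠ 0 → 0 < w p.1 ∧ 0 < w p.2 := by
    intro p hp
    unfold cp at hp
    split_ifs at hp
    · have h1 : w p.1 ≠ 0 := fun h => hp (by rw [h]; simp)
      have h2 : w p.2 ≠ 0 := fun h => hp (by rw [h]; simp)
      exact ⟨lt_of_le_of_ne (hw _) h1.symm, lt_of_le_of_ne (hw _) h2.symm⟩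
    · exact absurd rfl hp
  have e3 : Hf (cp w g) (fun q => (f q.1, f' q.2)) =
      ∑ p, (cp w g p * (-Real.log (mg w f p.1)) +
        cp w g p * (-Real.log (mg w (fun a => (f' a, g a)) p.2)) -
        cp w g p * (-Real.log (mg w g p.1))) := by
    unfold Hf
    refine Finset.sum_congr rfl fun p _ => ?_
    by_cases hp : cp w g p = 0
    · simp [hp]
    · obtain ⟨h1, h2⟩ := hne p hp
      rw [key p hp]
      have q1 : 0 < mg w f p.1 := lt_of_lt_of_le h1 (le_mg w hw f _)
      have q2 : 0 < mg w (fun a => (f' a, g a)) p.2 := lt_of_lt_of_le h2 (le_mg w hw _ _)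
      have q3 : 0 < mg w g p.1 := lt_of_lt_of_le h1 (le_mg w hw g _)
      rw [Real.log_div (by positivity) q3.ne', Real.log_mul q1.ne' q2.ne']
      ring
  rw [e3, Finset.sum_sub_distrib, Finset.sum_add_distrib,
    sum_cp_mul_fst w hw g (fun a => -Real.log (mg w f a)),
    sum_cp_mul_snd w hw g (fun a => -Real.log (mg w (fun a => (f' a, g a)) a)),
    sum_cp_mul_fst w hw g (fun a => -Real.log (mg w g a))]
  rfl

end copy

section ZY
variable {Ω : Type*} [Fintype Ω]

/-- the Zhang–Yeung inequality, `V 0 = A`, `V 1 = B`, `V 2 = C`, `V 3 = D` -/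
theorem zhang_yeung (w : Ω → ℝ) (hw : ∀ ω, 0 ≤ w ω) (V : Fin 4 → Ω → ℕ) :
    2 * (HV w V {2} + HV w V {3} - HV w V {2, 3}) ≤
      (HV w V {0} + HV w V {1} - HV w V {0, 1}) +
      (HV w V {0} + HV w V {2, 3} - HV w V {0, 2, 3}) +
      3 * (HV w V {0, 2} + HV w V {0, 3} - HV w V {0, 2, 3} - HV w V {0}) +
      (HV w V {1, 2} + HV w V {1, 3} - HV w V {1, 2, 3} - HV w V {1}) := by
  classical
  -- the coupling
  set g : Ω → ℕ × ℕ := fun ω => (V 2 ω, V 3 ω) with hg
  set w' : Ω × Ω → ℝ := cp w g with hw'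
  have hw0 : ∀ p, 0 ≤ w' p := cp_nonneg w hw g
  set W : Fin 5 → Ω × Ω → ℕ := ![fun p => V 0 p.1, fun p => V 1 p.1, fun p => V 2 p.1,
    fun p => V 3 p.1, fun p => V 0 p.2] with hW
  -- entropies of the first four variables
  have e0 : HV w' W {0} = HV w V {0} := by
    rw [HV_eq w' W {0} (fun p => V 0 p.1) (by simp [hW]), Hf_cp_fst w hw g (V 0),
      HV_eq w V {0} (V 0) (by simp)]
  have e1 : HV w' W {1} = HV w V {1} := by
    rw [HV_eq w' W {1} (fun p => V 1 p.1) (by simp [hW]), Hf_cp_fst w hw g (V 1),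
      HV_eq w V {1} (V 1) (by simp)]
  have e2 : HV w' W {2} = HV w V {2} := by
    rw [HV_eq w' W {2} (fun p => V 2 p.1) (by simp [hW]), Hf_cp_fst w hw g (V 2),
      HV_eq w V {2} (V 2) (by simp)]
  have e3 : HV w' W {3} = HV w V {3} := by
    rw [HV_eq w' W {3} (fun p => V 3 p.1) (by simp [hW]), Hf_cp_fst w hw g (V 3),
      HV_eq w V {3} (V 3) (by simp)]
  have e01 : HV w' W {0, 1} = HV w V {0, 1} := by
    rw [HV_eq w' W {0, 1} (fun p => (V 0 p.1, V 1 p.1)) (by simp [hW]),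
      Hf_cp_fst w hw g (fun a => (V 0 a, V 1 a)),
      HV_eq w V {0, 1} (fun a => (V 0 a, V 1 a)) (by simp)]
  have e02 : HV w' W {0, 2} = HV w V {0, 2} := by
    rw [HV_eq w' W {0, 2} (fun p => (V 0 p.1, V 2 p.1)) (by simp [hW]),
      Hf_cp_fst w hw g (fun a => (V 0 a, V 2 a)),
      HV_eq w V {0, 2} (fun a => (V 0 a, V 2 a)) (by simp)]
  have e03 : HV w' W {0, 3} = HV w V {0, 3} := by
    rw [HV_eq w' W {0, 3} (fun p => (V 0 p.1, V 3 p.1)) (by simp [hW]),
      Hf_cp_fst w hw g (fun a => (V 0 a, V 3 a)),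
      HV_eq w V {0, 3} (fun a => (V 0 a, V 3 a)) (by simp)]
  have e12 : HV w' W {1, 2} = HV w V {1, 2} := by
    rw [HV_eq w' W {1, 2} (fun p => (V 1 p.1, V 2 p.1)) (by simp [hW]),
      Hf_cp_fst w hw g (fun a => (V 1 a, V 2 a)),
      HV_eq w V {1, 2} (fun a => (V 1 a, V 2 a)) (by simp)]
  have e13 : HV w' W {1, 3} = HV w V {1, 3} := by
    rw [HV_eq w' W {1, 3} (fun p => (V 1 p.1, V 3 p.1)) (by simp [hW]),
      Hf_cp_fst w hw g (fun a => (V 1 a, V 3 a)),
      HV_eq w V {1, 3} (fun a => (V 1 a, V 3 a)) (by simp)]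
  have e23 : HV w' W {2, 3} = HV w V {2, 3} := by
    rw [HV_eq w' W {2, 3} (fun p => (V 2 p.1, V 3 p.1)) (by simp [hW]),
      Hf_cp_fst w hw g (fun a => (V 2 a, V 3 a)),
      HV_eq w V {2, 3} (fun a => (V 2 a, V 3 a)) (by simp)]
  have e023 : HV w' W {0, 2, 3} = HV w V {0, 2, 3} := by
    rw [HV_eq w' W {0, 2, 3} (fun p => (V 0 p.1, V 2 p.1, V 3 p.1)) (by simp [hW]),
      Hf_cp_fst w hw g (fun a => (V 0 a, V 2 a, V 3 a)),
      HV_eq w V {0, 2, 3} (fun a => (V 0 a, V 2 a, V 3 a)) (by simp)]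
  have e123 : HV w' W {1, 2, 3} = HV w V {1, 2, 3} := by
    rw [HV_eq w' W {1, 2, 3} (fun p => (V 1 p.1, V 2 p.1, V 3 p.1)) (by simp [hW]),
      Hf_cp_fst w hw g (fun a => (V 1 a, V 2 a, V 3 a)),
      HV_eq w V {1, 2, 3} (fun a => (V 1 a, V 2 a, V 3 a)) (by simp)]
  -- entropies involving the copy
  have hae : ∀ p : Ω × Ω, w' p ≠ 0 → V 2 p.1 = V 2 p.2 ∧ V 3 p.1 = V 3 p.2 := by
    intro p hp
    by_contra h
    apply hp
    rw [hw']
    unfold cp
    rw [if_neg]
    intro h2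
    simp only [hg, Prod.mk.injEq] at h2
    exact h h2
  have e4 : HV w' W {4} = HV w V {0} := by
    rw [HV_eq w' W {4} (fun p => V 0 p.2) (by simp [hW]), Hf_cp_snd w hw g (V 0),
      HV_eq w V {0} (V 0) (by simp)]
  have e24 : HV w' W {2, 4} = HV w V {0, 2} := by
    rw [HV_eq w' W {2, 4} (fun p => (V 0 p.2, V 2 p.1)) (by simp [hW, and_comm]),
      Hf_congr_ae w' (fun p => (V 0 p.2, V 2 p.1)) (fun p => (V 0 p.2, V 2 p.2))
        (fun p hp => by simp [(hae p hp).1]),
      Hf_cp_snd w hw g (fun a => (V 0 a, V 2 a)),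
      HV_eq w V {0, 2} (fun a => (V 0 a, V 2 a)) (by simp)]
  have e34 : HV w' W {3, 4} = HV w V {0, 3} := by
    rw [HV_eq w' W {3, 4} (fun p => (V 0 p.2, V 3 p.1)) (by simp [hW, and_comm]),
      Hf_congr_ae w' (fun p => (V 0 p.2, V 3 p.1)) (fun p => (V 0 p.2, V 3 p.2))
        (fun p hp => by simp [(hae p hp).2]),
      Hf_cp_snd w hw g (fun a => (V 0 a, V 3 a)),
      HV_eq w V {0, 3} (fun a => (V 0 a, V 3 a)) (by simp)]
  have e234 : HV w' W {2, 3, 4} = HV w V {0, 2, 3} := by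
    rw [HV_eq w' W {2, 3, 4} (fun p => (V 0 p.2, V 2 p.1, V 3 p.1)) (by
        intro p p'
        simp [hW]
        tauto),
      Hf_congr_ae w' (fun p => (V 0 p.2, V 2 p.1, V 3 p.1)) (fun p => (V 0 p.2, V 2 p.2, V 3 p.2))
        (fun p hp => by simp [(hae p hp).1, (hae p hp).2]),
      Hf_cp_snd w hw g (fun a => (V 0 a, V 2 a, V 3 a)),
      HV_eq w V {0, 2, 3} (fun a => (V 0 a, V 2 a, V 3 a)) (by simp)]
  have e0123 : HV w' W {0, 1, 2, 3} = HV w V {0, 1, 2, 3} := by
    rw [HV_eq w' W {0, 1, 2, 3} (fun p => (V 0 p.1, V 1 p.1, V 2 p.1, V 3 p.1)) (by simp [hW]),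
      Hf_cp_fst w hw g (fun a => (V 0 a, V 1 a, V 2 a, V 3 a)),
      HV_eq w V {0, 1, 2, 3} (fun a => (V 0 a, V 1 a, V 2 a, V 3 a)) (by simp)]
  have eall : HV w' W {0, 1, 2, 3, 4} = HV w V {0, 1, 2, 3} + HV w V {0, 2, 3} - HV w V {2, 3} := by
    rw [HV_eq w' W {0, 1, 2, 3, 4} (fun p => ((V 0 p.1, V 1 p.1, V 2 p.1, V 3 p.1), V 0 p.2)) (by
        intro p p'
        simp [hW]
        tauto),
      Hf_cp_joint w hw g (fun a => (V 0 a, V 1 a, V 2 a, V 3 a)) (V 0) (by
        intro a b h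
        simp only [Prod.mk.injEq] at h
        simp only [hg, Prod.mk.injEq]
        exact ⟨h.2.2.1, h.2.2.2⟩),
      HV_eq w V {0, 1, 2, 3} (fun a => (V 0 a, V 1 a, V 2 a, V 3 a)) (by simp),
      HV_eq w V {0, 2, 3} (fun a => (V 0 a, g a)) (by simp [hg]),
      HV_eq w V {2, 3} g (by simp [hg])]
  -- Shannon inequalities
  have s1 := HV_submod w' hw0 W {0} {1} {4} {0, 1, 4} {0, 4} {1, 4} (by decide) (by decide) (by decide)
  have s2 := HV_submod w' hw0 W {2} {3} {0, 4} {0, 2, 3, 4} {0, 2, 4} {0, 3, 4}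
    (by decide) (by decide) (by decide)
  have s3 := HV_submod w' hw0 W {2} {3} {1, 4} {1, 2, 3, 4} {1, 2, 4} {1, 3, 4}
    (by decide) (by decide) (by decide)
  have s4 := HV_submod w' hw0 W {4} {0} {2} {0, 2, 4} {2, 4} {0, 2} (by decide) (by decide) (by decide)
  have s5 := HV_submod w' hw0 W {4} {0} {3} {0, 3, 4} {3, 4} {0, 3} (by decide) (by decide) (by decide)
  have s6 := HV_submod w' hw0 W {4} {1} {2} {1, 2, 4} {2, 4} {1, 2} (by decide) (by decide) (by decide)
  have s7 := HV_submod w' hw0 W {4} {1} {3} {1, 3, 4} {3, 4} {1, 3} (by decide) (by decide) (by decide)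
  have s8 := HV_submod w' hw0 W {4} {2, 3} {0, 1} {0, 1, 2, 3, 4} {0, 1, 4} {0, 1, 2, 3}
    (by decide) (by decide) (by decide)
  have s9 := HV_submod w' hw0 W {4} {1} {0, 2, 3} {0, 1, 2, 3, 4} {0, 2, 3, 4} {0, 1, 2, 3}
    (by decide) (by decide) (by decide)
  have s10 := HV_submod w' hw0 W {4} {0} {1, 2, 3} {0, 1, 2, 3, 4} {1, 2, 3, 4} {0, 1, 2, 3}
    (by decide) (by decide) (by decide)
  rw [e0, e1] at *
  simp only [e2, e3, e01, e02, e03, e12, e13, e23, e023, e123, e4, e24, e34, e234, e0123, eall]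
    at s1 s2 s3 s4 s5 s6 s7 s8 s9 s10
  linarith

end ZY

end Pool.Agent.Helper981.KP
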