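import Mathlib
import Pool.Agent.Helper981.KP.Main
import Pool.Agent.Helper981.KP.ZY

/-!
From the validity of an inequality for finite distributions to `Valid`.
-/

set_option autoImplicit false
open Finset

namespace Pool.Agent.Helper981.KP

/-- A linear information inequality in `n` variables: `∑_S lam S * H(ξ_S) ≥ 0` for all jointly
distributed random variables with values in a finite set. -/
def InfoIneq (n : ℕ) (lam : Finset (Fin n) → ℝ) : Prop :=
  ∀ m : ℕ, ∀ p : (Fin n → Fin (m+1)) → ℝ, (∀ z, 0 ≤ p z) → (∑ z, p z) = 1 →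
    0 ≤ ∑ S : Finset (Fin n), lam S * ∑ y : Fin n → Fin (m+1),
      (if ∀ i, i ∉ S → y i = 0 then
        Real.negMulLog (∑ z : Fin n → Fin (m+1), if (∀ i ∈ S, z i = y i) then p z else 0)
       else 0)

lemma lab_eq_iff (n : ℕ) (S : Finset (Fin n)) (z z' : ℕ) :
    lab n S z = lab n S z' ↔ ∀ i ∈ S, (Denumerable.ofNat (List ℕ) z).getD i.val 0 =
      (Denumerable.ofNat (List ℕ) z').getD i.val 0 := by
  unfold lab
  rw [Encodable.encode_inj, List.map_inj_left]
  constructor
  · intro h i hi
    exact h i (List.mem_filter.2 ⟨List.mem_finRange i, by simpa using hi⟩)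
  · intro h i hi
    exact h i (by simpa using (List.mem_filter.1 hi).2)

/-- entropy of the push-forward, in the `y`-indexed form -/
lemma ent_push {Ω : Type*} [Fintype Ω] {n m : ℕ} (Q : Ω → ℝ) (Y : Ω → Fin n → Fin (m+1))
    (S : Finset (Fin n)) {α : Type*} [DecidableEq α] (g : Ω → α)
    (hg : ∀ ω ω', g ω = g ω' ↔ ∀ i ∈ S, Y ω i = Y ω' i) :
    ∑ y : Fin n → Fin (m+1), (if ∀ i, i ∉ S → y i = 0 then
        Real.negMulLog (∑ z : Fin n → Fin (m+1), if (∀ i ∈ S, z i = y i) then
          (∑ ω, if Y ω = z then Q ω else 0) else 0) else 0) = Hf Q g := by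
  classical
  have hP : ∀ y : Fin n → Fin (m+1), (∑ z : Fin n → Fin (m+1), if (∀ i ∈ S, z i = y i) then
          (∑ ω, if Y ω = z then Q ω else 0) else 0) =
          ∑ ω, if (∀ i ∈ S, Y ω i = y i) then Q ω else 0 := by
    intro y
    calc (∑ z : Fin n → Fin (m+1), if (∀ i ∈ S, z i = y i) then
          (∑ ω, if Y ω = z then Q ω else 0) else 0)
        = ∑ z : Fin n → Fin (m+1), ∑ ω, (if Y ω = z then
            (if (∀ i ∈ S, z i = y i) then Q ω else 0) else 0) := by
          refine Finset.sum_congr rfl fun z _ => ?_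
          by_cases h : ∀ i ∈ S, z i = y i
          · simp only [if_pos h]
          · simp only [if_neg h, ite_self, Finset.sum_const_zero]
      _ = ∑ ω, ∑ z : Fin n → Fin (m+1), (if Y ω = z then
            (if (∀ i ∈ S, z i = y i) then Q ω else 0) else 0) := Finset.sum_comm
      _ = _ := by
          refine Finset.sum_congr rfl fun ω _ => ?_
          rw [Finset.sum_ite_eq]
          simp
  simp only [hP]
  set P : (Fin n → Fin (m+1)) → ℝ := fun y => ∑ ω, if (∀ i ∈ S, Y ω i = y i) then Q ω else 0 with hPdef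
  have h1 : ∀ y : Fin n → Fin (m+1), (if ∀ i, i ∉ S → y i = 0 then Real.negMulLog (P y) else 0) =
      ∑ ω, (if (∀ i, i ∉ S → y i = 0) ∧ (∀ i ∈ S, Y ω i = y i) then Q ω * (-Real.log (P y)) else 0) := by
    intro y
    by_cases h : ∀ i, i ∉ S → y i = 0
    · rw [if_pos h, Real.negMulLog, neg_mul_comm]
      conv_lhs => rw [hPdef]
      simp only
      rw [Finset.sum_mul]
      refine Finset.sum_congr rfl fun ω _ => ?_
      by_cases h2 : ∀ i ∈ S, Y ω i = y i
      · rw [if_pos h2, if_pos ⟨h, h2⟩]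
      · rw [if_neg h2, if_neg (fun h3 => h2 h3.2), zero_mul]
    · rw [if_neg h]
      symm
      refine Finset.sum_eq_zero fun ω _ => ?_
      rw [if_neg (fun h3 => h h3.1)]
  have h2 : ∀ y : Fin n → Fin (m+1), (if ∀ i, i ∉ S → y i = 0 then
      Real.negMulLog (∑ ω, if (∀ i ∈ S, Y ω i = y i) then Q ω else 0) else 0) =
      (if ∀ i, i ∉ S → y i = 0 then Real.negMulLog (P y) else 0) := fun y => rfl
  rw [Finset.sum_congr rfl fun y _ => (h2 y).trans (h1 y), Finset.sum_comm]
  unfold Hf
  refine Finset.sum_congr rfl fun ω _ => ?_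
  rw [Finset.sum_eq_single (fun i => if i ∈ S then Y ω i else 0)]
  · rw [if_pos]
    · congr 3
      rw [hPdef]
      unfold mg
      simp only
      refine Finset.sum_congr rfl fun ω' _ => ?_
      have : (∀ i ∈ S, Y ω' i = if i ∈ S then Y ω i else 0) ↔ g ω' = g ω := by
        rw [hg]
        constructor
        · intro h i hi; have := h i hi; rwa [if_pos hi] at this
        · intro h i hi; rw [if_pos hi]; exact h i hi
      simp only [this]
    · exact ⟨fun i hi => if_neg hi, fun i hi => (if_pos hi).symm⟩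
  · intro y _ hy
    rw [if_neg]
    rintro ⟨h3, h4⟩
    apply hy
    funext i
    by_cases hi : i ∈ S
    · rw [if_pos hi, h4 i hi]
    · rw [if_neg hi, h3 i hi]
  · intro h; exact absurd (Finset.mem_univ _) h

theorem valid_of_infoIneq (n : ℕ) (lp ln : Finset (Fin n) → ℕ)
    (h : InfoIneq n (fun S => (lp S : ℝ) - ln S)) : Valid n lp ln := by
  classical
  intro N z Q hQ hQ1
  set X : Fin N → Fin n → ℕ := fun ω i => (Denumerable.ofNat (List ℕ) (z ω)).getD i.val 0 with hX
  set m : ℕ := ∑ ω, ∑ i, X ω i with hm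
  have hlt : ∀ ω i, X ω i < m + 1 := by
    intro ω i
    have h1 : X ω i ≤ ∑ i, X ω i := Finset.single_le_sum (f := fun i => X ω i)
      (fun _ _ => Nat.zero_le _) (Finset.mem_univ i)
    have h2 : ∑ i, X ω i ≤ m := Finset.single_le_sum (f := fun ω => ∑ i, X ω i)
      (fun _ _ => Nat.zero_le _) (Finset.mem_univ ω)
    omega
  set Y : Fin N → Fin n → Fin (m+1) := fun ω i => ⟨X ω i, hlt ω i⟩ with hY
  have hh := h m (fun v => ∑ ω, if Y ω = v then Q ω else 0)
    (fun v => Finset.sum_nonneg fun ω _ => by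
      have := (hQ ω).le
      split_ifs <;> simp [this])
    (by
      rw [Finset.sum_comm]
      simp only [Finset.sum_ite_eq, Finset.mem_univ, if_true]
      exact hQ1)
  refine le_of_le_of_eq hh ?_
  refine Finset.sum_congr rfl fun S _ => ?_
  congr 1
  exact ent_push Q Y S (fun i => lab n S (z i)) (by
    intro ω ω'
    rw [lab_eq_iff]
    simp only [hY, hX, Fin.mk.injEq])

/-- integer coefficients -/
theorem main_int_coeff {K : ℕ → ℕ} (hK : IsKP K) (n : ℕ) (lam : Finset (Fin n) → ℤ)
    (h : InfoIneq n (fun S => (lam S : ℝ))) : ∃ c : ℝ, ∀ x : Fin n → ℕ,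
    -c ≤ ∑ S, (lam S : ℝ) * (K (sub n S x) : ℝ) := by
  have e : ∀ S, (((lam S).toNat : ℕ) : ℝ) - (((-lam S).toNat : ℕ) : ℝ) = (lam S : ℝ) := by
    intro S
    have : (((lam S).toNat : ℕ) : ℤ) - (((-lam S).toNat : ℕ) : ℤ) = lam S := by omega
    exact_mod_cast this
  have hv : Valid n (fun S => (lam S).toNat) (fun S => (-lam S).toNat) := by
    apply valid_of_infoIneq
    simp only [e]
    exact h
  obtain ⟨c, hc⟩ := main_int n _ _ hK hv
  refine ⟨c, fun x => ?_⟩
  have := hc x
  simp only [e] at this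
  exact this

/-- rational coefficients -/
theorem main_rat_coeff {K : ℕ → ℕ} (hK : IsKP K) (n : ℕ) (lam : Finset (Fin n) → ℚ)
    (h : InfoIneq n (fun S => (lam S : ℝ))) : ∃ c : ℝ, ∀ x : Fin n → ℕ,
    -c ≤ ∑ S, (lam S : ℝ) * (K (sub n S x) : ℝ) := by
  classical
  -- common denominator
  set D : ℕ := ∏ S, (lam S).den with hD
  have hDpos : 0 < D := Finset.prod_pos fun S _ => (lam S).den_pos
  have hint : ∀ S, ∃ k : ℤ, (k : ℚ) = D * lam S := by
    intro S
    obtain ⟨e, he⟩ : (lam S).den ∣ D := Finset.dvd_prod_of_mem _ (Finset.mem_univ S)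
    refine ⟨e * (lam S).num, ?_⟩
    rw [he]
    push_cast
    have := Rat.mul_den_eq_num (lam S)
    rw [← this]
    ring
  choose L hL using hint
  have hLr : ∀ S, (L S : ℝ) = D * (lam S : ℝ) := by
    intro S
    have := hL S
    exact_mod_cast congrArg (fun q : ℚ => (q : ℝ)) this
  have hI : InfoIneq n (fun S => (L S : ℝ)) := by
    intro m p hp hp1
    have := h m p hp hp1
    simp only [hLr, mul_assoc, ← Finset.mul_sum]
    exact mul_nonneg (Nat.cast_nonneg _) this
  obtain ⟨c, hc⟩ := main_int_coeff hK n L hI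
  refine ⟨c / D, fun x => ?_⟩
  have := hc x
  simp only [hLr, mul_assoc, ← Finset.mul_sum] at this
  have hDr : (0:ℝ) < D := by exact_mod_cast hDpos
  have h3 : -(c / D) = -c / D := by ring
  rw [h3, div_le_iff₀ hDr]
  linarith

end Pool.Agent.Helper981.KP
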