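import Mathlib
import Pool.Agent.Helper981.KP.Main

/-!
Prefix complexity by optimal machines with a self-delimiting domain, and its equivalence with `IsKP`.
-/

set_option autoImplicit false
open Finset

namespace Pool.Agent.Helper981.KP

/-- A machine on binary strings which is partial computable and whose domain is prefix-free:
no program in the domain is a proper initial segment of another one. -/
def PFMachine (U : List Bool →. List Bool) : Prop :=
  Partrec U ∧ ∀ p q : List Bool, (U p).Dom → (U q).Dom → p <+: q → p = q

/-- complexity with respect to `U`: the least length of a program for `x` -/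
noncomputable def KPof (U : List Bool →. List Bool) (x : List Bool) : ℕ :=
  sInf {l : ℕ | ∃ p : List Bool, p.length = l ∧ x ∈ U p}

/-- `U` is an optimal prefix-free machine -/
def OptimalPF (U : List Bool →. List Bool) : Prop :=
  PFMachine U ∧ ∀ V : List Bool →. List Bool, PFMachine V →
    ∃ c : ℕ, ∀ p x : List Bool, x ∈ V p → ∃ q : List Bool, x ∈ U q ∧ q.length ≤ p.length + c

lemma KPof_le {U : List Bool →. List Bool} {p x : List Bool} (h : x ∈ U p) :
    KPof U x ≤ p.length := Nat.sInf_le ⟨p, rfl, h⟩

lemma KPof_spec {U : List Bool →. List Bool} {x : List Bool} (h : ∃ p, x ∈ U p) :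
    ∃ p, x ∈ U p ∧ p.length = KPof U x := by
  obtain ⟨p, hp⟩ := h
  have : KPof U x ∈ {l : ℕ | ∃ p : List Bool, p.length = l ∧ x ∈ U p} :=
    Nat.sInf_mem ⟨p.length, p, rfl, hp⟩
  obtain ⟨q, hq, hx⟩ := this
  exact ⟨q, hx, hq⟩

/-! ### unary strings -/

/-- the string `1^u` -/
def ones (u : ℕ) : List Bool := (List.range u).map fun _ => true

lemma length_ones (u : ℕ) : (ones u).length = u := by simp [ones]

lemma ones_inj {u v : ℕ} (h : ones u = ones v) : u = v := by
  have := congrArg List.length h
  simpa [length_ones] using this

lemma primrec_ones : Primrec ones :=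
  Primrec.list_map Primrec.list_range (Primrec.const true).to₂

/-- the string `1^m 0` -/
def una (m : ℕ) : List Bool := ones m ++ [false]

lemma length_una (m : ℕ) : (una m).length = m + 1 := by simp [una, length_ones]

lemma primrec_una : Primrec una :=
  Primrec.list_append.comp primrec_ones (Primrec.const [false])

lemma una_get_lt {m i : ℕ} (h : i < m) : (una m)[i]? = some true := by
  unfold una
  rw [List.getElem?_append_left (by rw [length_ones]; exact h)]
  simp [ones, h]

lemma una_get_eq (m : ℕ) : (una m)[m]? = some false := by
  unfold una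
  rw [List.getElem?_append_right (by rw [length_ones])]
  simp [length_ones]

lemma una_pf {m m' : ℕ} (h : una m <+: una m') : m = m' := by
  have hl := h.length_le
  rw [length_una, length_una] at hl
  rcases Nat.lt_or_ge m m' with h1 | h1
  · exfalso
    have h2 : (una m)[m]? = (una m')[m]? := by
      obtain ⟨r, hr⟩ := h
      rw [← hr, List.getElem?_append_left (by rw [length_una]; omega)]
    rw [una_get_eq, una_get_lt h1] at h2
    simp at h2
  · omega

/-- the basic machine: `1^m 0` describes the string number `m` -/
def V0 (p : List Bool) : Part (List Bool) :=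
  ((if p = una (p.length - 1) then (Encodable.decode (p.length - 1) : Option (List Bool)) else none :
    Option (List Bool)) : Part (List Bool))

lemma V0_pf : PFMachine V0 := by
  constructor
  · have h1 : Primrec (fun p : List Bool => p.length - 1) :=
      Primrec.nat_sub.comp Primrec.list_length (Primrec.const 1)
    have h2 : Primrec (fun p : List Bool => (if p = una (p.length - 1) then
        (Encodable.decode (p.length - 1) : Option (List Bool)) else none : Option (List Bool))) := by
      refine Primrec.ite ?_ ?_ (Primrec.const none)
      · exact Primrec.eq.comp Primrec.id (primrec_una.comp h1)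
      · exact Primrec.decode.comp h1
    exact h2.to_comp.ofOption
  · intro p q hp hq hpq
    have key : ∀ p : List Bool, (V0 p).Dom → p = una (p.length - 1) := by
      intro p hp
      by_contra h
      unfold V0 at hp
      rw [if_neg h] at hp
      exact hp
    have e1 := key p hp
    have e2 := key q hq
    rw [e1, e2] at hpq
    rw [e1, e2, una_pf hpq]

lemma V0_mem (x : List Bool) : x ∈ V0 (una (Encodable.encode x)) := by
  unfold V0
  have e : (una (Encodable.encode x)).length - 1 = Encodable.encode x := by
    rw [length_una]; rfl
  rw [e, if_pos rfl, Encodable.encodek]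
  simp

section opt
variable {U : List Bool →. List Bool} (hU : OptimalPF U)
include hU

lemma opt_total (x : List Bool) : ∃ p, x ∈ U p := by
  obtain ⟨c, hc⟩ := hU.2 V0 V0_pf
  obtain ⟨q, hq, _⟩ := hc _ x (V0_mem x)
  exact ⟨q, hq⟩

/-- invariance under partial computable maps -/
lemma KPof_comp (h : List Bool →. List Bool) (hh : Partrec h) :
    ∃ c : ℕ, ∀ x y : List Bool, y ∈ h x → KPof U y ≤ KPof U x + c := by
  have hV : PFMachine (fun p => (U p).bind h) := by
    constructor
    · exact hU.1.1.bind (hh.comp Computable.snd).to₂
    · intro p q hp hq hpq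
      exact hU.1.2 p q (Part.Dom.of_bind hp) (Part.Dom.of_bind hq) hpq
  obtain ⟨c, hc⟩ := hU.2 _ hV
  refine ⟨c, fun x y hy => ?_⟩
  obtain ⟨p, hp, hpl⟩ := KPof_spec (opt_total hU x)
  obtain ⟨q, hq, hql⟩ := hc p y (Part.mem_bind hp hy)
  exact (KPof_le hq).trans (by omega)

/-- upper semicomputability of `u ↦ KPof U (1^u)` -/
lemma usc_KPof : USC (fun u => KPof U (ones u)) := by
  obtain ⟨cU, hcU⟩ := Nat.Partrec.Code.exists_code.1 hU.1.1
  obtain ⟨c, hc⟩ := hU.2 V0 V0_pf
  set B : ℕ → ℕ := fun u => Encodable.encode (ones u) + 1 + c with hB
  have hBle : ∀ u, KPof U (ones u) ≤ B u := by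
    intro u
    obtain ⟨q, hq, hl⟩ := hc _ _ (V0_mem (ones u))
    rw [length_una] at hl
    exact (KPof_le hq).trans hl
  set f : ℕ → ℕ → ℕ := fun u t =>
    if Nat.Partrec.Code.evaln t.unpair.2 cU t.unpair.1 = some (Encodable.encode (ones u)) then
      min (((Encodable.decode t.unpair.1 : Option (List Bool)).getD []).length) (B u) else B u with hf
  have hmem : ∀ (p x : List Bool), Encodable.encode x ∈ cU.eval (Encodable.encode p) ↔ x ∈ U p := by
    intro p x
    rw [hcU]
    simp only [Encodable.encodek, Part.coe_some, Part.bind_some, Part.mem_map_iff]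
    constructor
    · rintro ⟨y, hy, he⟩
      rwa [← Encodable.encode_injective he]
    · intro h; exact ⟨x, h, rfl⟩
  refine ⟨f, ?_, ?_⟩
  · have p1 : Primrec (fun p : ℕ × ℕ => p.2.unpair.1) :=
      Primrec.fst.comp (Primrec.unpair.comp Primrec.snd)
    have p2 : Primrec (fun p : ℕ × ℕ => p.2.unpair.2) :=
      Primrec.snd.comp (Primrec.unpair.comp Primrec.snd)
    have hBp : Primrec B := Primrec.nat_add.comp
      (Primrec.succ.comp (Primrec.encode.comp primrec_ones)) (Primrec.const c)
    have hE : Primrec (fun p : ℕ × ℕ => Nat.Partrec.Code.evaln p.2.unpair.2 cU p.2.unpair.1) :=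
      Nat.Partrec.Code.primrec_evaln.comp (Primrec.pair (Primrec.pair p2 (Primrec.const cU)) p1)
    refine Primrec.to_comp ?_
    refine Primrec.ite ?_ ?_ (hBp.comp Primrec.fst)
    · exact Primrec.eq.comp hE
        (Primrec.option_some.comp (Primrec.encode.comp (primrec_ones.comp Primrec.fst)))
    · refine Primrec.nat_min.comp ?_ (hBp.comp Primrec.fst)
      exact Primrec.list_length.comp
        (Primrec.option_getD.comp (Primrec.decode.comp p1) (Primrec.const []))
  · intro u
    constructor
    · intro t
      simp only [hf]
      split_ifs with h1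
      · refine le_min ?_ (hBle u)
        have h2 : Encodable.encode (ones u) ∈ cU.eval t.unpair.1 :=
          Nat.Partrec.Code.evaln_sound (by rw [h1]; rfl)
        rw [hcU] at h2
        simp only [Part.mem_bind_iff, Part.mem_map_iff, Part.mem_ofOption] at h2
        obtain ⟨p, hp, y, hy, he⟩ := h2
        have hy' : y = ones u := Encodable.encode_injective he
        rw [Option.mem_def] at hp
        rw [hp]
        exact KPof_le (hy' ▸ hy)
      · exact hBle u
    · obtain ⟨p, hp, hpl⟩ := KPof_spec (opt_total hU (ones u))
      obtain ⟨s, hs⟩ := Nat.Partrec.Code.evaln_complete.1 ((hmem p (ones u)).2 hp)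
      refine ⟨Nat.pair (Encodable.encode p) s, ?_⟩
      simp only [hf, Nat.unpair_pair]
      rw [if_pos (Option.mem_def.1 hs), Encodable.encodek]
      simp only [Option.getD_some]
      rw [hpl]
      exact min_eq_left (hBle u)

end opt

/-! ### Kraft's inequality -/

lemma kraft_pf (P : Finset (List Bool)) (hP : ∀ p ∈ P, ∀ q ∈ P, p <+: q → p = q) :
    ∑ p ∈ P, ((1:ℝ)/2)^p.length ≤ 1 := by
  by_cases h0 : [] ∈ P
  · have : P = {[]} := by
      ext q
      rw [Finset.mem_singleton]
      constructor
      · intro hq; exact (hP [] h0 q hq (List.nil_prefix)).symm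
      · rintro rfl; exact h0
    rw [this]; simp
  · have hud : InformationTheory.UniquelyDecodable (P : Set (List Bool)) := by
      intro L₁
      induction L₁ with
      | nil =>
        intro L₂ _ h2 he
        cases L₂ with
        | nil => rfl
        | cons w L₂ =>
          exfalso
          have hw := h2 w List.mem_cons_self
          simp only [List.flatten_nil, List.flatten_cons] at he
          have : w = [] := (List.append_eq_nil_iff.1 he.symm).1
          exact h0 (this ▸ hw)
      | cons v L₁ ih =>
        intro L₂ h1 h2 he
        cases L₂ with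
        | nil =>
          exfalso
          have hv := h1 v List.mem_cons_self
          simp only [List.flatten_nil, List.flatten_cons] at he
          have : v = [] := (List.append_eq_nil_iff.1 he).1
          exact h0 (this ▸ hv)
        | cons w L₂ =>
          have hv := h1 v List.mem_cons_self
          have hw := h2 w List.mem_cons_self
          simp only [List.flatten_cons] at he
          have hvw : v = w := by
            rcases List.prefix_or_prefix_of_prefix (List.prefix_append v L₁.flatten)
              (he ▸ List.prefix_append w L₂.flatten) with h | h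
            · exact hP v hv w hw h
            · exact (hP w hw v hv h).symm
          subst hvw
          rw [ih L₂ (fun x hx => h1 x (List.mem_cons_of_mem _ hx))
            (fun x hx => h2 x (List.mem_cons_of_mem _ hx)) (List.append_cancel_left he)]
    have := InformationTheory.kraft_mcmillan_inequality hud
    simpa using this

lemma kraft_KPof {U : List Bool →. List Bool} (hU : OptimalPF U) :
    Kraft (fun u => KPof U (ones u)) := by
  classical
  apply kraft_of_finite
  intro W
  have h := fun u => KPof_spec (opt_total hU (ones u))
  choose p hp hpl using h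
  have hinj : Function.Injective p := by
    intro a b hab
    have h1 := hp a
    have h2 := hp b
    rw [hab] at h1
    exact ones_inj (Part.mem_unique h1 h2)
  have e : ∑ u ∈ W, ((1:ℝ)/2)^(KPof U (ones u)) = ∑ q ∈ W.image p, ((1:ℝ)/2)^q.length := by
    rw [Finset.sum_image (fun a _ b _ h => hinj h)]
    refine Finset.sum_congr rfl fun u _ => ?_
    rw [hpl]
  rw [e]
  apply kraft_pf
  intro a ha b hb hab
  rw [Finset.mem_image] at ha hb
  obtain ⟨u, _, rfl⟩ := ha
  obtain ⟨v, _, rfl⟩ := hb
  exact hU.1.2 _ _ (Part.dom_iff_mem.2 ⟨_, hp u⟩) (Part.dom_iff_mem.2 ⟨_, hp v⟩) hab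

end Pool.Agent.Helper981.KP
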