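import Mathlib
import Pool.Agent.Helper981.KP.Machine

/-!
The Kraft–Chaitin construction, by intervals.
-/

set_option autoImplicit false
open Finset

namespace Pool.Agent.Helper981.KP

/-- numerical value of a binary string, most significant digit first -/
def bval (p : List Bool) : ℕ := p.foldl (fun a b => 2 * a + (if b = true then 1 else 0)) 0

lemma bval_snoc (p : List Bool) (b : Bool) :
    bval (p ++ [b]) = 2 * bval p + (if b = true then 1 else 0) := by
  simp [bval, List.foldl_append]

lemma bval_append (p r : List Bool) : bval (p ++ r) = bval p * 2^r.length + bval r := by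
  induction r using List.reverseRecOn with
  | nil => simp [bval]
  | append_singleton r b ih =>
    rw [← List.append_assoc, bval_snoc, bval_snoc, ih, List.length_append, List.length_singleton,
      pow_succ]
    ring

lemma bval_lt (r : List Bool) : bval r < 2^r.length := by
  induction r using List.reverseRecOn with
  | nil => simp [bval]
  | append_singleton r b ih =>
    rw [bval_snoc, List.length_append, List.length_singleton, pow_succ]
    split_ifs <;> omega

lemma exists_bval (L : ℕ) : ∀ m < 2^L, ∃ p : List Bool, p.length = L ∧ bval p = m := by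
  induction L with
  | zero =>
    intro m hm
    exact ⟨[], rfl, by simp [bval] at *; omega⟩
  | succ L ih =>
    intro m hm
    rw [pow_succ] at hm
    obtain ⟨p, hp, hv⟩ := ih (m / 2) (by omega)
    refine ⟨p ++ [decide (m % 2 = 1)], by simp [hp], ?_⟩
    rw [bval_snoc, hv]
    by_cases h : m % 2 = 1
    · simp [h]; omega
    · simp [h]; omega

lemma primrec_bval : Primrec bval := by
  unfold bval
  refine Primrec.list_foldl (f := fun p : List Bool => p) (g := fun _ => 0)
    (h := fun _ q => 2 * q.1 + (if q.2 = true then 1 else 0)) Primrec.id (Primrec.const 0) ?_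
  refine Primrec.nat_add.comp (Primrec.nat_mul.comp (Primrec.const 2) (Primrec.fst.comp Primrec.snd)) ?_
  exact Primrec.ite (Primrec.eq.comp (Primrec.snd.comp Primrec.snd) (Primrec.const true))
    (Primrec.const 1) (Primrec.const 0)

/-- integer total mass in units `2^{-Ex s}` -/
def isum (s : List (ℕ × ℕ)) : ℕ := (s.map fun q => 2^(Ex s - q.2)).sum

lemma isum_cast (s : List (ℕ × ℕ)) : (isum s : ℝ) = tot s * 2^(Ex s) := by
  have key : ∀ (E : ℕ) (l : List (ℕ × ℕ)), (∀ q ∈ l, q.2 ≤ E) →
      (((l.map fun q => 2^(E - q.2)).sum : ℕ) : ℝ) = (l.map fun q => (1/2 : ℝ)^q.2).sum * 2^E := by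
    intro E l
    induction l with
    | nil => intro _; simp
    | cons q l ih =>
      intro h
      have ih' := ih fun q' hq' => h q' (List.mem_cons_of_mem _ hq')
      have hq := h q List.mem_cons_self
      simp only [List.map_cons, List.sum_cons, Nat.cast_add, ih', add_mul]
      congr 1
      push_cast
      have : (2:ℝ)^E = 2^(E - q.2) * 2^q.2 := by rw [← pow_add, Nat.sub_add_cancel hq]
      rw [this, mul_comm ((2:ℝ)^(E - q.2)), ← mul_assoc, ← mul_pow]
      norm_num
  exact key (Ex s) s fun q hq => le_Ex hq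

lemma primrec_isum : Primrec isum := by
  unfold isum
  refine primrec_list_sum.comp ?_
  refine Primrec.list_map (f := fun s : List (ℕ × ℕ) => s)
    (g := fun s q => 2^(Ex s - q.2)) Primrec.id ?_
  exact primrec_pow.comp (Primrec.const 2)
    (Primrec.nat_sub.comp (primrec_Ex.comp Primrec.fst) (Primrec.snd.comp Primrec.snd))

/-- all requests before number `i` -/
def pre (f : ℕ → ℕ → ℕ) (i : ℕ) : List (ℕ × ℕ) := Nat.rec [] (fun j acc => inp f j ++ acc) i

lemma pre_succ (f : ℕ → ℕ → ℕ) (i : ℕ) : pre f (i+1) = inp f i ++ pre f i := rfl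

lemma computable_pre {f : ℕ → ℕ → ℕ} (hf : Computable₂ f) : Computable (pre f) := by
  unfold pre
  refine Computable.nat_rec (f := fun i : ℕ => i) (g := fun _ => ([] : List (ℕ × ℕ)))
    (h := fun _ p => inp f p.1 ++ p.2) Computable.id (Computable.const _) ?_
  exact (Primrec.list_append.to_comp).comp
    ((computable_inp hf).comp (Computable.fst.comp Computable.snd))
    (Computable.snd.comp Computable.snd)

lemma tot_pre (f : ℕ → ℕ → ℕ) (i : ℕ) : tot (pre f i) = ∑ j ∈ Finset.range i, tot (inp f j) := by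
  induction i with
  | zero => simp [pre, tot]
  | succ i ih => rw [pre_succ, tot_append, ih, Finset.sum_range_succ]; ring

/-- index of the dyadic interval of length `2^{-(k+3)}` assigned to request `i` -/
def midx (s : List (ℕ × ℕ)) (k : ℕ) : ℕ := (isum s * 2^(k+1) + 2^(Ex s) - 1) / 2^(Ex s)

lemma midx_lower (s : List (ℕ × ℕ)) (k : ℕ) : tot s / 4 ≤ (midx s k : ℝ) / 2^(k+3) := by
  have h1 : isum s * 2^(k+1) ≤ midx s k * 2^(Ex s) := by
    unfold midx
    have hp : 0 < 2^(Ex s) := by positivity
    have := Nat.div_add_mod (isum s * 2^(k+1) + 2^(Ex s) - 1) (2^(Ex s))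
    have h2 := Nat.mod_lt (isum s * 2^(k+1) + 2^(Ex s) - 1) hp
    have h3 : (isum s * 2^(k+1) + 2^(Ex s) - 1) / 2^(Ex s) * 2^(Ex s) =
      2^(Ex s) * ((isum s * 2^(k+1) + 2^(Ex s) - 1) / 2^(Ex s)) := Nat.mul_comm _ _
    omega
  have h2 : (isum s : ℝ) * 2^(k+1) ≤ midx s k * 2^(Ex s) := by exact_mod_cast h1
  rw [isum_cast] at h2
  have hE : (0:ℝ) < 2^(Ex s) := by positivity
  have h3 : tot s * 2^(k+1) ≤ midx s k := by
    have : (tot s * 2^(k+1)) * 2^(Ex s) ≤ midx s k * 2^(Ex s) := by linarith
    exact le_of_mul_le_mul_right this hE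
  rw [div_le_div_iff₀ (by norm_num) (by positivity)]
  have h4 : (2:ℝ)^(k+3) = 2^(k+1) * 4 := by rw [pow_succ, pow_succ]; ring
  rw [h4]
  nlinarith

lemma midx_upper (s : List (ℕ × ℕ)) (k : ℕ) :
    ((midx s k : ℝ) + 1) / 2^(k+3) ≤ tot s / 4 + (1/2 : ℝ)^k / 4 := by
  have hp : 0 < 2^(Ex s) := by positivity
  have h1 : midx s k * 2^(Ex s) ≤ isum s * 2^(k+1) + 2^(Ex s) := by
    unfold midx
    have := Nat.div_mul_le_self (isum s * 2^(k+1) + 2^(Ex s) - 1) (2^(Ex s))
    omega
  have h2 : (midx s k : ℝ) * 2^(Ex s) ≤ isum s * 2^(k+1) + 2^(Ex s) := by exact_mod_cast h1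
  rw [isum_cast] at h2
  have hE : (0:ℝ) < 2^(Ex s) := by positivity
  have h3 : (midx s k : ℝ) ≤ tot s * 2^(k+1) + 1 := by
    have : (midx s k : ℝ) * 2^(Ex s) ≤ (tot s * 2^(k+1) + 1) * 2^(Ex s) := by linarith
    exact le_of_mul_le_mul_right this hE
  rw [div_le_iff₀ (by positivity)]
  have h4 : (2:ℝ)^(k+3) = 2^(k+1) * 4 := by rw [pow_succ, pow_succ]; ring
  have h5 : (1/2 : ℝ)^k * 2^(k+1) = 2 := by
    rw [pow_succ, ← mul_assoc, ← mul_pow]; norm_num
  rw [h4]
  nlinarith

/-- the condition that `p` is the codeword of request `i` -/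
def kcond (f : ℕ → ℕ → ℕ) (p : List Bool) (i : ℕ) : Bool :=
  decide ((inp f i).length ≠ 0) && (decide (p.length = (inp f i).headI.2 + 3) &&
    decide (bval p = midx (pre f i) (inp f i).headI.2))

lemma computable_kcond {f : ℕ → ℕ → ℕ} (hf : Computable₂ f) :
    Computable₂ (fun (p : List Bool) (i : ℕ) => kcond f p i) := by
  have hinp : Computable (fun x : List Bool × ℕ => inp f x.2) := (computable_inp hf).comp Computable.snd
  have hpre : Computable (fun x : List Bool × ℕ => pre f x.2) := (computable_pre hf).comp Computable.snd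
  have hk : Computable (fun x : List Bool × ℕ => (inp f x.2).headI.2) :=
    Computable.snd.comp (Primrec.list_headI.to_comp.comp hinp)
  have hmidx : Primrec₂ midx := by
    unfold midx
    refine Primrec.nat_div.comp ?_ ?_
    · refine Primrec.nat_sub.comp (Primrec.nat_add.comp (Primrec.nat_mul.comp
        (primrec_isum.comp Primrec.fst) (primrec_pow.comp (Primrec.const 2)
          (Primrec.succ.comp Primrec.snd))) ?_) (Primrec.const 1)
      exact primrec_pow.comp (Primrec.const 2) (primrec_Ex.comp Primrec.fst)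
    · exact primrec_pow.comp (Primrec.const 2) (primrec_Ex.comp Primrec.fst)
  have c1 : Computable (fun x : List Bool × ℕ => decide ((inp f x.2).length ≠ 0)) := by
    have := (PrimrecPred.not (Primrec.eq.comp (Primrec.list_length (α := ℕ × ℕ)) (Primrec.const 0))).decide
    exact this.to_comp.comp hinp
  have c2 : Computable (fun x : List Bool × ℕ => decide (x.1.length = (inp f x.2).headI.2 + 3)) :=
    (Primrec.eq.decide.to_comp).comp (Primrec.list_length.to_comp.comp Computable.fst)
      ((Primrec.nat_add.to_comp).comp hk (Computable.const 3))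
  have c3 : Computable (fun x : List Bool × ℕ =>
      decide (bval x.1 = midx (pre f x.2) (inp f x.2).headI.2)) :=
    (Primrec.eq.decide.to_comp).comp (primrec_bval.to_comp.comp Computable.fst)
      (hmidx.to_comp.comp hpre hk)
  exact (Primrec.and.to_comp).comp c1 ((Primrec.and.to_comp).comp c2 c3)

/-- the Kraft–Chaitin machine -/
def VKC (f : ℕ → ℕ → ℕ) (p : List Bool) : Part (List Bool) :=
  (Nat.rfind (fun i => Part.some (kcond f p i))).map (fun i => ones ((inp f i).headI.1))

section KC
variable {K' : ℕ → ℕ} {f : ℕ → ℕ → ℕ} (hf : Computable₂ f)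
  (hfK : ∀ x, (∀ t, K' x ≤ f x t) ∧ ∃ t, f x t = K' x) (hkr : Kraft K')

lemma kcond_interval {p : List Bool} {i : ℕ} (h : kcond f p i = true) :
    tot (pre f i) / 4 ≤ (bval p : ℝ) / 2^p.length ∧
      ((bval p : ℝ) + 1) / 2^p.length ≤ tot (pre f (i+1)) / 4 := by
  unfold kcond at h
  simp only [Bool.and_eq_true, decide_eq_true_eq] at h
  obtain ⟨h1, h2, h3⟩ := h
  have hi : tot (pre f (i+1)) = tot (pre f i) + (1/2 : ℝ)^((inp f i).headI.2) := by
    rw [pre_succ, tot_append]
    rcases inp_cases f i with h0 | ⟨q, hq⟩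
    · rw [h0] at h1; simp at h1
    · rw [hq]; simp [tot]; ring
  rw [h2, h3, hi]
  constructor
  · exact midx_lower _ _
  · have := midx_upper (pre f i) (inp f i).headI.2
    linarith

lemma tot_pre_mono {i j : ℕ} (h : i ≤ j) : tot (pre f i) ≤ tot (pre f j) := by
  rw [tot_pre, tot_pre]
  exact Finset.sum_le_sum_of_subset_of_nonneg (Finset.range_mono h) fun _ _ _ => tot_nonneg _

lemma kcond_unique {p q : List Bool} (hpq : p <+: q) {i j : ℕ} (hi : kcond f p i = true)
    (hj : kcond f q j = true) : i = j := by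
  obtain ⟨h1, h2⟩ := kcond_interval hi
  obtain ⟨h3, h4⟩ := kcond_interval hj
  obtain ⟨r, rfl⟩ := hpq
  have hr : (0:ℝ) < 2^r.length := by positivity
  have hpl : (0:ℝ) < 2^p.length := by positivity
  have e : ((bval (p ++ r) : ℕ) : ℝ) / 2^(p ++ r).length =
      (bval p : ℝ) / 2^p.length + (bval r : ℝ) / (2^p.length * 2^r.length) := by
    rw [bval_append, List.length_append, pow_add]
    push_cast
    field_simp
  have hlow : (bval p : ℝ) / 2^p.length ≤ ((bval (p ++ r) : ℕ) : ℝ) / 2^(p ++ r).length := by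
    rw [e]
    have : (0:ℝ) ≤ (bval r : ℝ) / (2^p.length * 2^r.length) := by positivity
    linarith
  have hup : ((bval (p ++ r) : ℕ) : ℝ) / 2^(p ++ r).length < ((bval p : ℝ) + 1) / 2^p.length := by
    rw [e, add_div]
    have h5 : (bval r : ℝ) < 2^r.length := by exact_mod_cast bval_lt r
    have : (bval r : ℝ) / (2^p.length * 2^r.length) < 1 / 2^p.length := by
      rw [div_lt_div_iff₀ (by positivity) hpl]
      nlinarith
    linarith
  have hpos : (0:ℝ) < 1 / 2^(p ++ r).length := by positivity
  rw [add_div] at h4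
  rcases lt_trichotomy i j with h | h | h
  · exfalso
    have := tot_pre_mono (f := f) (show i + 1 ≤ j from h)
    linarith
  · exact h
  · exfalso
    have := tot_pre_mono (f := f) (show j + 1 ≤ i from h)
    linarith

include hf in
lemma VKC_pf : PFMachine (VKC f) := by
  constructor
  · have h1 : Partrec (fun p : List Bool => Nat.rfind (fun i => Part.some (kcond f p i))) :=
      Partrec.rfind (computable_kcond hf).partrec₂
    refine h1.map ?_
    exact (primrec_ones.to_comp.comp (Computable.fst.comp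
      (Primrec.list_headI.to_comp.comp ((computable_inp hf).comp Computable.snd)))).to₂
  · intro p q hp hq hpq
    have key : ∀ p : List Bool, (VKC f p).Dom → ∃ i, kcond f p i = true := by
      intro p hp
      have hd : (Nat.rfind (fun i => Part.some (kcond f p i))).Dom := hp
      obtain ⟨i, hi⟩ := Part.dom_iff_mem.1 hd
      have := Nat.rfind_spec hi
      exact ⟨i, (Part.mem_some_iff.1 this).symm⟩
    obtain ⟨i, hi⟩ := key p hp
    obtain ⟨j, hj⟩ := key q hq
    have hij := kcond_unique hpq hi hj
    subst hij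
    unfold kcond at hi hj
    simp only [Bool.and_eq_true, decide_eq_true_eq] at hi hj
    exact hpq.eq_of_length (hi.2.1.trans hj.2.1.symm)

include hfK hkr in
lemma VKC_mem (z : ℕ) : ∃ p, ones z ∈ VKC f p ∧ p.length = K' z + 3 := by
  obtain ⟨i, hi⟩ := exists_input (f := f) (K := K') (fun x t => (hfK x).1 t)
    (fun x => (hfK x).2) z
  have hinp : inp f i = [(z, K' z)] := by
    rcases inp_cases f i with h0 | ⟨q, hq⟩
    · rw [h0] at hi; simp at hi
    · rw [hq] at hi ⊢
      rw [List.mem_singleton] at hi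
      rw [← hi]
  have hle := sum_inp_le (f := f) (K := K') (fun x t => (hfK x).1 t)
    (fun N => finite_of_kraft hkr _) (i+1)
  rw [← tot_pre, pre_succ, tot_append, hinp] at hle
  have htot : tot [(z, K' z)] = (1/2 : ℝ)^(K' z) := by simp [tot]
  rw [htot] at hle
  have hup := midx_upper (pre f i) (K' z)
  have hlt : midx (pre f i) (K' z) < 2^(K' z + 3) := by
    have h1 : ((midx (pre f i) (K' z) : ℝ) + 1) / 2^(K' z + 3) ≤ 1 := by linarith
    rw [div_le_one (by positivity)] at h1
    have : (midx (pre f i) (K' z) : ℝ) < 2^(K' z + 3) := by linarith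
    exact_mod_cast this
  obtain ⟨p, hpl, hpv⟩ := exists_bval (K' z + 3) _ hlt
  have hc : kcond f p i = true := by
    unfold kcond
    simp [hinp, hpl, hpv]
  refine ⟨p, ?_, hpl⟩
  unfold VKC
  obtain ⟨j, hj, _⟩ := Nat.rfind_min' (p := fun i => kcond f p i) hc
  have hj' : kcond f p j = true := (Part.mem_some_iff.1 (Nat.rfind_spec hj)).symm
  have hij : j = i := kcond_unique List.prefix_rfl hj' hc
  subst hij
  rw [Part.mem_map_iff]
  exact ⟨j, hj, by rw [hinp]; rfl⟩

end KC

/-- complexity with respect to an optimal machine (at unary strings) is a prefix complexity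
function in the sense of `IsKP` -/
theorem isKP_of_optimal {U : List Bool →. List Bool} (hU : OptimalPF U) :
    IsKP (fun u => KPof U (ones u)) := by
  refine ⟨usc_KPof hU, kraft_KPof hU, ?_⟩
  intro K' husc hkr
  obtain ⟨f, hf, hfK⟩ := husc
  obtain ⟨c, hc⟩ := hU.2 (VKC f) (VKC_pf hf)
  refine ⟨3 + c, fun x => ?_⟩
  obtain ⟨p, hp, hpl⟩ := VKC_mem hfK hkr x
  obtain ⟨q, hq, hql⟩ := hc p _ hp
  exact (KPof_le hq).trans (by omega)

end Pool.Agent.Helper981.KP
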