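import Mathlib
import Pool.Agent.Helper981.KP.Bridge

/-!
The Zhang–Yeung inequality for prefix complexity.
-/

set_option autoImplicit false
open Finset

namespace Pool.Agent.Helper981.KP

def zlp (S : Finset (Fin 4)) : ℕ :=
  (if S = {0, 2} then 3 else 0) + (if S = {0, 3} then 3 else 0) + (if S = {1, 2} then 1 else 0) +
  (if S = {1, 3} then 1 else 0) + (if S = {2, 3} then 3 else 0)

def zln (S : Finset (Fin 4)) : ℕ :=
  (if S = {0} then 1 else 0) + (if S = {2} then 2 else 0) + (if S = {3} then 2 else 0) +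
  (if S = {0, 1} then 1 else 0) + (if S = {0, 2, 3} then 4 else 0) + (if S = {1, 2, 3} then 1 else 0)

lemma zy_expand (F : Finset (Fin 4) → ℝ) : ∑ S, ((zlp S : ℝ) - zln S) * F S =
    3 * F {0, 2} + 3 * F {0, 3} + F {1, 2} + F {1, 3} + 3 * F {2, 3}
      - F {0} - 2 * F {2} - 2 * F {3} - F {0, 1} - 4 * F {0, 2, 3} - F {1, 2, 3} := by
  unfold zlp zln
  push_cast
  simp only [sub_mul, add_mul, ite_mul, zero_mul, Finset.sum_sub_distrib, Finset.sum_add_distrib,
    Finset.sum_ite_eq', Finset.mem_univ, if_true, one_mul]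
  ring

lemma zy_valid : Valid 4 zlp zln := by
  classical
  intro N z Q hQ hQ1
  set V : Fin 4 → Fin N → ℕ := fun j i => (Denumerable.ofNat (List ℕ) (z i)).getD j.val 0 with hV
  have hH : ∀ S : Finset (Fin 4), Hf Q (fun i => lab 4 S (z i)) = HV Q V S := by
    intro S
    rw [HV_eq Q V S (fun i => lab 4 S (z i))]
    intro ω ω'
    rw [lab_eq_iff]
  simp only [hH]
  rw [zy_expand]
  have := zhang_yeung Q (fun ω => (hQ ω).le) V
  linarith

theorem zy_KP {K : ℕ → ℕ} (hK : IsKP K) : ∃ c : ℝ, ∀ x₁ x₂ x₃ x₄ : ℕ,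
    2 * ((K (Encodable.encode [x₃]) : ℝ) + K (Encodable.encode [x₄]) - K (Encodable.encode [x₃, x₄])) ≤
      ((K (Encodable.encode [x₁]) : ℝ) + K (Encodable.encode [x₂]) - K (Encodable.encode [x₁, x₂])) +
      ((K (Encodable.encode [x₁]) : ℝ) + K (Encodable.encode [x₃, x₄])
        - K (Encodable.encode [x₁, x₃, x₄])) +
      3 * ((K (Encodable.encode [x₁, x₃]) : ℝ) + K (Encodable.encode [x₁, x₄])
        - K (Encodable.encode [x₁, x₃, x₄]) - K (Encodable.encode [x₁])) +
      ((K (Encodable.encode [x₂, x₃]) : ℝ) + K (Encodable.encode [x₂, x₄])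
        - K (Encodable.encode [x₂, x₃, x₄]) - K (Encodable.encode [x₂])) + c := by
  obtain ⟨c, hc⟩ := main_int 4 zlp zln hK zy_valid
  refine ⟨c, fun x₁ x₂ x₃ x₄ => ?_⟩
  have h := hc ![x₁, x₂, x₃, x₄]
  rw [zy_expand] at h
  have f0 : (List.finRange 4).filter (fun i => decide (i ∈ ({0} : Finset (Fin 4)))) = [0] := by decide
  have f2 : (List.finRange 4).filter (fun i => decide (i ∈ ({2} : Finset (Fin 4)))) = [2] := by decide
  have f3 : (List.finRange 4).filter (fun i => decide (i ∈ ({3} : Finset (Fin 4)))) = [3] := by decide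
  have f01 : (List.finRange 4).filter (fun i => decide (i ∈ ({0, 1} : Finset (Fin 4)))) = [0, 1] := by
    decide
  have f02 : (List.finRange 4).filter (fun i => decide (i ∈ ({0, 2} : Finset (Fin 4)))) = [0, 2] := by
    decide
  have f03 : (List.finRange 4).filter (fun i => decide (i ∈ ({0, 3} : Finset (Fin 4)))) = [0, 3] := by
    decide
  have f12 : (List.finRange 4).filter (fun i => decide (i ∈ ({1, 2} : Finset (Fin 4)))) = [1, 2] := by
    decide
  have f13 : (List.finRange 4).filter (fun i => decide (i ∈ ({1, 3} : Finset (Fin 4)))) = [1, 3] := by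
    decide
  have f23 : (List.finRange 4).filter (fun i => decide (i ∈ ({2, 3} : Finset (Fin 4)))) = [2, 3] := by
    decide
  have f023 : (List.finRange 4).filter (fun i => decide (i ∈ ({0, 2, 3} : Finset (Fin 4))))
    = [0, 2, 3] := by decide
  have f123 : (List.finRange 4).filter (fun i => decide (i ∈ ({1, 2, 3} : Finset (Fin 4))))
    = [1, 2, 3] := by decide
  have s0 : sub 4 {0} ![x₁, x₂, x₃, x₄] = Encodable.encode [x₁] := by unfold sub; rw [f0]; rfl
  have s2 : sub 4 {2} ![x₁, x₂, x₃, x₄] = Encodable.encode [x₃] := by unfold sub; rw [f2]; rfl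
  have s3 : sub 4 {3} ![x₁, x₂, x₃, x₄] = Encodable.encode [x₄] := by unfold sub; rw [f3]; rfl
  have s01 : sub 4 {0, 1} ![x₁, x₂, x₃, x₄] = Encodable.encode [x₁, x₂] := by unfold sub; rw [f01]; rfl
  have s02 : sub 4 {0, 2} ![x₁, x₂, x₃, x₄] = Encodable.encode [x₁, x₃] := by unfold sub; rw [f02]; rfl
  have s03 : sub 4 {0, 3} ![x₁, x₂, x₃, x₄] = Encodable.encode [x₁, x₄] := by unfold sub; rw [f03]; rfl
  have s12 : sub 4 {1, 2} ![x₁, x₂, x₃, x₄] = Encodable.encode [x₂, x₃] := by unfold sub; rw [f12]; rfl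
  have s13 : sub 4 {1, 3} ![x₁, x₂, x₃, x₄] = Encodable.encode [x₂, x₄] := by unfold sub; rw [f13]; rfl
  have s23 : sub 4 {2, 3} ![x₁, x₂, x₃, x₄] = Encodable.encode [x₃, x₄] := by unfold sub; rw [f23]; rfl
  have s023 : sub 4 {0, 2, 3} ![x₁, x₂, x₃, x₄] = Encodable.encode [x₁, x₃, x₄] := by
    unfold sub; rw [f023]; rfl
  have s123 : sub 4 {1, 2, 3} ![x₁, x₂, x₃, x₄] = Encodable.encode [x₂, x₃, x₄] := by
    unfold sub; rw [f123]; rfl
  rw [s0, s2, s3, s01, s02, s03, s12, s13, s23, s023, s123] at h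
  linarith

end Pool.Agent.Helper981.KP
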