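import Mathlib
import Pool.Agent.Helper981.KP.KC
import Pool.Agent.Helper981.KP.ZYMain

/-!
Transfer to complexities of tuples of binary strings with respect to an optimal machine.
-/

set_option autoImplicit false
open Finset

namespace Pool.Agent.Helper981.KP

/-- decode a number as a list of strings -/
def dl (m : ℕ) : List (List Bool) :=
  (Denumerable.ofNat (List ℕ) m).map fun k => (Encodable.decode k : Option (List Bool)).getD []

lemma primrec_dl : Primrec dl := by
  unfold dl
  refine Primrec.list_map (f := fun m : ℕ => Denumerable.ofNat (List ℕ) m)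
    (g := fun _ k => (Encodable.decode k : Option (List Bool)).getD []) (Primrec.ofNat _) ?_
  exact Primrec.option_getD.comp (Primrec.decode.comp Primrec.snd) (Primrec.const [])

/-- code of a list of strings -/
def cl (l : List (List Bool)) : ℕ := Encodable.encode (l.map fun x => (Encodable.encode x : ℕ))

lemma primrec_cl : Primrec cl := by
  unfold cl
  exact Primrec.encode.comp (Primrec.list_map Primrec.id (Primrec.encode.comp Primrec.snd).to₂)

lemma dl_cl (l : List (List Bool)) : dl (cl l) = l := by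
  unfold dl cl
  rw [Denumerable.ofNat_encode, List.map_map]
  conv_rhs => rw [← List.map_id l]
  apply List.map_congr_left
  intro x _
  simp

section
variable {U : List Bool →. List Bool} (hU : OptimalPF U)
  (enc : List (List Bool) → List Bool) (henc : Computable enc) (hinj : Function.Injective enc)
include hU henc hinj

lemma enc_equiv : ∃ c : ℕ, ∀ l : List (List Bool),
    KPof U (enc l) ≤ KPof U (ones (cl l)) + c ∧ KPof U (ones (cl l)) ≤ KPof U (enc l) + c := by
  -- first direction
  have h3 : Computable (fun s : List Bool => enc (dl s.length)) :=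
    henc.comp (primrec_dl.to_comp.comp Primrec.list_length.to_comp)
  obtain ⟨c1, hc1⟩ := KPof_comp hU (fun s => Part.some (enc (dl s.length))) h3
  -- second direction
  have hcond : Computable₂ (fun (v : List Bool) (m : ℕ) => decide (enc (dl m) = v)) :=
    (Primrec.eq.decide.to_comp).comp (henc.comp (primrec_dl.to_comp.comp Computable.snd))
      Computable.fst
  have hr : Partrec (fun v : List Bool => Nat.rfind fun m => Part.some (decide (enc (dl m) = v))) :=
    Partrec.rfind hcond.partrec₂
  have hm : Computable₂ (fun (_ : List Bool) (m : ℕ) => ones (cl (dl m))) :=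
    primrec_ones.to_comp.comp (primrec_cl.to_comp.comp (primrec_dl.to_comp.comp Computable.snd))
  obtain ⟨c2, hc2⟩ := KPof_comp hU _ (hr.map hm)
  refine ⟨c1 + c2, fun l => ⟨?_, ?_⟩⟩
  · have := hc1 (ones (cl l)) (enc l) (by
      rw [Part.mem_some_iff, length_ones, dl_cl])
    omega
  · have := hc2 (enc l) (ones (cl l)) (by
      have hex : decide (enc (dl (cl l)) = enc l) = true := by rw [dl_cl]; simp
      obtain ⟨m, hm, _⟩ := Nat.rfind_min' (p := fun m => decide (enc (dl m) = enc l)) hex
      have h1 : decide (enc (dl m) = enc l) = true := (Part.mem_some_iff.1 (Nat.rfind_spec hm)).symm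
      have h2 : dl m = l := hinj (of_decide_eq_true h1)
      rw [Part.mem_map_iff]
      exact ⟨m, hm, by rw [h2]⟩)
    omega

/-- linear information inequalities with rational coefficients, for tuples of strings -/
theorem rat_machine (n : ℕ) (lam : Finset (Fin n) → ℚ)
    (h : InfoIneq n (fun S => (lam S : ℝ))) : ∃ c : ℝ, ∀ x : Fin n → List Bool,
    -c ≤ ∑ S, (lam S : ℝ) *
      (KPof U (enc (((List.finRange n).filter (fun i => decide (i ∈ S))).map x)) : ℝ) := by
  obtain ⟨c0, hc0⟩ := main_rat_coeff (isKP_of_optimal hU) n lam h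
  obtain ⟨c1, hc1⟩ := enc_equiv hU enc henc hinj
  refine ⟨c0 + ∑ S, |(lam S : ℝ)| * c1, fun x => ?_⟩
  have h0 := hc0 (fun i => Encodable.encode (x i))
  have e : ∀ S : Finset (Fin n), sub n S (fun i => Encodable.encode (x i)) =
      cl (((List.finRange n).filter (fun i => decide (i ∈ S))).map x) := by
    intro S
    unfold sub cl
    rw [List.map_map]
    rfl
  simp only [e] at h0
  have hterm : ∀ S : Finset (Fin n), (lam S : ℝ) *
      (KPof U (ones (cl (((List.finRange n).filter (fun i => decide (i ∈ S))).map x))) : ℝ)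
        - |(lam S : ℝ)| * c1 ≤ (lam S : ℝ) *
      (KPof U (enc (((List.finRange n).filter (fun i => decide (i ∈ S))).map x)) : ℝ) := by
    intro S
    obtain ⟨a1, a2⟩ := hc1 (((List.finRange n).filter (fun i => decide (i ∈ S))).map x)
    set A := KPof U (enc (((List.finRange n).filter (fun i => decide (i ∈ S))).map x))
    set B := KPof U (ones (cl (((List.finRange n).filter (fun i => decide (i ∈ S))).map x)))
    have b1 : (A : ℝ) ≤ B + c1 := by exact_mod_cast a1
    have b2 : (B : ℝ) ≤ A + c1 := by exact_mod_cast a2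
    have habs : |(B : ℝ) - A| ≤ c1 := abs_le.2 ⟨by linarith, by linarith⟩
    have h3 : (lam S : ℝ) * ((B : ℝ) - A) ≤ |(lam S : ℝ)| * c1 :=
      (le_abs_self _).trans (by rw [abs_mul]; exact mul_le_mul_of_nonneg_left habs (abs_nonneg _))
    linarith
  have hsum := Finset.sum_le_sum (s := Finset.univ) fun S _ => hterm S
  rw [Finset.sum_sub_distrib] at hsum
  linarith

/-- the Zhang–Yeung inequality, for tuples of strings -/
theorem zy_machine : ∃ c : ℝ, ∀ x₁ x₂ x₃ x₄ : List Bool,
    2 * ((KPof U (enc [x₃]) : ℝ) + KPof U (enc [x₄]) - KPof U (enc [x₃, x₄])) ≤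
      ((KPof U (enc [x₁]) : ℝ) + KPof U (enc [x₂]) - KPof U (enc [x₁, x₂])) +
      ((KPof U (enc [x₁]) : ℝ) + KPof U (enc [x₃, x₄]) - KPof U (enc [x₁, x₃, x₄])) +
      3 * ((KPof U (enc [x₁, x₃]) : ℝ) + KPof U (enc [x₁, x₄]) - KPof U (enc [x₁, x₃, x₄])
        - KPof U (enc [x₁])) +
      ((KPof U (enc [x₂, x₃]) : ℝ) + KPof U (enc [x₂, x₄]) - KPof U (enc [x₂, x₃, x₄])
        - KPof U (enc [x₂])) + c := by
  obtain ⟨c0, hc0⟩ := zy_KP (isKP_of_optimal hU)
  obtain ⟨c1, hc1⟩ := enc_equiv hU enc henc hinj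
  refine ⟨c0 + 30 * c1, fun x₁ x₂ x₃ x₄ => ?_⟩
  have h0 := hc0 (Encodable.encode x₁) (Encodable.encode x₂) (Encodable.encode x₃)
    (Encodable.encode x₄)
  have key : ∀ l : List (List Bool),
      |(KPof U (ones (Encodable.encode (l.map fun x => (Encodable.encode x : ℕ)))) : ℝ)
        - KPof U (enc l)| ≤ c1 := by
    intro l
    obtain ⟨a1, a2⟩ := hc1 l
    have b1 : (KPof U (enc l) : ℝ) ≤ KPof U (ones (cl l)) + c1 := by exact_mod_cast a1
    have b2 : (KPof U (ones (cl l)) : ℝ) ≤ KPof U (enc l) + c1 := by exact_mod_cast a2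
    exact abs_le.2 ⟨by change _ ≤ (KPof U (ones (cl l)) : ℝ) - _; linarith,
      by change (KPof U (ones (cl l)) : ℝ) - _ ≤ _; linarith⟩
  have k1 := abs_le.1 (key [x₁])
  have k2 := abs_le.1 (key [x₂])
  have k3 := abs_le.1 (key [x₃])
  have k4 := abs_le.1 (key [x₄])
  have k12 := abs_le.1 (key [x₁, x₂])
  have k13 := abs_le.1 (key [x₁, x₃])
  have k14 := abs_le.1 (key [x₁, x₄])
  have k23 := abs_le.1 (key [x₂, x₃])
  have k24 := abs_le.1 (key [x₂, x₄])
  have k34 := abs_le.1 (key [x₃, x₄])
  have k134 := abs_le.1 (key [x₁, x₃, x₄])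
  have k234 := abs_le.1 (key [x₂, x₃, x₄])
  simp only [List.map_cons, List.map_nil] at k1 k2 k3 k4 k12 k13 k14 k23 k24 k34 k134 k234
  linarith [k1.1, k1.2, k2.1, k2.2, k3.1, k3.2, k4.1, k4.2, k12.1, k12.2, k13.1, k13.2, k14.1,
    k14.2, k23.1, k23.2, k24.1, k24.2, k34.1, k34.2, k134.1, k134.2, k234.1, k234.2]

end

end Pool.Agent.Helper981.KP
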